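import Pool.Agent.Lib.MP_cb27ba_nt.SP.Spec

/-! # Module BSG of project SP: Balog-Szemerédi-Gowers from the graph lemma -/

set_option autoImplicit false

namespace MPcb27.SP

open Finset
open scoped Pointwise

namespace BSGM

/-- number of representations `x + y = s` -/
def rr {p : ℕ} (X Y : Finset (ZMod p)) (s : ZMod p) : ℕ :=
  #((X ×ˢ Y).filter fun q => q.1 + q.2 = s)

lemma rr_le {p : ℕ} (X Y : Finset (ZMod p)) (s : ZMod p) : rr X Y s ≤ #X := by
  unfold rr
  refine Finset.card_le_card_of_injOn (fun q => q.1) ?_ ?_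
  · intro q hq
    simp only [Finset.coe_filter, Finset.mem_product, Set.mem_ofPred_eq] at hq
    exact hq.1.1
  · intro q hq q' hq' h
    simp only [Finset.coe_filter, Finset.mem_product, Set.mem_ofPred_eq] at hq hq'
    simp only at h
    refine Prod.ext h ?_
    have h1 := hq.2
    have h2 := hq'.2
    rw [h] at h1
    exact add_left_cancel (h1.trans h2.symm)

lemma sum_rr {p : ℕ} [Fact p.Prime] (X Y : Finset (ZMod p)) : ∑ s, rr X Y s = #X * #Y := by
  unfold rr
  rw [← Finset.card_product]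
  exact (Finset.card_eq_sum_card_fiberwise (f := fun q : ZMod p × ZMod p => q.1 + q.2)
    (t := Finset.univ) (fun _ _ => by simp)).symm

lemma en_eq {p : ℕ} [Fact p.Prime] (X Y : Finset (ZMod p)) :
    #(((X ×ˢ X) ×ˢ (Y ×ˢ Y)).filter fun q => q.1.1 - q.1.2 = q.2.1 - q.2.2) =
      ∑ s, rr X Y s ^ 2 := by
  have h1 : ∀ s : ZMod p, rr X Y s ^ 2 =
      #((((X ×ˢ X) ×ˢ (Y ×ˢ Y)).filter fun q => q.1.1 - q.1.2 = q.2.1 - q.2.2).filter
        fun q => q.1.1 + q.2.2 = s) := by
    intro s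
    unfold rr
    rw [sq, ← Finset.card_product]
    refine Finset.card_bij' (fun q _ => ((q.1.1, q.2.1), (q.2.2, q.1.2)))
      (fun q _ => ((q.1.1, q.2.2), (q.1.2, q.2.1))) ?_ ?_ ?_ ?_
    · intro q hq
      simp only [Finset.mem_product, Finset.mem_filter] at hq ⊢
      refine ⟨⟨⟨⟨hq.1.1.1, hq.2.1.1⟩, hq.2.1.2, hq.1.1.2⟩, ?_⟩, hq.1.2⟩
      have e1 := hq.1.2
      have e2 := hq.2.2
      linear_combination e1 - e2
    · intro q hq
      simp only [Finset.mem_product, Finset.mem_filter] at hq ⊢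
      obtain ⟨⟨⟨⟨h1, h2⟩, h3, h4⟩, h5⟩, h6⟩ := hq
      refine ⟨⟨⟨h1, h4⟩, h6⟩, ⟨h2, h3⟩, ?_⟩
      linear_combination h6 - h5
    · intro q hq
      rfl
    · intro q hq
      rfl
  rw [Finset.sum_congr rfl fun s _ => h1 s]
  exact Finset.card_eq_sum_card_fiberwise
    (f := fun q : (ZMod p × ZMod p) × ZMod p × ZMod p => q.1.1 + q.2.2)
    (t := Finset.univ) (fun _ _ => by simp)

end BSGM

open BSGM in
theorem specBSG (hGR : SpecGR) : SpecBSG := by
  obtain ⟨c, hc⟩ := hGR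
  refine ⟨256 * c + 8, ?_⟩
  intro p _ X Y K hK hX hXY hE
  classical
  set N : ℝ := (#X : ℝ) with hN
  have hN1 : 1 ≤ N := by
    rw [hN]
    exact_mod_cast hX.card_pos
  have hK0 : 0 < K := by linarith
  have hYN : (#Y : ℝ) = N := by rw [hN, hXY]
  set S : Finset (ZMod p) := Finset.univ.filter fun s => N ≤ 2 * K * rr X Y s with hS
  set G : Finset (ZMod p × ZMod p) := (X ×ˢ Y).filter fun q => q.1 + q.2 ∈ S with hG
  have hsum : (∑ s, (rr X Y s : ℝ)) = N ^ 2 := by
    have := sum_rr X Y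
    have h2 : ((∑ s, rr X Y s : ℕ) : ℝ) = ((#X * #Y : ℕ) : ℝ) := by exact_mod_cast this
    rw [Nat.cast_sum, Nat.cast_mul, hYN] at h2
    rw [h2, sq]
  have hE2 : N ^ 3 ≤ K * ∑ s, (rr X Y s : ℝ) ^ 2 := by
    rw [en_eq] at hE
    have : ((∑ s, rr X Y s ^ 2 : ℕ) : ℝ) = ∑ s, (rr X Y s : ℝ) ^ 2 := by
      push_cast
      rfl
    rw [this] at hE
    exact hE
  have hGc : (#G : ℝ) = ∑ s ∈ S, (rr X Y s : ℝ) := by
    have h1 : #G = ∑ s ∈ S, rr X Y s := by
      rw [Finset.card_eq_sum_card_fiberwise (f := fun q : ZMod p × ZMod p => q.1 + q.2) (t := S)]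
      · refine Finset.sum_congr rfl fun s hs => ?_
        unfold rr
        congr 1
        ext q
        simp only [hG, Finset.mem_filter]
        constructor
        · rintro ⟨⟨h1, h2⟩, h3⟩
          exact ⟨h1, h3⟩
        · rintro ⟨h1, h3⟩
          exact ⟨⟨h1, by rw [h3]; exact hs⟩, h3⟩
      · intro q hq
        simp only [hG, Finset.coe_filter, Set.mem_ofPred_eq] at hq
        exact hq.2
    rw [h1]
    push_cast
    rfl
  -- many edges
  have hGbig : N * N ≤ 2 * K * #G := by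
    have hsplit : ∑ s, (rr X Y s : ℝ) ^ 2 =
        ∑ s ∈ S, (rr X Y s : ℝ) ^ 2 + ∑ s ∈ Finset.univ.filter (fun s => ¬ (N ≤ 2 * K * rr X Y s)),
          (rr X Y s : ℝ) ^ 2 := by
      rw [hS]
      exact (Finset.sum_filter_add_sum_filter_not _ _ _).symm
    have h1 : ∑ s ∈ S, (rr X Y s : ℝ) ^ 2 ≤ N * #G := by
      rw [hGc, Finset.mul_sum]
      refine Finset.sum_le_sum fun s _ => ?_
      rw [sq]
      refine mul_le_mul_of_nonneg_right ?_ (Nat.cast_nonneg _)
      rw [hN]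
      exact_mod_cast rr_le X Y s
    have h2 : 2 * K * ∑ s ∈ Finset.univ.filter (fun s => ¬ (N ≤ 2 * K * rr X Y s)),
        (rr X Y s : ℝ) ^ 2 ≤ N * N ^ 2 := by
      rw [← hsum, Finset.mul_sum, Finset.mul_sum]
      refine (Finset.sum_le_sum fun s hs => ?_).trans
        (Finset.sum_le_sum_of_subset_of_nonneg (Finset.filter_subset _ _) fun s _ _ => ?_)
      · have hs' := (Finset.mem_filter.1 hs).2
        push Not at hs'
        have h0 : (0 : ℝ) ≤ (rr X Y s : ℝ) := Nat.cast_nonneg _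
        calc 2 * K * (rr X Y s : ℝ) ^ 2 = (2 * K * rr X Y s) * rr X Y s := by ring
          _ ≤ N * rr X Y s := mul_le_mul_of_nonneg_right hs'.le h0
      · exact mul_nonneg (by linarith) (Nat.cast_nonneg _)
    have h3 : 2 * (K * ∑ s, (rr X Y s : ℝ) ^ 2) ≤ 2 * K * (N * #G) + N * N ^ 2 := by
      rw [hsplit]
      nlinarith [h1, h2]
    have h4 : N * (N * N) ≤ N * (2 * K * #G) := by nlinarith [h3, hE2]
    exact le_of_mul_le_mul_left h4 (by linarith)
  -- few popular sums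
  have hSc : (#S : ℝ) ≤ 2 * K * N := by
    have h1 : (#S : ℝ) * N ≤ 2 * K * N ^ 2 := by
      rw [← hsum, Finset.mul_sum, ← nsmul_eq_mul, ← Finset.sum_const]
      refine (Finset.sum_le_sum fun s hs => ?_).trans
        (Finset.sum_le_sum_of_subset_of_nonneg (Finset.subset_univ S) fun s _ _ => ?_)
      · exact (Finset.mem_filter.1 hs).2
      · positivity
    have h2 : (#S : ℝ) * N ≤ (2 * K * N) * N := by nlinarith [h1]
    exact le_of_mul_le_mul_right h2 (by linarith)
  obtain ⟨A', B', hA', hB', hAc, hBc, hpath⟩ := hc (ZMod p) (ZMod p) X Y G (2 * K) (by linarith)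
    (Finset.filter_subset _ _) (by rw [hYN, ← hN]; exact hGbig)
  have hKc : (1 : ℝ) ≤ K ^ (256 * c + 8) := one_le_pow₀ hK
  have hK1 : K ≤ K ^ (256 * c + 8) := by
    calc K = K ^ 1 := (pow_one K).symm
      _ ≤ K ^ (256 * c + 8) := pow_le_pow_right₀ hK (by omega)
  have hcc : (2 * c : ℝ) * K ≤ ((256 * c + 8 : ℕ) : ℝ) * K ^ (256 * c + 8) := by
    refine mul_le_mul ?_ hK1 hK0.le (Nat.cast_nonneg _)
    push_cast
    have : (0 : ℝ) ≤ c := Nat.cast_nonneg _
    linarith
  refine ⟨A', B', hA', hB', ?_, ?_, ?_⟩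
  · calc (#X : ℝ) ≤ c * (2 * K) * #A' := hAc
      _ = (2 * c : ℝ) * K * #A' := by ring
      _ ≤ _ := mul_le_mul_of_nonneg_right hcc (Nat.cast_nonneg _)
  · calc (#Y : ℝ) ≤ c * (2 * K) * #B' := hBc
      _ = (2 * c : ℝ) * K * #B' := by ring
      _ ≤ _ := mul_le_mul_of_nonneg_right hcc (Nat.cast_nonneg _)
  · -- representations
    set T : ZMod p → Finset (ZMod p × ZMod p × ZMod p) := fun z =>
      (S ×ˢ S ×ˢ S).filter fun t => t.1 - t.2.1 + t.2.2 = z with hT
    have hTz : ∀ z ∈ A' + B', N * N ≤ c * (2 * K) ^ 5 * #(T z) := by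
      intro z hz
      obtain ⟨a, ha, b, hb, rfl⟩ := Finset.mem_add.1 hz
      have h1 := hpath a ha b hb
      rw [hYN, ← hN] at h1
      refine h1.trans (mul_le_mul_of_nonneg_left ?_ (by positivity))
      norm_cast
      refine Finset.card_le_card_of_injOn (fun q => (a + q.2, q.1 + q.2, q.1 + b)) ?_ ?_
      · intro q hq
        simp only [Finset.coe_filter, Set.mem_ofPred_eq] at hq
        obtain ⟨_, h2, h3, h4⟩ := hq
        simp only [hG, Finset.mem_filter] at h2 h3 h4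
        simp only [hT, Finset.coe_filter, Finset.mem_product, Set.mem_ofPred_eq]
        refine ⟨⟨h2.2, h3.2, h4.2⟩, ?_⟩
        ring
      · intro q hq q' hq' h
        simp only [Prod.mk.injEq] at h
        exact Prod.ext (add_right_cancel h.2.2) (add_left_cancel h.1)
    have hTsum : ∑ z ∈ A' + B', (#(T z) : ℝ) ≤ (#S : ℝ) ^ 3 := by
      have h1 : ∑ z ∈ A' + B', #(T z) ≤ #(S ×ˢ S ×ˢ S) := by
        rw [← Finset.card_biUnion]
        · refine Finset.card_le_card ?_
          intro t ht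
          obtain ⟨z, _, hz⟩ := Finset.mem_biUnion.1 ht
          exact (Finset.mem_filter.1 hz).1
        · intro z _ z' _ hzz
          rw [Function.onFun, Finset.disjoint_left]
          intro t ht ht'
          exact hzz ((Finset.mem_filter.1 ht).2.symm.trans (Finset.mem_filter.1 ht').2)
      have h2 : ((∑ z ∈ A' + B', #(T z) : ℕ) : ℝ) ≤ ((#(S ×ˢ S ×ˢ S) : ℕ) : ℝ) := by
        exact_mod_cast h1
      rw [Finset.card_product, Finset.card_product] at h2
      push_cast at h2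
      calc _ ≤ (#S : ℝ) * ((#S : ℝ) * (#S : ℝ)) := h2
        _ = _ := by ring
    have h1 : (#(A' + B') : ℝ) * (N * N) ≤ c * (2 * K) ^ 5 * (2 * K * N) ^ 3 := by
      calc (#(A' + B') : ℝ) * (N * N) = ∑ z ∈ A' + B', N * N := by
            rw [Finset.sum_const, nsmul_eq_mul]
        _ ≤ ∑ z ∈ A' + B', c * (2 * K) ^ 5 * (#(T z) : ℝ) := Finset.sum_le_sum hTz
        _ = c * (2 * K) ^ 5 * ∑ z ∈ A' + B', (#(T z) : ℝ) := by rw [Finset.mul_sum]
        _ ≤ c * (2 * K) ^ 5 * (#S : ℝ) ^ 3 :=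
            mul_le_mul_of_nonneg_left hTsum (by positivity)
        _ ≤ c * (2 * K) ^ 5 * (2 * K * N) ^ 3 :=
            mul_le_mul_of_nonneg_left (pow_le_pow_left₀ (Nat.cast_nonneg _) hSc 3) (by positivity)
    have h2 : (#(A' + B') : ℝ) * (N * N) ≤ (256 * c * K ^ 8 * N) * (N * N) := by
      calc _ ≤ _ := h1
        _ = _ := by ring
    have h3 : (#(A' + B') : ℝ) ≤ 256 * c * K ^ 8 * N :=
      le_of_mul_le_mul_right h2 (mul_pos (by linarith) (by linarith))
    refine h3.trans (mul_le_mul_of_nonneg_right ?_ (by linarith))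
    refine mul_le_mul ?_ (pow_le_pow_right₀ hK (by omega)) (by positivity) (Nat.cast_nonneg _)
    push_cast
    linarith

end MPcb27.SP
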