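import Pool.Agent.Lib.MP_cb27ba_nt.SP.Spec

/-!
# MP_cb27ba_nt, project SP: the module FID (helper50)
-/

set_option autoImplicit false

namespace MPcb27.SP

open Finset
open scoped Pointwise
open MPcb27.TU MPcb27.TW

namespace FIDM

/-- the transform -/
noncomputable def F {p : ℕ} [Fact p.Prime] (η : ZMod p → ℝ) (x : ZMod p) : ℂ :=
  ∑ a, (η a : ℂ) * ZMod.stdAddChar (a * x)

theorem orth {p : ℕ} [Fact p.Prime] (b : ZMod p) :
    ∑ x : ZMod p, (ZMod.stdAddChar (b * x) : ℂ) = if b = 0 then (p : ℂ) else 0 := by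
  have h := AddChar.sum_mulShift b (ZMod.isPrimitive_stdAddChar p)
  rw [ZMod.card] at h
  simp only [mul_comm _ b] at h
  rw [h]
  push_cast
  rfl

theorem conj_F {p : ℕ} [Fact p.Prime] (η : ZMod p → ℝ) (x : ZMod p) :
    (starRingEnd ℂ) (F η x) = ∑ a, (η a : ℂ) * ZMod.stdAddChar (-(a * x)) := by
  unfold F
  rw [map_sum]
  refine Finset.sum_congr rfl fun a _ => ?_
  rw [map_mul, Complex.conj_ofReal, AddChar.map_neg_eq_conj]

theorem sq {p : ℕ} [Fact p.Prime] (η : ZMod p → ℝ) (x : ZMod p) :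
    ((‖F η x‖ ^ 2 : ℝ) : ℂ) = ∑ a, ∑ b, (η a : ℂ) * η b * ZMod.stdAddChar ((a - b) * x) := by
  rw [← Complex.normSq_eq_norm_sq, ← Complex.mul_conj, conj_F, F, Finset.sum_mul_sum]
  refine Finset.sum_congr rfl fun a _ => Finset.sum_congr rfl fun b _ => ?_
  have e : (a - b) * x = a * x + -(b * x) := by ring
  rw [e, AddChar.map_add_eq_mul]
  ring

theorem part2 {p : ℕ} [Fact p.Prime] (η : ZMod p → ℝ) :
    ∑ x, ‖F η x‖ ^ 2 = p * ∑ a, η a ^ 2 := by
  have h : ((∑ x, ‖F η x‖ ^ 2 : ℝ) : ℂ) = ((p * ∑ a, η a ^ 2 : ℝ) : ℂ) := by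
    rw [Complex.ofReal_sum, Finset.sum_congr rfl fun x _ => sq η x, Finset.sum_comm]
    push_cast
    rw [Finset.mul_sum]
    refine Finset.sum_congr rfl fun a _ => ?_
    rw [Finset.sum_comm]
    have h1 : ∀ b : ZMod p, ∑ x : ZMod p, (η a : ℂ) * η b * ZMod.stdAddChar ((a - b) * x) =
        if b = a then (p : ℂ) * (η a : ℂ) ^ 2 else 0 := by
      intro b
      rw [← Finset.mul_sum, orth]
      by_cases hb : b = a
      · subst hb
        rw [if_pos (sub_self _), if_pos rfl]
        ring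
      · rw [if_neg (fun h => hb (sub_eq_zero.1 h).symm), if_neg hb, mul_zero]
    rw [Finset.sum_congr rfl fun b _ => h1 b]
    simp
  exact_mod_cast h

theorem part1 {p : ℕ} [Fact p.Prime] (η : ZMod p → ℝ) (l : ZMod p) :
    ∑ x, ‖F η x‖ ^ 2 * ‖F η (l * x)‖ ^ 2 = p * ENF η l := by
  have h : ((∑ x, ‖F η x‖ ^ 2 * ‖F η (l * x)‖ ^ 2 : ℝ) : ℂ) = ((p * ENF η l : ℝ) : ℂ) := by
    rw [Complex.ofReal_sum]
    have h1 : ∀ x : ZMod p, ((‖F η x‖ ^ 2 * ‖F η (l * x)‖ ^ 2 : ℝ) : ℂ) =
        ∑ a, ∑ b, ∑ b', ∑ a', (η a : ℂ) * η a' * η b * η b' *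
          ZMod.stdAddChar ((a - a' - l * (b - b')) * x) := by
      intro x
      rw [Complex.ofReal_mul, sq, sq, Finset.sum_mul]
      refine Finset.sum_congr rfl fun a _ => ?_
      rw [Finset.sum_mul]
      -- swap the names of `b` and `b'`
      have h2 : ∀ a' : ZMod p, (η a : ℂ) * η a' * ZMod.stdAddChar ((a - a') * x) *
          ∑ b', ∑ b, (η b' : ℂ) * η b * ZMod.stdAddChar ((b' - b) * (l * x)) =
          ∑ b, ∑ b', (η a : ℂ) * η a' * η b * η b' *
            ZMod.stdAddChar ((a - a' - l * (b - b')) * x) := by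
        intro a'
        rw [Finset.mul_sum, Finset.sum_comm]
        rw [Finset.sum_comm]
        rw [Finset.sum_congr rfl fun b' _ => Finset.mul_sum _ _ _]
        rw [Finset.sum_comm]
        refine Finset.sum_congr rfl fun b _ => Finset.sum_congr rfl fun b' _ => ?_
        have e : (a - a' - l * (b - b')) * x = (a - a') * x + (b' - b) * (l * x) := by ring
        rw [e, AddChar.map_add_eq_mul]
        ring
      rw [Finset.sum_congr rfl fun a' _ => h2 a', Finset.sum_comm]
      refine Finset.sum_congr rfl fun b _ => ?_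
      rw [Finset.sum_comm]
    rw [Finset.sum_congr rfl fun x _ => h1 x, Finset.sum_comm]
    unfold ENF
    push_cast
    rw [Finset.mul_sum]
    refine Finset.sum_congr rfl fun a _ => ?_
    rw [Finset.sum_comm, Finset.mul_sum]
    refine Finset.sum_congr rfl fun b _ => ?_
    rw [Finset.sum_comm, Finset.mul_sum]
    refine Finset.sum_congr rfl fun b' _ => ?_
    rw [Finset.sum_comm]
    have h3 : ∀ a' : ZMod p, ∑ x : ZMod p, (η a : ℂ) * η a' * η b * η b' *
        ZMod.stdAddChar ((a - a' - l * (b - b')) * x) =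
        if a' = a - l * (b - b') then (p : ℂ) * ((η a : ℂ) * η (a - l * (b - b')) * η b * η b')
        else 0 := by
      intro a'
      rw [← Finset.mul_sum, orth]
      by_cases hb : a' = a - l * (b - b')
      · rw [if_pos (by rw [hb]; ring), if_pos hb, hb]
        ring
      · rw [if_neg, if_neg hb, mul_zero]
        intro h
        apply hb
        linear_combination -h
    rw [Finset.sum_congr rfl fun a' _ => h3 a']
    simp
  exact_mod_cast h

end FIDM

theorem specFID : SpecFID := by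
  intro p _ η l
  exact ⟨FIDM.part1 η l, FIDM.part2 η⟩

end MPcb27.SP
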