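import Pool.Agent.Lib.MP_cb27ba_nt.SP.HF

/-!
# MP_cb27ba_nt, project SP: module FL, flattening
-/

set_option autoImplicit false

namespace MPcb27.SP

open Finset

namespace FL

theorem pig (W : ℕ → ℝ) (N : ℕ) (K P : ℝ) (hK : 0 < K) (hN : 1 ≤ N) (hW : ∀ n, 1 ≤ W n)
    (h1 : W 1 ≤ P) (hP : P ≤ K ^ N) : ∃ n, 1 ≤ n ∧ n ≤ N ∧ W n ≤ K * W (n + 1) := by
  by_contra hcon
  push Not at hcon
  have hind : ∀ j, 1 ≤ j → j ≤ N → K ^ j * W (j + 1) < W 1 := by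
    intro j hj
    induction j, hj using Nat.le_induction with
    | base =>
      intro _
      have := hcon 1 le_rfl hN
      simpa using this
    | succ j hj ih =>
      intro hjN
      have h2 := ih (by omega)
      have h3 := hcon (j + 1) (by omega) hjN
      calc K ^ (j + 1) * W (j + 1 + 1) = K ^ j * (K * W (j + 1 + 1)) := by ring
        _ < K ^ j * W (j + 1) := mul_lt_mul_of_pos_left h3 (by positivity)
        _ < W 1 := h2
  have h2 := hind N hN le_rfl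
  have h3 := hW (N + 1)
  have h4 : K ^ N * 1 ≤ K ^ N * W (N + 1) := mul_le_mul_of_nonneg_left h3 (by positivity)
  linarith

end FL

open FL in
/-- **FL** -/
theorem specFL (hME : SpecMEAS) (hFI : SpecFID) (hTR : SpecTRUNC) (hPK : SpecPACK)
    (hPV : SpecPIV) : SpecFL := by
  classical
  intro δ γ hδ hγ
  obtain ⟨C₁, hPK⟩ := hPK
  -- the number of pivot steps
  obtain ⟨m, hm⟩ : ∃ m : ℕ, 2 / δ < (2 : ℝ) ^ m := pow_unbounded_of_one_lt _ (by norm_num)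
  obtain ⟨C₂, hPV⟩ := hPV m
  set θ : ℝ := min δ γ / (4 * (C₂ + 2)) with hθ
  have hC20 : (0 : ℝ) ≤ C₂ := Nat.cast_nonneg _
  have hC10 : (0 : ℝ) ≤ C₁ := Nat.cast_nonneg _
  have hmin : 0 < min δ γ := lt_min hδ hγ
  have hθ0 : 0 < θ := by positivity
  have hθ1 : (C₂ + 2) * θ = min δ γ / 4 := by
    rw [hθ]
    field_simp
  have hθδ : 4 * ((C₂ + 2) * θ) ≤ δ := by
    rw [hθ1]
    have := min_le_left δ γ
    linarith
  have hθγ : 4 * ((C₂ + 2) * θ) ≤ γ := by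
    rw [hθ1]
    have := min_le_right δ γ
    linarith
  -- the number of steps
  obtain ⟨s, hs⟩ : ∃ s : ℕ, 2 * (8 * C₁ + 8) / θ + 1 < (2 : ℝ) ^ s :=
    pow_unbounded_of_one_lt _ (by norm_num)
  set N : ℕ := 2 ^ s - 1 with hN
  have h2s : 1 ≤ 2 ^ s := Nat.one_le_two_pow
  have hNr : (N : ℝ) = 2 ^ s - 1 := by
    rw [hN, Nat.cast_sub h2s]
    push_cast
    rfl
  have hNbig : 2 * (8 * C₁ + 8) / θ < N := by rw [hNr]; linarith
  have hN0 : (0 : ℝ) < N := lt_of_le_of_lt (by positivity) hNbig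
  have hN1 : 1 ≤ N := by
    have : 0 < N := by exact_mod_cast hN0
    omega
  have hNθ : (8 * C₁ + 8) / N ≤ θ / 2 := by
    rw [div_le_iff₀ hN0]
    rw [div_lt_iff₀ hθ0] at hNbig
    nlinarith
  -- large primes
  obtain ⟨T₁, hT₁⟩ : ∃ T₁ : ℝ, T₁ = C₁ * (2 ^ 37) ^ C₁ := ⟨_, rfl⟩
  have hT₁0 : 0 ≤ T₁ := by rw [hT₁]; positivity
  set Q : ℝ := 2 ^ 8 + T₁ + C₂ with hQ
  have ev : ∀ᶠ x : ℝ in Filter.atTop, Q ≤ x ^ (θ / 2) :=
    (tendsto_rpow_atTop (by positivity)).eventually_ge_atTop Q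
  obtain ⟨P, hP⟩ := Filter.eventually_atTop.1 (tendsto_natCast_atTop_atTop.eventually ev)
  refine ⟨s, 2 ^ 2 ^ s, Nat.one_le_two_pow, P, ?_⟩
  intro p _ hp D hD0 hDδ
  have hpp : p.Prime := Fact.out
  have hp1 : (1 : ℝ) < p := by exact_mod_cast hpp.one_lt
  have hp0 : (0 : ℝ) < p := by linarith
  have hQp := hP p hp
  have hpθ0 : (0 : ℝ) < (p : ℝ) ^ (θ / 2) := Real.rpow_pos_of_pos hp0 _
  have hpθ : (p : ℝ) ^ (θ / 2) * (p : ℝ) ^ (θ / 2) = (p : ℝ) ^ θ := by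
    rw [← Real.rpow_add hp0]
    congr 1
    ring
  have hQ1 : (2 : ℝ) ^ 8 ≤ (p : ℝ) ^ (θ / 2) := by linarith
  have hQ2 : T₁ ≤ (p : ℝ) ^ (θ / 2) := by linarith
  have hQ3 : (C₂ : ℝ) ≤ (p : ℝ) ^ (θ / 2) := by linarith
  have hDc : (0 : ℝ) < #D := lt_of_lt_of_le (Real.rpow_pos_of_pos hp0 _) hDδ
  have hDn : D.Nonempty := card_pos.mp (by exact_mod_cast hDc)
  -- the parameter K
  set K : ℝ := (p : ℝ) ^ (1 / (N : ℝ)) with hK
  have hK1 : 1 ≤ K := Real.one_le_rpow hp1.le (by positivity)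
  have hKN : K ^ N = p := by
    rw [hK, ← Real.rpow_natCast, ← Real.rpow_mul hp0.le, one_div, inv_mul_cancel₀ hN0.ne',
      Real.rpow_one]
  have hKpow : ∀ j : ℕ, (j : ℝ) ≤ 8 * C₁ + 8 → K ^ j ≤ (p : ℝ) ^ (θ / 2) := by
    intro j hj
    rw [hK, ← Real.rpow_natCast, ← Real.rpow_mul hp0.le]
    apply Real.rpow_le_rpow_of_exponent_le hp1.le
    refine le_trans ?_ hNθ
    rw [one_div, inv_mul_eq_div]
    exact div_le_div_of_nonneg_right hj hN0.le
  -- the main quantity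
  set W : ℕ → ℝ := fun n => ∑ x, ‖GN D n x‖ ^ 2 ^ (n + 1) with hW
  have hHF := fun n => specHF p D n hDn hD0
  have hWanti : Antitone W := antitone_nat_of_succ_le fun n => (hHF n).2.1
  have hexp : 2 * 2 ^ 2 ^ s = 2 ^ (2 ^ s + 1) := by ring
  rw [hexp]
  by_contra hcon
  push Not at hcon
  change (p : ℝ) ^ γ < W (2 ^ s) at hcon
  obtain ⟨n, hn1, hnN, hWn⟩ := pig W N K p (by linarith) hN1 (fun n => (hHF n).2.2.1)
    (hHF 1).2.2.2 hKN.ge
  have hns : n ≤ 2 ^ s := by omega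
  have hWγ : (p : ℝ) ^ γ < W n := lt_of_lt_of_le hcon (hWanti hns)
  obtain ⟨c, hc0, hcHF⟩ := (hHF n).1
  -- the measure
  obtain ⟨η, hη0, hη1, hηD, hηF⟩ := hME p D n (2 ^ n) hDn hD0 hn1 Nat.one_le_two_pow
  set S : ℝ := ∑ x, η x ^ 2 with hS
  have hnorm : ∀ x, ‖∑ a, (η a : ℂ) * ZMod.stdAddChar (a * x)‖ ^ 2 =
      ‖GN D n x‖ ^ 2 ^ (n + 1) := by
    intro x
    rw [hηF, norm_pow, ← pow_mul]
    congr 1
  have hWS : W n = p * S := by
    have h := (hFI p η 1).2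
    rw [← h]
    exact (sum_congr rfl fun x _ => (hnorm x).symm)
  have hENF : ∀ l : ZMod p, (p : ℝ) * ENF η l =
      ∑ x, ‖GN D n x‖ ^ 2 ^ (n + 1) * ‖GN D n (l * x)‖ ^ 2 ^ (n + 1) := by
    intro l
    rw [← (hFI p η l).1]
    refine sum_congr rfl fun x _ => ?_
    rw [hnorm x, hnorm (l * x)]
  have hS0 : 0 < S := by
    have h1 : 0 < W n := lt_trans (Real.rpow_pos_of_pos hp0 _) hWγ
    rw [hWS] at h1
    exact (mul_pos_iff_of_pos_left hp0).mp h1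
  have hENFle : ∀ l : ZMod p, ENF η l ≤ S := by
    intro l
    have h1 : (p : ℝ) * ENF η l ≤ p * S := by
      rw [hENF, ← hWS]
      refine sum_le_sum fun x _ => ?_
      exact mul_le_of_le_one_right (by positivity)
        (pow_le_one₀ (norm_nonneg _) (HF.norm_GN_le D n _))
    exact le_of_mul_le_mul_left h1 hp0
  have hSD : S ≤ 1 / #D := by
    calc S ≤ ∑ x, η x * (1 / #D) := sum_le_sum fun x _ => by
          rw [sq]; exact mul_le_mul_of_nonneg_left (hηD x) (hη0 x)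
      _ = 1 / #D := by rw [← sum_mul, hη1, one_mul]
  -- many `d`
  have hmany : (#D : ℝ) * S ≤ K * ∑ d ∈ D, ENF η (c * d) := by
    have h1 : (p : ℝ) * (#D * S) ≤ p * (K * ∑ d ∈ D, ENF η (c * d)) := by
      calc (p : ℝ) * (#D * S) = #D * W n := by rw [hWS]; ring
        _ ≤ #D * (K * W (n + 1)) := mul_le_mul_of_nonneg_left hWn hDc.le
        _ = K * (#D * W (n + 1)) := by ring
        _ ≤ K * ∑ d ∈ D, ∑ x, ‖GN D n x‖ ^ 2 ^ (n + 1) * ‖GN D n (c * d * x)‖ ^ 2 ^ (n + 1) :=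
            mul_le_mul_of_nonneg_left hcHF (by linarith)
        _ = p * (K * ∑ d ∈ D, ENF η (c * d)) := by
            simp only [← hENF]
            rw [← mul_sum]
            ring
    exact le_of_mul_le_mul_left h1 hp0
  set D' : Finset (ZMod p) := D.filter (fun d => S ≤ 2 * K * ENF η (c * d)) with hD'
  have hD'c : (#D : ℝ) ≤ 2 * K * #D' := by
    have h1 : ∑ d ∈ D, ENF η (c * d) ≤ #D' * S + #D * (S / (2 * K)) := by
      rw [← sum_filter_add_sum_filter_not D (fun d => S ≤ 2 * K * ENF η (c * d))]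
      apply add_le_add
      · calc ∑ d ∈ D.filter (fun d => S ≤ 2 * K * ENF η (c * d)), ENF η (c * d)
            ≤ ∑ d ∈ D.filter (fun d => S ≤ 2 * K * ENF η (c * d)), S :=
              sum_le_sum fun d _ => hENFle _
          _ = #D' * S := by rw [sum_const, nsmul_eq_mul]
      · calc ∑ d ∈ D.filter (fun d => ¬ S ≤ 2 * K * ENF η (c * d)), ENF η (c * d)
            ≤ ∑ d ∈ D.filter (fun d => ¬ S ≤ 2 * K * ENF η (c * d)), S / (2 * K) := by
              refine sum_le_sum fun d hd => ?_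
              have h2 := not_le.mp (mem_filter.mp hd).2
              rw [le_div_iff₀ (by positivity)]
              linarith
          _ ≤ #D * (S / (2 * K)) := by
              rw [sum_const, nsmul_eq_mul]
              exact mul_le_mul_of_nonneg_right (by exact_mod_cast card_filter_le _ _)
                (by positivity)
    have h2 : (#D : ℝ) * S ≤ K * (#D' * S + #D * (S / (2 * K))) :=
      hmany.trans (mul_le_mul_of_nonneg_left h1 (by linarith))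
    have h3 : K * (#D' * S + #D * (S / (2 * K))) = (K * #D' + #D / 2) * S := by
      field_simp
    rw [h3] at h2
    have h4 := le_of_mul_le_mul_right h2 hS0
    linarith
  have hD'n : D'.Nonempty := by
    rw [nonempty_iff_ne_empty]
    intro h
    rw [h, card_empty, Nat.cast_zero, mul_zero] at hD'c
    linarith
  have hD'0 : (0 : ZMod p) ∉ D' := fun h => hD0 (mem_filter.mp h).1
  -- the level set
  obtain ⟨X, hX1, hX2⟩ := hTR p η K hK1 hη0 hη1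
  rw [← hS] at hX1
  have hX3 : ∀ d ∈ D', (#X : ℝ) ^ 3 ≤ 2 ^ 37 * K ^ 8 * EN X (c * d) ∧
      1 ≤ 2 ^ 22 * K ^ 5 * (#X * S) ^ 3 := by
    intro d hd
    have hd1 := mem_filter.mp hd
    refine hX2 (c * d) (mul_ne_zero hc0 fun h => hD0 (h ▸ hd1.1)) ?_
    rw [← hS]
    exact hd1.2
  obtain ⟨d₁, hd₁⟩ := hD'n
  have hX4 := (hX3 d₁ hd₁).2
  have hXn : X.Nonempty := by
    rw [nonempty_iff_ne_empty]
    intro h
    rw [h, card_empty, Nat.cast_zero, zero_mul] at hX4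
    norm_num at hX4
  have hXc : (0 : ℝ) < #X := by exact_mod_cast hXn.card_pos
  have hXlow : (#D : ℝ) ≤ 2 ^ 8 * K ^ 2 * #X := by
    have h1 : (1 : ℝ) ^ 3 ≤ (2 ^ 8 * K ^ 2 * (#X * S)) ^ 3 := by
      calc (1 : ℝ) ^ 3 = 1 := one_pow 3
        _ ≤ 2 ^ 22 * K ^ 5 * (#X * S) ^ 3 := hX4
        _ ≤ 2 ^ 24 * K ^ 6 * (#X * S) ^ 3 := by
            apply mul_le_mul_of_nonneg_right _ (by positivity)
            have h2 : K ^ 5 ≤ K ^ 6 := pow_le_pow_right₀ hK1 (by norm_num)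
            have h3 : (0 : ℝ) ≤ K ^ 5 := by positivity
            nlinarith
        _ = (2 ^ 8 * K ^ 2 * (#X * S)) ^ 3 := by ring
    have h2 : (1 : ℝ) ≤ 2 ^ 8 * K ^ 2 * (#X * S) := le_of_pow_le_pow_left₀ (by norm_num)
      (by positivity) h1
    have h3 : 2 ^ 8 * K ^ 2 * (#X * S) ≤ 2 ^ 8 * K ^ 2 * (#X * (1 / #D)) := by
      apply mul_le_mul_of_nonneg_left _ (by positivity)
      exact mul_le_mul_of_nonneg_left hSD hXc.le
    have h4 : (1 : ℝ) ≤ 2 ^ 8 * K ^ 2 * (#X * (1 / #D)) := h2.trans h3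
    have h5 : 2 ^ 8 * K ^ 2 * ((#X : ℝ) * (1 / #D)) = (2 ^ 8 * K ^ 2 * #X) / #D := by ring
    rw [h5, le_div_iff₀ hDc, one_mul] at h4
    exact h4
  -- packing
  have hK8 : (1 : ℝ) ≤ 2 ^ 37 * K ^ 8 := by
    have : (1 : ℝ) ≤ K ^ 8 := one_le_pow₀ hK1
    linarith
  obtain ⟨X₀, L, hX₀, hXX₀, hDL, hL⟩ := hPK p X D' c (2 ^ 37 * K ^ 8) hK8 hc0 hXn
    ⟨d₁, hd₁⟩ hD'0 (fun d hd => (hX3 d hd).1)
  set A : ℝ := C₁ * (2 ^ 37 * K ^ 8) ^ C₁ with hA
  have hX₀X : (#X₀ : ℝ) ≤ #X := by exact_mod_cast card_le_card hX₀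
  have hX₀c : (0 : ℝ) < #X₀ := by
    rcases Nat.eq_zero_or_pos (#X₀) with h | h
    · rw [h, Nat.cast_zero, mul_zero] at hXX₀
      linarith
    · exact_mod_cast h
  have hX₀n : X₀.Nonempty := card_pos.mp (by exact_mod_cast hX₀c)
  have hA0 : 0 ≤ A := by positivity
  have hA1 : 1 ≤ A := by
    by_contra h
    push Not at h
    have : A * #X₀ < 1 * #X₀ := mul_lt_mul_of_pos_right h hX₀c
    linarith
  have hAp : A ≤ (p : ℝ) ^ θ := by
    have e : A = T₁ * K ^ (8 * C₁) := by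
      rw [hA, hT₁, mul_pow, pow_mul K 8 C₁, mul_assoc]
    rw [e, ← hpθ]
    refine mul_le_mul hQ2 ?_ (by positivity) hpθ0.le
    apply hKpow
    push_cast
    linarith
  have h2K : 2 * K ≤ (p : ℝ) ^ θ := by
    rw [← hpθ]
    refine mul_le_mul (by linarith [hQ1, (by norm_num : (2 : ℝ) ≤ 2 ^ 8)]) ?_ (by linarith) hpθ0.le
    have := hKpow 1 (by push_cast; linarith)
    rwa [pow_one] at this
  have h8K : 2 ^ 8 * K ^ 2 ≤ (p : ℝ) ^ θ := by
    rw [← hpθ]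
    exact mul_le_mul hQ1 (hKpow 2 (by push_cast; linarith)) (by positivity) hpθ0.le
  have h32K : 32 * K ≤ (p : ℝ) ^ θ := by
    rw [← hpθ]
    refine mul_le_mul (by linarith [hQ1, (by norm_num : (32 : ℝ) ≤ 2 ^ 8)]) ?_ (by linarith)
      hpθ0.le
    have := hKpow 1 (by push_cast; linarith)
    rwa [pow_one] at this
  have hpθ1 : (0 : ℝ) < (p : ℝ) ^ θ := Real.rpow_pos_of_pos hp0 _
  -- `L` is large
  have hLbig : (p : ℝ) ^ (δ - 2 * θ) ≤ #L := by
    have h1 : (p : ℝ) ^ δ ≤ (p : ℝ) ^ (2 * θ) * #L := by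
      calc (p : ℝ) ^ δ ≤ #D := hDδ
        _ ≤ 2 * K * #D' := hD'c
        _ ≤ (p : ℝ) ^ θ * (A * #L) := mul_le_mul h2K hDL (Nat.cast_nonneg _) hpθ1.le
        _ ≤ (p : ℝ) ^ θ * ((p : ℝ) ^ θ * #L) :=
            mul_le_mul_of_nonneg_left (mul_le_mul_of_nonneg_right hAp (Nat.cast_nonneg _)) hpθ1.le
        _ = (p : ℝ) ^ (2 * θ) * #L := by
            rw [← mul_assoc, ← Real.rpow_add hp0]
            congr 2
            ring
    rw [Real.rpow_sub hp0, div_le_iff₀ (Real.rpow_pos_of_pos hp0 _), mul_comm]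
    exact h1
  have hθδ2 : 2 * θ ≤ δ / 2 := by
    have : 2 * θ ≤ (C₂ + 2) * θ := by nlinarith
    linarith
  have hLhalf : (p : ℝ) ^ (δ / 2) ≤ #L :=
    (Real.rpow_le_rpow_of_exponent_le hp1.le (by linarith)).trans hLbig
  have hL2 : 2 ≤ #L := by
    have h1 : (1 : ℝ) < (p : ℝ) ^ (δ / 2) := Real.one_lt_rpow hp1 (by positivity)
    have h2 : (1 : ℝ) < #L := lt_of_lt_of_le h1 hLhalf
    have h3 : 1 < #L := by exact_mod_cast h2
    omega
  have hLp : p < #L ^ 2 ^ m := by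
    have h1 : (p : ℝ) < (#L : ℝ) ^ 2 ^ m := by
      calc (p : ℝ) = (p : ℝ) ^ (1 : ℝ) := (Real.rpow_one _).symm
        _ < (p : ℝ) ^ (δ / 2 * (2 ^ m : ℕ)) := by
            apply Real.rpow_lt_rpow_of_exponent_lt hp1
            push_cast
            rw [div_lt_iff₀ hδ] at hm
            linarith
        _ = ((p : ℝ) ^ (δ / 2)) ^ 2 ^ m := by rw [Real.rpow_mul hp0.le, Real.rpow_natCast]
        _ ≤ (#L : ℝ) ^ 2 ^ m := pow_le_pow_left₀ (Real.rpow_pos_of_pos hp0 _).le hLhalf _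
    exact_mod_cast h1
  have hA2 : (C₂ : ℝ) * A ^ C₂ ≤ (p : ℝ) ^ ((C₂ + 1) * θ) := by
    calc (C₂ : ℝ) * A ^ C₂ ≤ (p : ℝ) ^ θ * ((p : ℝ) ^ θ) ^ C₂ := by
          refine mul_le_mul ?_ (pow_le_pow_left₀ hA0 hAp _) (by positivity) hpθ1.le
          exact hQ3.trans (Real.rpow_le_rpow_of_exponent_le hp1.le (by linarith))
      _ = (p : ℝ) ^ ((C₂ + 1) * θ) := by
          rw [← Real.rpow_natCast, ← Real.rpow_mul hp0.le, ← Real.rpow_add hp0]
          congr 1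
          ring
  rcases hPV p X₀ L A hA1 hX₀n hL2 hL hLp with h | h
  · -- `X₀` is small
    have h1 : (p : ℝ) ^ δ ≤ (p : ℝ) ^ ((C₂ + 3) * θ) := by
      calc (p : ℝ) ^ δ ≤ #D := hDδ
        _ ≤ 2 ^ 8 * K ^ 2 * #X := hXlow
        _ ≤ (p : ℝ) ^ θ * (A * #X₀) := mul_le_mul h8K hXX₀ hXc.le hpθ1.le
        _ ≤ (p : ℝ) ^ θ * ((p : ℝ) ^ θ * (p : ℝ) ^ ((C₂ + 1) * θ)) := by
            apply mul_le_mul_of_nonneg_left _ hpθ1.le
            exact mul_le_mul hAp (h.trans hA2) hX₀c.le hpθ1.le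
        _ = (p : ℝ) ^ ((C₂ + 3) * θ) := by
            rw [← Real.rpow_add hp0, ← Real.rpow_add hp0]
            congr 1
            ring
    have h2 := (Real.rpow_le_rpow_left_iff hp1).mp h1
    nlinarith
  · -- `X₀` is large
    have h1 : (p : ℝ) * S ≤ (p : ℝ) ^ ((C₂ + 2) * θ) := by
      calc (p : ℝ) * S ≤ C₂ * A ^ C₂ * #X₀ * S := mul_le_mul_of_nonneg_right h hS0.le
        _ ≤ (p : ℝ) ^ ((C₂ + 1) * θ) * #X * S := by
            apply mul_le_mul_of_nonneg_right _ hS0.le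
            exact mul_le_mul hA2 hX₀X hX₀c.le (Real.rpow_pos_of_pos hp0 _).le
        _ = (p : ℝ) ^ ((C₂ + 1) * θ) * (#X * S) := by ring
        _ ≤ (p : ℝ) ^ ((C₂ + 1) * θ) * (p : ℝ) ^ θ :=
            mul_le_mul_of_nonneg_left (hX1.trans h32K) (Real.rpow_pos_of_pos hp0 _).le
        _ = (p : ℝ) ^ ((C₂ + 2) * θ) := by
            rw [← Real.rpow_add hp0]
            congr 1
            ring
    rw [← hWS] at h1
    have h2 := (Real.rpow_lt_rpow_left_iff hp1).mp (lt_of_lt_of_le hWγ h1)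
    linarith

end MPcb27.SP
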