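import Pool.Agent.Lib.MP_cb27ba_nt.SP.Spec

section
/-!
# The graph lemma of Gowers (paths of length three)
-/
set_option autoImplicit false

namespace MPcb27.SP

open Finset

section

variable {α β : Type} [DecidableEq α] [DecidableEq β]

/-- double counting of the pairs of `G` with first entry in `S` -/
theorem gr_sum_comm (S : Finset α) (B : Finset β) (G : Finset (α × β)) :
    ∑ b ∈ B, #(S.filter fun a => (a, b) ∈ G) = ∑ a ∈ S, #(B.filter fun b => (a, b) ∈ G) := by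
  simp only [card_filter]
  rw [sum_comm]

theorem gr_main (A : Finset α) (B : Finset β) (G : Finset (α × β)) (K : ℝ) (hK : 1 ≤ K)
    (hG : G ⊆ A ×ˢ B) (hAB : (#A : ℝ) * #B ≤ K * #G) (hA : A.Nonempty) (hB : B.Nonempty) :
    ∃ (A' : Finset α) (B' : Finset β), A' ⊆ A ∧ B' ⊆ B ∧ (#A : ℝ) ≤ (4096 : ℕ) * K * #A' ∧
      (#B : ℝ) ≤ (4096 : ℕ) * K * #B' ∧ ∀ a ∈ A', ∀ b ∈ B',
        (#A : ℝ) * #B ≤ (4096 : ℕ) * K ^ 5 * #((A ×ˢ B).filter fun q =>
          (a, q.2) ∈ G ∧ (q.1, q.2) ∈ G ∧ (q.1, b) ∈ G) := by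
  classical
  have hK0 : 0 < K := by linarith
  have hA0 : (0 : ℝ) < #A := by exact_mod_cast hA.card_pos
  have hB0 : (0 : ℝ) < #B := by exact_mod_cast hB.card_pos
  set deg : α → ℕ := fun a => #(B.filter fun b => (a, b) ∈ G) with hdeg
  set A1 : Finset α := A.filter fun a => (#B : ℝ) ≤ 2 * K * deg a with hA1
  have hA1A : A1 ⊆ A := filter_subset _ _
  -- the number of edges
  have hGsum : (#G : ℝ) = ∑ a ∈ A, (deg a : ℝ) := by
    have h1 : #G = ∑ a ∈ A, deg a := by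
      rw [card_eq_sum_card_fiberwise (f := Prod.fst) (t := A)
        (fun x hx => (mem_product.mp (hG hx)).1)]
      refine sum_congr rfl fun a _ => ?_
      rw [hdeg]
      refine card_bij (fun x _ => x.2) ?_ ?_ ?_
      · rintro ⟨x, y⟩ hx
        simp only [mem_filter] at hx ⊢
        obtain ⟨hx1, rfl⟩ := hx
        exact ⟨(mem_product.mp (hG hx1)).2, hx1⟩
      · rintro ⟨x, y⟩ hx ⟨x', y'⟩ hx' h
        simp only [mem_filter] at hx hx'
        obtain ⟨_, rfl⟩ := hx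
        obtain ⟨_, h2⟩ := hx'
        simp only at h
        exact Prod.ext h2.symm h
      · intro b hb
        simp only [mem_filter] at hb
        exact ⟨(a, b), by simp only [mem_filter]; exact ⟨hb.2, trivial⟩, rfl⟩
    rw [h1]; push_cast; rfl
  have hE1 : (#A : ℝ) * #B ≤ 2 * K * ∑ a ∈ A1, (deg a : ℝ) := by
    have hsplit : ∑ a ∈ A, (deg a : ℝ) =
        ∑ a ∈ A1, (deg a : ℝ) + ∑ a ∈ A.filter (fun a => ¬ (#B : ℝ) ≤ 2 * K * deg a),
          (deg a : ℝ) := by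
      rw [hA1, sum_filter_add_sum_filter_not]
    have hsmall : 2 * K * ∑ a ∈ A.filter (fun a => ¬ (#B : ℝ) ≤ 2 * K * deg a), (deg a : ℝ) ≤
        #A * #B := by
      rw [mul_sum]
      calc ∑ a ∈ A.filter (fun a => ¬ (#B : ℝ) ≤ 2 * K * deg a), 2 * K * (deg a : ℝ)
          ≤ ∑ a ∈ A.filter (fun a => ¬ (#B : ℝ) ≤ 2 * K * deg a), (#B : ℝ) := by
            refine sum_le_sum fun a ha => ?_
            have := (mem_filter.mp ha).2
            linarith
        _ = #(A.filter (fun a => ¬ (#B : ℝ) ≤ 2 * K * deg a)) * #B := by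
            rw [sum_const, nsmul_eq_mul]
        _ ≤ #A * #B := by
            gcongr
            exact filter_subset _ _
    have h3 : 2 * K * (#G : ℝ) = 2 * K * ∑ a ∈ A1, (deg a : ℝ) +
        2 * K * ∑ a ∈ A.filter (fun a => ¬ (#B : ℝ) ≤ 2 * K * deg a), (deg a : ℝ) := by
      rw [hGsum, hsplit, mul_add]
    nlinarith
  -- neighbourhoods
  set N : β → Finset α := fun b => A1.filter fun a => (a, b) ∈ G with hN
  have hNsum : ∑ b ∈ B, (#(N b) : ℝ) = ∑ a ∈ A1, (deg a : ℝ) := by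
    have := gr_sum_comm A1 B G
    rw [hN, hdeg]
    exact_mod_cast this
  have hCS : (#A : ℝ) ^ 2 * #B ≤ 4 * K ^ 2 * ∑ b ∈ B, (#(N b) : ℝ) ^ 2 := by
    have h1 : (∑ b ∈ B, (#(N b) : ℝ)) ^ 2 ≤ #B * ∑ b ∈ B, (#(N b) : ℝ) ^ 2 :=
      sq_sum_le_card_mul_sum_sq
    have h2 : ((#A : ℝ) * #B) ^ 2 ≤ (2 * K * ∑ b ∈ B, (#(N b) : ℝ)) ^ 2 := by
      rw [hNsum]
      exact pow_le_pow_left₀ (by positivity) hE1 2
    have h3 : (#A : ℝ) ^ 2 * #B * #B ≤ 4 * K ^ 2 * (∑ b ∈ B, (#(N b) : ℝ) ^ 2) * #B := by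
      have : (2 * K * ∑ b ∈ B, (#(N b) : ℝ)) ^ 2 ≤
          4 * K ^ 2 * (#B * ∑ b ∈ B, (#(N b) : ℝ) ^ 2) := by
        have := mul_le_mul_of_nonneg_left h1 (show (0 : ℝ) ≤ 4 * K ^ 2 by positivity)
        calc (2 * K * ∑ b ∈ B, (#(N b) : ℝ)) ^ 2 = 4 * K ^ 2 * (∑ b ∈ B, (#(N b) : ℝ)) ^ 2 := by
              ring
          _ ≤ _ := this
      calc (#A : ℝ) ^ 2 * #B * #B = ((#A : ℝ) * #B) ^ 2 := by ring
        _ ≤ _ := h2
        _ ≤ _ := this
        _ = _ := by ring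
    exact le_of_mul_le_mul_right h3 hB0
  -- bad pairs
  set cod : α × α → ℕ := fun q => #(B.filter fun b => (q.1, b) ∈ G ∧ (q.2, b) ∈ G) with hcod
  set bad : α × α → Prop := fun q => 128 * K ^ 3 * (cod q : ℝ) < #B with hbad
  set bc : β → ℕ := fun b => #((N b ×ˢ N b).filter bad) with hbc
  have hbcsum : 128 * K ^ 3 * ∑ b ∈ B, (bc b : ℝ) ≤ (#A : ℝ) ^ 2 * #B := by
    have h1 : ∑ b ∈ B, bc b = ∑ q ∈ (A1 ×ˢ A1).filter bad, cod q := by
      have e1 : ∀ b ∈ B, bc b = #(((A1 ×ˢ A1).filter bad).filter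
          fun q => (q.1, b) ∈ G ∧ (q.2, b) ∈ G) := by
        intro b _
        have e2 : (N b ×ˢ N b).filter bad = ((A1 ×ˢ A1).filter bad).filter
            fun q => (q.1, b) ∈ G ∧ (q.2, b) ∈ G := by
          ext q
          simp only [mem_filter, mem_product, hN]
          tauto
        simp only [hbc, e2]
      rw [sum_congr rfl e1]
      simp only [card_filter, hcod]
      rw [sum_comm]
    have h2 : ∑ b ∈ B, (bc b : ℝ) = ∑ q ∈ (A1 ×ˢ A1).filter bad, (cod q : ℝ) := by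
      exact_mod_cast h1
    rw [h2, mul_sum]
    calc ∑ q ∈ (A1 ×ˢ A1).filter bad, 128 * K ^ 3 * (cod q : ℝ)
        ≤ ∑ q ∈ (A1 ×ˢ A1).filter bad, (#B : ℝ) := by
          refine sum_le_sum fun q hq => ?_
          exact le_of_lt (mem_filter.mp hq).2
      _ = #((A1 ×ˢ A1).filter bad) * #B := by rw [sum_const, nsmul_eq_mul]
      _ ≤ (#A : ℝ) ^ 2 * #B := by
          have : (#((A1 ×ˢ A1).filter bad) : ℝ) ≤ (#A : ℝ) ^ 2 := by
            have h := card_le_card ((filter_subset bad (A1 ×ˢ A1)).trans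
              (product_subset_product hA1A hA1A))
            rw [card_product] at h
            calc (#((A1 ×ˢ A1).filter bad) : ℝ) ≤ ((#A * #A : ℕ) : ℝ) := by exact_mod_cast h
              _ = _ := by push_cast; ring
          gcongr
  -- choice of the vertex
  obtain ⟨b0, hb0, hb0'⟩ : ∃ b ∈ B, (#A : ℝ) ^ 2 / (8 * K ^ 2) ≤
      (#(N b) : ℝ) ^ 2 - 16 * K * bc b := by
    refine exists_le_of_sum_le hB ?_
    rw [sum_const, nsmul_eq_mul, sum_sub_distrib, ← mul_sum]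
    have h1 : (#A : ℝ) ^ 2 * #B / (4 * K ^ 2) ≤ ∑ b ∈ B, (#(N b) : ℝ) ^ 2 := by
      rw [div_le_iff₀ (by positivity)]; linarith
    have h2 : 16 * K * ∑ b ∈ B, (bc b : ℝ) ≤ (#A : ℝ) ^ 2 * #B / (8 * K ^ 2) := by
      rw [le_div_iff₀ (by positivity)]
      calc (16 * K * ∑ b ∈ B, (bc b : ℝ)) * (8 * K ^ 2)
          = 128 * K ^ 3 * ∑ b ∈ B, (bc b : ℝ) := by ring
        _ ≤ _ := hbcsum
    have h3 : (#B : ℝ) * ((#A : ℝ) ^ 2 / (8 * K ^ 2)) =
        (#A : ℝ) ^ 2 * #B / (4 * K ^ 2) - (#A : ℝ) ^ 2 * #B / (8 * K ^ 2) := by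
      field_simp; ring
    rw [h3]; linarith
  set S : Finset α := N b0 with hS
  have hSA1 : S ⊆ A1 := filter_subset _ _
  have hbc0 : 16 * K * (bc b0 : ℝ) ≤ (#S : ℝ) ^ 2 := by
    have : 0 ≤ (#A : ℝ) ^ 2 / (8 * K ^ 2) := by positivity
    linarith
  have hSA : (#A : ℝ) ≤ 3 * K * #S := by
    have h1 : (#A : ℝ) ^ 2 ≤ (3 * K * #S) ^ 2 := by
      have h2 : (#A : ℝ) ^ 2 / (8 * K ^ 2) ≤ (#S : ℝ) ^ 2 := by
        have : 0 ≤ 16 * K * (bc b0 : ℝ) := by positivity
        linarith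
      rw [div_le_iff₀ (by positivity)] at h2
      nlinarith [sq_nonneg (K * (#S : ℝ))]
    exact le_of_sq_le_sq h1 (by positivity)
  have hS0 : (0 : ℝ) < #S := by
    by_contra h
    have : (#S : ℝ) = 0 := le_antisymm (not_lt.mp h) (by positivity)
    rw [this] at hSA
    linarith
  -- the set A'
  set nb : α → ℕ := fun a => #(S.filter fun a' => bad (a, a')) with hnb
  set A' : Finset α := S.filter fun a => 8 * K * (nb a : ℝ) ≤ #S with hA'
  have hbcS : bc b0 = ∑ a ∈ S, nb a := by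
    simp only [hbc, hnb, card_filter]
    rw [← hS, sum_product]
  have hA'card : (#S : ℝ) ≤ 2 * #A' := by
    have h1 : 8 * K * (bc b0 : ℝ) = ∑ a ∈ S, 8 * K * (nb a : ℝ) := by
      rw [hbcS]; push_cast; rw [mul_sum]
    have h2 : ∑ a ∈ S.filter (fun a => ¬ 8 * K * (nb a : ℝ) ≤ #S), (#S : ℝ) ≤
        ∑ a ∈ S, 8 * K * (nb a : ℝ) := by
      calc ∑ a ∈ S.filter (fun a => ¬ 8 * K * (nb a : ℝ) ≤ #S), (#S : ℝ)
          ≤ ∑ a ∈ S.filter (fun a => ¬ 8 * K * (nb a : ℝ) ≤ #S), 8 * K * (nb a : ℝ) :=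
            sum_le_sum fun a ha => le_of_lt (not_le.mp (mem_filter.mp ha).2)
        _ ≤ ∑ a ∈ S, 8 * K * (nb a : ℝ) :=
            sum_le_sum_of_subset_of_nonneg (filter_subset _ _) fun a _ _ => by positivity
    rw [sum_const, nsmul_eq_mul, ← h1] at h2
    have h3 : #A' + #(S.filter (fun a => ¬ 8 * K * (nb a : ℝ) ≤ #S)) = #S := by
      rw [hA']; exact card_filter_add_card_filter_not _
    have h3' : (#A' : ℝ) + #(S.filter (fun a => ¬ 8 * K * (nb a : ℝ) ≤ #S)) = #S := by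
      exact_mod_cast h3
    have h4 : (#(S.filter (fun a => ¬ 8 * K * (nb a : ℝ) ≤ #S)) : ℝ) * #S ≤ #S / 2 * #S := by
      nlinarith
    have h5 := le_of_mul_le_mul_right h4 hS0
    linarith
  -- the set B'
  set dS : β → ℕ := fun b => #(S.filter fun a => (a, b) ∈ G) with hdS
  set B' : Finset β := B.filter fun b => (#S : ℝ) ≤ 4 * K * dS b with hB'
  have hB'card : (#B : ℝ) ≤ 4 * K * #B' := by
    have h1 : (#S : ℝ) * #B ≤ 2 * K * ∑ b ∈ B, (dS b : ℝ) := by
      have e1 : ∑ b ∈ B, (dS b : ℝ) = ∑ a ∈ S, (deg a : ℝ) := by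
        have := gr_sum_comm S B G
        simp only [hdS, hdeg]
        exact_mod_cast this
      rw [e1, mul_sum, ← nsmul_eq_mul, ← sum_const]
      refine sum_le_sum fun a ha => ?_
      exact (mem_filter.mp (hSA1 ha)).2
    have h2 : ∑ b ∈ B, (dS b : ℝ) = ∑ b ∈ B', (dS b : ℝ) +
        ∑ b ∈ B.filter (fun b => ¬ (#S : ℝ) ≤ 4 * K * dS b), (dS b : ℝ) := by
      rw [hB', sum_filter_add_sum_filter_not]
    have h3 : ∑ b ∈ B', (dS b : ℝ) ≤ #B' * #S := by
      rw [← nsmul_eq_mul, ← sum_const]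
      refine sum_le_sum fun b _ => ?_
      exact_mod_cast card_le_card (filter_subset _ _)
    have h4 : 4 * K * ∑ b ∈ B.filter (fun b => ¬ (#S : ℝ) ≤ 4 * K * dS b), (dS b : ℝ) ≤
        #B * #S := by
      rw [mul_sum]
      calc ∑ b ∈ B.filter (fun b => ¬ (#S : ℝ) ≤ 4 * K * dS b), 4 * K * (dS b : ℝ)
          ≤ ∑ b ∈ B.filter (fun b => ¬ (#S : ℝ) ≤ 4 * K * dS b), (#S : ℝ) :=
            sum_le_sum fun b hb => le_of_lt (not_le.mp (mem_filter.mp hb).2)
        _ = #(B.filter (fun b => ¬ (#S : ℝ) ≤ 4 * K * dS b)) * #S := by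
            rw [sum_const, nsmul_eq_mul]
        _ ≤ #B * #S := by
            gcongr
            exact filter_subset _ _
    have h5 : (#B : ℝ) * #S ≤ 4 * K * #B' * #S := by
      have e1 : 2 * ((#S : ℝ) * #B) ≤ 4 * K * ∑ b ∈ B, (dS b : ℝ) := by linarith
      rw [h2, mul_add] at e1
      have e2 : 4 * K * ∑ b ∈ B', (dS b : ℝ) ≤ 4 * K * (#B' * #S) :=
        mul_le_mul_of_nonneg_left h3 (by positivity)
      nlinarith
    exact le_of_mul_le_mul_right h5 hS0
  refine ⟨A', B', (filter_subset _ _).trans (hSA1.trans hA1A), filter_subset _ _, ?_, ?_, ?_⟩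
  · have : (0 : ℝ) ≤ K * #A' := by positivity
    push_cast
    nlinarith
  · have : (0 : ℝ) ≤ K * #B' := by positivity
    push_cast
    nlinarith
  · intro a ha b hb
    -- the good middle vertices
    set M : Finset α := (S.filter fun a' => (a', b) ∈ G).filter fun a' => ¬ bad (a, a') with hM
    have hMcard : (#S : ℝ) ≤ 8 * K * #M := by
      have h1 : (#S : ℝ) ≤ 4 * K * dS b := (mem_filter.mp hb).2
      have h2 : 8 * K * (nb a : ℝ) ≤ #S := (mem_filter.mp ha).2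
      have h3 : dS b ≤ #M + nb a := by
        have e1 : #((S.filter fun a' => (a', b) ∈ G).filter fun a' => bad (a, a')) + #M = dS b := by
          simp only [hM, hdS]
          exact card_filter_add_card_filter_not _
        have e2 : #((S.filter fun a' => (a', b) ∈ G).filter fun a' => bad (a, a')) ≤ nb a := by
          refine card_le_card ?_
          intro x hx
          simp only [mem_filter] at hx ⊢
          exact ⟨hx.1.1, hx.2⟩
        omega
      have h3' : (dS b : ℝ) ≤ #M + nb a := by exact_mod_cast h3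
      have h4 : 4 * K * (dS b : ℝ) ≤ 4 * K * (#M + nb a) :=
        mul_le_mul_of_nonneg_left h3' (by positivity)
      nlinarith
    have hpaths : #B * (#M : ℝ) ≤ 128 * K ^ 3 * #((A ×ˢ B).filter fun q =>
          (a, q.2) ∈ G ∧ (q.1, q.2) ∈ G ∧ (q.1, b) ∈ G) := by
      have e1 : ∑ a' ∈ M, cod (a, a') ≤ #((A ×ˢ B).filter fun q =>
          (a, q.2) ∈ G ∧ (q.1, q.2) ∈ G ∧ (q.1, b) ∈ G) := by
        have e2 : ∑ a' ∈ M, cod (a, a') = #((M ×ˢ B).filter fun q =>
            (a, q.2) ∈ G ∧ (q.1, q.2) ∈ G) := by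
          simp only [hcod, card_filter]
          rw [sum_product]
        rw [e2]
        refine card_le_card ?_
        intro q hq
        simp only [mem_filter, mem_product, hM] at hq ⊢
        exact ⟨⟨hA1A (hSA1 hq.1.1.1.1), hq.1.2⟩, hq.2.1, hq.2.2, hq.1.1.1.2⟩
      have e3 : (#M : ℝ) * #B ≤ 128 * K ^ 3 * ∑ a' ∈ M, (cod (a, a') : ℝ) := by
        rw [mul_sum, ← nsmul_eq_mul, ← sum_const]
        refine sum_le_sum fun a' ha' => ?_
        exact not_lt.mp (mem_filter.mp ha').2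
      have e4 : (∑ a' ∈ M, (cod (a, a') : ℝ)) ≤ #((A ×ˢ B).filter fun q =>
          (a, q.2) ∈ G ∧ (q.1, q.2) ∈ G ∧ (q.1, b) ∈ G) := by exact_mod_cast e1
      calc #B * (#M : ℝ) = #M * #B := by ring
        _ ≤ _ := e3
        _ ≤ _ := mul_le_mul_of_nonneg_left e4 (by positivity)
    push_cast
    set T : ℝ := (#((A ×ˢ B).filter fun q =>
          (a, q.2) ∈ G ∧ (q.1, q.2) ∈ G ∧ (q.1, b) ∈ G) : ℝ) with hT
    have hT0 : 0 ≤ T := by rw [hT]; positivity
    calc (#A : ℝ) * #B ≤ (3 * K * #S) * #B := by gcongr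
      _ ≤ (3 * K * (8 * K * #M)) * #B := by gcongr
      _ = 24 * K ^ 2 * (#B * #M) := by ring
      _ ≤ 24 * K ^ 2 * (128 * K ^ 3 * T) := by gcongr
      _ = 3072 * (K ^ 5 * T) := by ring
      _ ≤ 4096 * (K ^ 5 * T) := by
          have : 0 ≤ K ^ 5 * T := by positivity
          linarith
      _ = 4096 * K ^ 5 * T := by ring

end

/-- GR: the graph lemma of Gowers (paths of length three). -/
theorem gr : SpecGR := by
  refine ⟨4096, fun α β _ _ A B G K hK hG hAB => ?_⟩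
  have hK0 : 0 < K := by linarith
  rcases A.eq_empty_or_nonempty with hA | hA
  · subst hA
    refine ⟨∅, B, subset_rfl, subset_rfl, by simp, ?_, fun a ha => absurd ha (notMem_empty a)⟩
    have : (0 : ℝ) ≤ #B := by positivity
    push_cast
    nlinarith
  rcases B.eq_empty_or_nonempty with hB | hB
  · subst hB
    refine ⟨A, ∅, subset_rfl, subset_rfl, ?_, by simp, fun a _ b hb => absurd hb (notMem_empty b)⟩
    have : (0 : ℝ) ≤ #A := by positivity
    push_cast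
    nlinarith
  exact gr_main A B G K hK hG hAB hA hB

end MPcb27.SP
end

section
/-!
# MP_cb27ba_nt, project SP: PIV, the pivot argument
-/
set_option autoImplicit false

namespace MPcb27.SP

open Finset
open scoped Pointwise NNRat

namespace PIV

variable {p : ℕ} [Fact p.Prime]

/-- `l` is a good multiplier of `X` -/
def In (X : Finset (ZMod p)) (K : ℝ) (l : ZMod p) : Prop := (#(X - dil l X) : ℝ) ≤ K * #X

theorem In.mono {X : Finset (ZMod p)} {K K' : ℝ} {l : ZMod p} (h : In X K l) (hK : K ≤ K') :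
    In X K' l := le_trans h (mul_le_mul_of_nonneg_right hK (Nat.cast_nonneg _))

theorem dil_zero {X : Finset (ZMod p)} (hX : X.Nonempty) : dil 0 X = {0} := by
  ext x
  simp only [dil, zero_mul, mem_image, mem_singleton]
  constructor
  · rintro ⟨_, _, h⟩; exact h.symm
  · rintro rfl
    obtain ⟨a, ha⟩ := hX
    exact ⟨a, ha, rfl⟩

theorem card_dil {l : ZMod p} (hl : l ≠ 0) (X : Finset (ZMod p)) : #(dil l X) = #X :=
  card_image_of_injective _ (mul_right_injective₀ hl)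

theorem dil_sub (l : ZMod p) (X Y : Finset (ZMod p)) : dil l (X - Y) = dil l X - dil l Y := by
  ext x
  simp only [dil, mem_image, mem_sub]
  constructor
  · rintro ⟨_, ⟨a, ha, b, hb, rfl⟩, rfl⟩
    exact ⟨l * a, ⟨a, ha, rfl⟩, l * b, ⟨b, hb, rfl⟩, by ring⟩
  · rintro ⟨_, ⟨a, ha, rfl⟩, _, ⟨b, hb, rfl⟩, rfl⟩
    exact ⟨a - b, ⟨a, ha, b, hb, rfl⟩, by ring⟩

theorem dil_dil (l m : ZMod p) (X : Finset (ZMod p)) : dil l (dil m X) = dil (l * m) X := by
  simp only [dil, image_image]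
  congr 1
  funext x
  simp [mul_assoc]

theorem in_zero {X : Finset (ZMod p)} (hX : X.Nonempty) {K : ℝ} (hK : 1 ≤ K) : In X K 0 := by
  rw [In, dil_zero hX]
  have : #(X - {0}) ≤ #X := (card_sub_le).trans (by simp)
  have h : (#(X - {0}) : ℝ) ≤ #X := by exact_mod_cast this
  have h0 : (0 : ℝ) ≤ #X := Nat.cast_nonneg _
  nlinarith

/-- real form of Ruzsa's triangle inequality -/
theorem tri (A B C : Finset (ZMod p)) : (#(A - C) : ℝ) * #B ≤ #(A - B) * #(C - B) := by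
  exact_mod_cast ruzsa_triangle_inequality_sub_sub_sub A B C

theorem card_sub_comm (A B : Finset (ZMod p)) : #(A - B) = #(B - A) := by
  rw [← neg_sub, card_neg]

theorem in_mul {X : Finset (ZMod p)} (hX : X.Nonempty) {K : ℝ} (hK : 1 ≤ K) {l m : ZMod p}
    (h1 : In X K l) (h2 : In X K m) : In X (K ^ 2) (l * m) := by
  have hX0 : (0 : ℝ) < #X := by exact_mod_cast hX.card_pos
  by_cases hl : l = 0
  · rw [hl, zero_mul]; exact in_zero hX (one_le_pow₀ hK)
  have h := tri X (dil l X) (dil (l * m) X)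
  rw [card_dil hl] at h
  have e1 : #(dil (l * m) X - dil l X) = #(X - dil m X) := by
    rw [← dil_dil, ← dil_sub, card_dil hl, card_sub_comm]
  rw [e1] at h
  rw [In] at h1 h2 ⊢
  have h3 : (#(X - dil (l * m) X) : ℝ) * #X ≤ (K ^ 2 * #X) * #X := by
    calc (#(X - dil (l * m) X) : ℝ) * #X ≤ #(X - dil l X) * #(X - dil m X) := h
      _ ≤ (K * #X) * (K * #X) := mul_le_mul h1 h2 (Nat.cast_nonneg _) (by positivity)
      _ = _ := by ring
  exact le_of_mul_le_mul_right h3 hX0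

theorem in_div {X : Finset (ZMod p)} (hX : X.Nonempty) {K : ℝ} (hK : 1 ≤ K) {l m : ZMod p}
    (h1 : In X K l) (h2 : In X K m) (hm : m ≠ 0) : In X (K ^ 2) (l / m) := by
  have hX0 : (0 : ℝ) < #X := by exact_mod_cast hX.card_pos
  have h := tri (dil m X) X (dil l X)
  have e1 : #(dil m X - dil l X) = #(X - dil (l / m) X) := by
    have : dil l X = dil m (dil (l / m) X) := by
      rw [dil_dil]
      congr 1
      field_simp
    rw [this, ← dil_sub, card_dil hm]
  rw [e1, card_sub_comm (dil m X) X, card_sub_comm (dil l X) X] at h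
  rw [In] at h1 h2 ⊢
  have h3 : (#(X - dil (l / m) X) : ℝ) * #X ≤ (K ^ 2 * #X) * #X := by
    calc (#(X - dil (l / m) X) : ℝ) * #X ≤ #(X - dil m X) * #(X - dil l X) := h
      _ ≤ (K * #X) * (K * #X) := mul_le_mul h2 h1 (Nat.cast_nonneg _) (by positivity)
      _ = _ := by ring
  exact le_of_mul_le_mul_right h3 hX0

theorem self_sub {X : Finset (ZMod p)} (hX : X.Nonempty) {K : ℝ} (hK : 1 ≤ K) {l : ZMod p}
    (hl : l ≠ 0) (h1 : In X K l) : (#(X - X) : ℝ) ≤ K ^ 2 * #X := by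
  have hX0 : (0 : ℝ) < #X := by exact_mod_cast hX.card_pos
  have h := tri X (dil l X) X
  rw [card_dil hl] at h
  rw [In] at h1
  have h3 : (#(X - X) : ℝ) * #X ≤ (K ^ 2 * #X) * #X := by
    calc (#(X - X) : ℝ) * #X ≤ #(X - dil l X) * #(X - dil l X) := h
      _ ≤ (K * #X) * (K * #X) := mul_le_mul h1 h1 (Nat.cast_nonneg _) (by positivity)
      _ = _ := by ring
  exact le_of_mul_le_mul_right h3 hX0

/-- Plünnecke for `Y = X ∪ l X ∪ m X` -/
theorem plu {X : Finset (ZMod p)} (hX : X.Nonempty) {K : ℝ} (hK : 1 ≤ K) {l m : ZMod p}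
    (h0 : (#(X - X) : ℝ) ≤ K ^ 2 * #X) (h1 : In X K l) (h2 : In X K m) (i j : ℕ)
    (hij : i + j = 3) :
    (#(i • (X ∪ (dil l X ∪ dil m X)) - j • (X ∪ (dil l X ∪ dil m X))) : ℝ) ≤ 27 * K ^ 6 * #X := by
  obtain ⟨Y, hY⟩ : ∃ Y : Finset (ZMod p), Y = X ∪ (dil l X ∪ dil m X) := ⟨_, rfl⟩
  rw [← hY]
  have hX0 : (0 : ℝ) < #X := by exact_mod_cast hX.card_pos
  have h3 : (#(X - Y) : ℝ) ≤ 3 * K ^ 2 * #X := by
    have h4 : X - Y ⊆ (X - X) ∪ ((X - dil l X) ∪ (X - dil m X)) := by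
      rw [hY, sub_union, sub_union]
    have h5 : #(X - Y) ≤ #(X - X) + (#(X - dil l X) + #(X - dil m X)) :=
      (card_le_card h4).trans ((card_union_le _ _).trans
        (Nat.add_le_add_left (card_union_le _ _) _))
    have h6 : (#(X - Y) : ℝ) ≤ #(X - X) + (#(X - dil l X) + #(X - dil m X)) := by
      exact_mod_cast h5
    rw [In] at h1 h2
    have h7 : K * #X ≤ K ^ 2 * #X := mul_le_mul_of_nonneg_right (by nlinarith) hX0.le
    linarith
  have h8 := pluennecke_ruzsa_inequality_nsmul_sub_nsmul_sub hX Y i j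
  have h9 : (#(i • Y - j • Y) : ℝ) ≤ ((#(X - Y) : ℝ) / #X) ^ (i + j) * #X := by
    have h := (NNRat.cast_le (K := ℝ)).mpr h8
    push_cast at h
    exact h
  refine h9.trans ?_
  rw [hij]
  have h10 : (#(X - Y) : ℝ) / #X ≤ 3 * K ^ 2 := by
    rw [div_le_iff₀ hX0]
    exact h3
  have h11 : ((#(X - Y) : ℝ) / #X) ^ 3 ≤ (3 * K ^ 2) ^ 3 :=
    pow_le_pow_left₀ (by positivity) h10 3
  calc ((#(X - Y) : ℝ) / #X) ^ 3 * #X ≤ (3 * K ^ 2) ^ 3 * #X :=
        mul_le_mul_of_nonneg_right h11 hX0.le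
    _ = 27 * K ^ 6 * #X := by ring

theorem in_add {X : Finset (ZMod p)} (hX : X.Nonempty) {K : ℝ} (hK : 1 ≤ K) {l m : ZMod p}
    (h0 : (#(X - X) : ℝ) ≤ K ^ 2 * #X) (h1 : In X K l) (h2 : In X K m) :
    In X (27 * K ^ 6) (l + m) := by
  rw [In]
  refine le_trans ?_ (plu hX hK h0 h1 h2 1 2 rfl)
  have h : X - dil (l + m) X ⊆
      1 • (X ∪ (dil l X ∪ dil m X)) - 2 • (X ∪ (dil l X ∪ dil m X)) := by
    intro x hx
    rw [one_nsmul, two_nsmul]
    simp only [dil, mem_sub, mem_image] at hx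
    obtain ⟨a, ha, _, ⟨b, hb, rfl⟩, rfl⟩ := hx
    rw [mem_sub]
    refine ⟨a, mem_union_left _ ha, l * b + m * b, ?_, by ring⟩
    exact add_mem_add (mem_union_right _ (mem_union_left _ (mem_image_of_mem _ hb)))
      (mem_union_right _ (mem_union_right _ (mem_image_of_mem _ hb)))
  exact_mod_cast card_le_card h

theorem in_sub {X : Finset (ZMod p)} (hX : X.Nonempty) {K : ℝ} (hK : 1 ≤ K) {l m : ZMod p}
    (h0 : (#(X - X) : ℝ) ≤ K ^ 2 * #X) (h1 : In X K l) (h2 : In X K m) :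
    In X (27 * K ^ 6) (l - m) := by
  rw [In]
  refine le_trans ?_ (plu hX hK h0 h1 h2 2 1 rfl)
  have h : X - dil (l - m) X ⊆
      2 • (X ∪ (dil l X ∪ dil m X)) - 1 • (X ∪ (dil l X ∪ dil m X)) := by
    intro x hx
    rw [one_nsmul, two_nsmul]
    simp only [dil, mem_sub, mem_image] at hx
    obtain ⟨a, ha, _, ⟨b, hb, rfl⟩, rfl⟩ := hx
    rw [mem_sub]
    refine ⟨a + m * b, ?_, l * b, ?_, by ring⟩
    · exact add_mem_add (mem_union_left _ ha)
        (mem_union_right _ (mem_union_right _ (mem_image_of_mem _ hb)))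
    · exact mem_union_right _ (mem_union_left _ (mem_image_of_mem _ hb))
  exact_mod_cast card_le_card h

/-- all quotients of differences -/
def Q (A : Finset (ZMod p)) (r : ZMod p) : Prop :=
  ∃ a ∈ A, ∃ b ∈ A, ∃ c ∈ A, ∃ d ∈ A, c ≠ d ∧ r * (c - d) = a - b

theorem pivot (A : Finset (ZMod p)) (hA : 2 ≤ #A) (hQ : ¬ ∀ r, Q A r) :
    ∃ r, Q A r ∧ ¬ Q A (r + 1) := by
  by_contra hcon
  push Not at hcon
  apply hQ
  have h0 : Q A 0 := by
    obtain ⟨a, ha, b, hb, hab⟩ := one_lt_card.1 (by omega : 1 < #A)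
    exact ⟨a, ha, a, ha, a, ha, b, hb, hab, by ring⟩
  have hn : ∀ n : ℕ, Q A (n : ZMod p) := by
    intro n
    induction n with
    | zero => simpa using h0
    | succ n ih => push_cast; exact hcon _ ih
  intro r
  rw [← ZMod.natCast_zmod_val r]
  exact hn _

/-- one step -/
theorem step {X A : Finset (ZMod p)} (hX : X.Nonempty) {K : ℝ} (hK : 1 ≤ K)
    (h0 : (#(X - X) : ℝ) ≤ K ^ 2 * #X) (hA : 2 ≤ #A) (hin : ∀ l ∈ A, In X K l) :
    (∀ r, Q A r) ∨ ∃ A' : Finset (ZMod p), #A' = #A ^ 2 ∧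
      ∀ l ∈ A', In X (27 ^ 85 * K ^ 432) l := by
  by_cases hQ : ∀ r, Q A r
  · exact Or.inl hQ
  refine Or.inr ?_
  obtain ⟨r, ⟨a, ha, b, hb, c, hc, d, hd, hcd, hr⟩, hr1⟩ := pivot A hA hQ
  have hcd0 : c - d ≠ 0 := sub_ne_zero.2 hcd
  have hs : (r + 1) * (c - d) = a - b + (c - d) := by rw [add_mul, hr, one_mul]
  refine ⟨(A ×ˢ A).image fun q => (c - d) * q.1 + (a - b + (c - d)) * q.2, ?_, ?_⟩
  · rw [card_image_of_injOn, card_product, sq]
    intro x hx y hy hxy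
    rw [mem_coe, mem_product] at hx hy
    have hxy' : (c - d) * x.1 + (a - b + (c - d)) * x.2 =
        (c - d) * y.1 + (a - b + (c - d)) * y.2 := hxy
    have h2 : x.2 = y.2 := by
      by_contra hne
      apply hr1
      refine ⟨x.1, hx.1, y.1, hy.1, y.2, hy.2, x.2, hx.2, fun h => hne h.symm, ?_⟩
      have h3 : (c - d) * ((r + 1) * (y.2 - x.2)) = (c - d) * (x.1 - y.1) := by
        linear_combination (y.2 - x.2) * hs - hxy'
      exact mul_left_cancel₀ hcd0 h3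
    have h1 : x.1 = y.1 := by
      rw [h2] at hxy'
      exact mul_left_cancel₀ hcd0 (add_right_cancel hxy')
    exact Prod.ext h1 h2
  · intro l hl
    rw [mem_image] at hl
    obtain ⟨q, hq, rfl⟩ := hl
    rw [mem_product] at hq
    obtain ⟨K1, hK1⟩ : ∃ x : ℝ, x = 27 * K ^ 6 := ⟨_, rfl⟩
    have hK1K : K ≤ K1 := by
      rw [hK1]
      calc K = K ^ 1 := (pow_one _).symm
        _ ≤ K ^ 6 := pow_le_pow_right₀ hK (by norm_num)
        _ ≤ 27 * K ^ 6 := by nlinarith [pow_nonneg (zero_le_one.trans hK) 6]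
    have hK11 : 1 ≤ K1 := hK.trans hK1K
    have mono0 : ∀ {K' : ℝ}, K ≤ K' → (#(X - X) : ℝ) ≤ K' ^ 2 * #X := by
      intro K' hK'
      refine h0.trans (mul_le_mul_of_nonneg_right ?_ (Nat.cast_nonneg _))
      exact pow_le_pow_left₀ (by linarith) hK' 2
    have i1 : In X K1 (c - d) := by rw [hK1]; exact in_sub hX hK h0 (hin c hc) (hin d hd)
    have i2 : In X K1 (a - b) := by rw [hK1]; exact in_sub hX hK h0 (hin a ha) (hin b hb)
    have i3 : In X (27 * K1 ^ 6) (a - b + (c - d)) := in_add hX hK11 (mono0 hK1K) i2 i1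
    obtain ⟨K3, hK3⟩ : ∃ x : ℝ, x = 27 * K1 ^ 6 := ⟨_, rfl⟩
    have hK31 : K1 ≤ K3 := by
      rw [hK3]
      calc K1 = K1 ^ 1 := (pow_one _).symm
        _ ≤ K1 ^ 6 := pow_le_pow_right₀ hK11 (by norm_num)
        _ ≤ 27 * K1 ^ 6 := by nlinarith [pow_nonneg (zero_le_one.trans hK11) 6]
    rw [← hK3] at i3
    have hK3K : K ≤ K3 := hK1K.trans hK31
    have hK31' : 1 ≤ K3 := hK.trans hK3K
    have i4 : In X (K3 ^ 2) ((c - d) * q.1) :=
      in_mul hX hK31' (i1.mono hK31) ((hin _ hq.1).mono hK3K)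
    have i5 : In X (K3 ^ 2) ((a - b + (c - d)) * q.2) :=
      in_mul hX hK31' i3 ((hin _ hq.2).mono hK3K)
    have hK3sq : K3 ≤ K3 ^ 2 := by nlinarith
    have i6 := in_add hX (one_le_pow₀ hK31' : 1 ≤ K3 ^ 2) (mono0 (hK3K.trans hK3sq)) i4 i5
    have e : 27 * (K3 ^ 2) ^ 6 = 27 ^ 85 * K ^ 432 := by
      rw [hK3, hK1]
      ring
    rw [e] at i6
    exact i6

/-- everything is a good multiplier -/
theorem all_in (m : ℕ) : ∃ C : ℕ, 1 ≤ C ∧ ∀ (p : ℕ) [Fact p.Prime] (X A : Finset (ZMod p)) (K : ℝ),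
    1 ≤ K → X.Nonempty → 2 ≤ #A → (#(X - X) : ℝ) ≤ K ^ 2 * #X → (∀ l ∈ A, In X K l) →
    p < #A ^ 2 ^ m → ∀ r : ZMod p, In X (C * K ^ C) r := by
  induction m with
  | zero =>
    refine ⟨1, le_rfl, ?_⟩
    intro p _ X A K _ _ _ _ _ hp
    exfalso
    rw [_root_.pow_zero, pow_one] at hp
    have h1 : #A ≤ #(univ : Finset (ZMod p)) := card_le_card (subset_univ _)
    rw [card_univ, ZMod.card] at h1
    omega
  | succ m ih =>
    obtain ⟨C, hC1, hC⟩ := ih
    obtain ⟨G, hG⟩ : ∃ G : ℕ, G = 27 ^ 85 := ⟨_, rfl⟩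
    have hGR : (27 : ℝ) ^ 85 = (G : ℝ) := by rw [hG, Nat.cast_pow]; norm_num
    have hG1 : (1 : ℝ) ≤ (G : ℝ) := by rw [← hGR]; exact one_le_pow₀ (by norm_num)
    refine ⟨C * G ^ C + 432 * C + 729, by omega, ?_⟩
    intro p _ X A K hK hX hA h0 hin hp r
    have hKn : ∀ {i j : ℕ}, i ≤ j → K ^ i ≤ K ^ j := fun h => pow_le_pow_right₀ hK h
    rcases step hX hK h0 hA hin with hQ | ⟨A', hA', hin'⟩
    · obtain ⟨a, ha, b, hb, c, hc, d, hd, hcd, hr⟩ := hQ r
      have hcd0 : c - d ≠ 0 := sub_ne_zero.2 hcd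
      have i1 := in_sub hX hK h0 (hin a ha) (hin b hb)
      have i2 := in_sub hX hK h0 (hin c hc) (hin d hd)
      have hK6 : 1 ≤ K ^ 6 := one_le_pow₀ hK
      have i3 := in_div hX (by nlinarith : 1 ≤ 27 * K ^ 6) i1 i2 hcd0
      have e : (a - b) / (c - d) = r := by
        rw [← hr]
        field_simp
      rw [e] at i3
      refine i3.mono ?_
      have e2 : (27 * K ^ 6) ^ 2 = 729 * K ^ 12 := by ring
      rw [e2]
      refine mul_le_mul ?_ (hKn (by omega)) (by positivity) (by positivity)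
      push_cast
      have : (0 : ℝ) ≤ (C : ℝ) * (G : ℝ) ^ C + 432 * C := by positivity
      linarith
    · rw [hGR] at hin'
      have hKg : K ≤ G * K ^ 432 := by
        calc K = 1 * K ^ 1 := by ring
          _ ≤ G * K ^ 432 :=
            mul_le_mul hG1 (hKn (by norm_num)) (by positivity) (by positivity)
      have hKg1 : 1 ≤ G * K ^ 432 := hK.trans hKg
      have hres := hC p X A' (G * K ^ 432) hKg1 hX (by rw [hA']; nlinarith) ?_ hin' ?_ r
      · refine hres.mono ?_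
        rw [mul_pow, ← pow_mul, ← mul_assoc]
        refine mul_le_mul ?_ (hKn ?_) (by positivity) (by positivity)
        · push_cast
          have : (0 : ℝ) ≤ 432 * (C : ℝ) + 729 := by positivity
          linarith
        · omega
      · refine h0.trans (mul_le_mul_of_nonneg_right ?_ (Nat.cast_nonneg _))
        exact pow_le_pow_left₀ (by linarith) hKg 2
      · rw [hA', ← pow_mul]
        have : 2 * 2 ^ m = 2 ^ (m + 1) := by rw [pow_succ]; ring
        rw [this]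
        exact hp

/-- Cauchy-Schwarz -/
theorem en_lower (X : Finset (ZMod p)) (l : ZMod p) :
    (#X : ℝ) ^ 4 ≤ #(X - dil l X) * EN X l := by
  have h1 : (#X : ℝ) ^ 2 = ∑ s ∈ X - dil l X, (#((X ×ˢ X).filter fun q => q.1 - l * q.2 = s) : ℝ) := by
    have h2 : #(X ×ˢ X) = ∑ s ∈ X - dil l X, #((X ×ˢ X).filter fun q => q.1 - l * q.2 = s) := by
      refine card_eq_sum_card_fiberwise ?_
      intro q hq
      rw [mem_coe, mem_product] at hq
      exact sub_mem_sub hq.1 (mem_image_of_mem _ hq.2)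
    rw [card_product] at h2
    rw [sq]
    exact_mod_cast h2
  have h3 : (EN X l : ℝ) =
      ∑ s ∈ X - dil l X, (#((X ×ˢ X).filter fun q => q.1 - l * q.2 = s) : ℝ) ^ 2 := by
    have h4 : EN X l = ∑ s ∈ X - dil l X, #((X ×ˢ X).filter fun q => q.1 - l * q.2 = s) ^ 2 := by
      rw [EN, card_eq_sum_card_fiberwise (f := fun q => q.1.1 - l * q.2.1) (t := X - dil l X)]
      · refine sum_congr rfl fun s _ => ?_
        rw [sq, ← card_product]
        refine card_bij (fun q _ => ((q.1.1, q.2.1), (q.1.2, q.2.2))) ?_ ?_ ?_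
        · intro q hq
          simp only [mem_filter, mem_product] at hq ⊢
          obtain ⟨⟨⟨⟨h5, h6⟩, h7, h8⟩, h9⟩, h10⟩ := hq
          exact ⟨⟨⟨h5, h7⟩, h10⟩, ⟨h6, h8⟩, by rw [← h10]; linear_combination -h9⟩
        · intro q _ q' _ h
          simp only [Prod.mk.injEq] at h
          exact Prod.ext (Prod.ext h.1.1 h.2.1) (Prod.ext h.1.2 h.2.2)
        · intro q hq
          simp only [mem_filter, mem_product] at hq
          obtain ⟨⟨⟨h5, h6⟩, h7⟩, ⟨h8, h9⟩, h10⟩ := hq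
          refine ⟨((q.1.1, q.2.1), (q.1.2, q.2.2)), ?_, rfl⟩
          simp only [mem_filter, mem_product]
          exact ⟨⟨⟨⟨h5, h8⟩, h6, h9⟩, by linear_combination h7 - h10⟩, h7⟩
      · intro q hq
        simp only [coe_filter, mem_product, Set.mem_ofPred_eq] at hq
        exact sub_mem_sub hq.1.1.1 (mem_image_of_mem _ hq.1.2.1)
    rw [h4]
    push_cast
    rfl
  have h5 := sq_sum_le_card_mul_sum_sq (s := X - dil l X)
    (f := fun s => (#((X ×ˢ X).filter fun q => q.1 - l * q.2 = s) : ℝ))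
  rw [← h1, ← h3] at h5
  calc (#X : ℝ) ^ 4 = ((#X : ℝ) ^ 2) ^ 2 := by ring
    _ ≤ _ := h5

theorem en_upper (X : Finset (ZMod p)) : (∑ l : ZMod p, EN X l) ≤ #X ^ 4 + p * #X ^ 2 := by
  have h1 : ∑ l : ZMod p, EN X l ≤
      #(((X ×ˢ X) ×ˢ (X ×ˢ X)) ∪ ∅) + #((univ : Finset (ZMod p)) ×ˢ (X ×ˢ X)) := by
    have h2 : ∑ l : ZMod p, EN X l =
        #((univ : Finset (ZMod p)).sigma fun l => ((X ×ˢ X) ×ˢ (X ×ˢ X)).filter fun q =>
          q.1.1 - q.1.2 = l * (q.2.1 - q.2.2)) := by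
      rw [card_sigma]
      rfl
    rw [h2]
    have h3 := card_filter_add_card_filter_not (s := (univ : Finset (ZMod p)).sigma fun l =>
      ((X ×ˢ X) ×ˢ (X ×ˢ X)).filter fun q => q.1.1 - q.1.2 = l * (q.2.1 - q.2.2))
      (fun x => x.2.2.1 ≠ x.2.2.2)
    rw [← h3]
    refine Nat.add_le_add ?_ ?_
    · refine card_le_card_of_injOn (fun x => x.2) ?_ ?_
      · intro x hx
        simp only [coe_filter, mem_sigma, mem_filter, Set.mem_ofPred_eq] at hx
        simp only [union_empty, mem_coe]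
        exact hx.1.2.1
      · intro x hx y hy hxy
        simp only [coe_filter, mem_sigma, mem_filter, Set.mem_ofPred_eq] at hx hy
        have hxy' : x.2 = y.2 := hxy
        have h4 := hx.1.2.2
        have h5 := hy.1.2.2
        rw [← hxy'] at h5
        have h6 : x.1 = y.1 := by
          have h7 : x.1 * (x.2.2.1 - x.2.2.2) = y.1 * (x.2.2.1 - x.2.2.2) := h4.symm.trans h5
          exact mul_right_cancel₀ (sub_ne_zero.2 hx.2) h7
        exact Sigma.ext h6 (heq_of_eq hxy')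
    · refine card_le_card_of_injOn (fun x => (x.1, (x.2.1.1, x.2.2.1))) ?_ ?_
      · intro x hx
        simp only [coe_filter, mem_sigma, mem_filter, mem_product, Set.mem_ofPred_eq] at hx
        simp only [coe_product, Set.mem_prod, mem_coe]
        exact ⟨mem_univ _, hx.1.2.1.1.1, hx.1.2.1.2.1⟩
      · intro x hx y hy hxy
        simp only [coe_filter, mem_sigma, mem_filter, mem_product, Set.mem_ofPred_eq, ne_eq,
          not_not] at hx hy
        simp only [Prod.mk.injEq] at hxy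
        obtain ⟨h4, h5, h6⟩ := hxy
        have e1 : x.2.2.2 = y.2.2.2 := by rw [← hx.2, ← hy.2]; exact h6
        have e2 : x.2.1.2 = y.2.1.2 := by
          have e3 := hx.1.2.2
          have e4 := hy.1.2.2
          rw [hx.2, sub_self, mul_zero, sub_eq_zero] at e3
          rw [hy.2, sub_self, mul_zero, sub_eq_zero] at e4
          rw [← e3, ← e4]
          exact h5
        exact Sigma.ext h4 (heq_of_eq (Prod.ext (Prod.ext h5 e2) (Prod.ext h6 e1)))
  refine h1.trans (le_of_eq ?_)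
  rw [union_empty, card_product, card_product, card_product, card_product, card_univ, ZMod.card]
  ring

end PIV

open PIV in
theorem specPIV : SpecPIV := by
  intro m
  obtain ⟨C, hC1, hC⟩ := all_in m
  refine ⟨2 * C, ?_⟩
  intro p _ X L K hK hX hL hin hp
  have hX0 : (0 : ℝ) < #X := by exact_mod_cast hX.card_pos
  have hp0 : (0 : ℝ) < p := by exact_mod_cast (Fact.out : p.Prime).pos
  obtain ⟨l, hl, hl0⟩ : ∃ l ∈ L, l ≠ 0 := by
    by_contra hcon
    push Not at hcon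
    have : L ⊆ {0} := fun x hx => mem_singleton.2 (hcon x hx)
    have := card_le_card this
    rw [card_singleton] at this
    omega
  have h0 := self_sub hX hK hl0 (hin l hl)
  have hall := hC p X L K hK hX hL h0 hin hp
  obtain ⟨M, hM⟩ : ∃ M : ℝ, M = C * K ^ C := ⟨_, rfl⟩
  have hM0 : 0 ≤ M := by rw [hM]; positivity
  -- `p #X ≤ M (#X ^ 2 + p)`
  have h1 : ∀ r : ZMod p, (#X : ℝ) ^ 3 ≤ M * EN X r := by
    intro r
    have h2 : (#(X - dil r X) : ℝ) ≤ M * #X := by rw [hM]; exact hall r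
    have h3 := en_lower X r
    have h4 : (#X : ℝ) ^ 3 * #X ≤ (M * EN X r) * #X := by
      calc (#X : ℝ) ^ 3 * #X = (#X : ℝ) ^ 4 := by ring
        _ ≤ (#(X - dil r X) : ℝ) * EN X r := h3
        _ ≤ (M * #X) * EN X r := mul_le_mul_of_nonneg_right h2 (Nat.cast_nonneg _)
        _ = _ := by ring
    exact le_of_mul_le_mul_right h4 hX0
  have h5 : (p : ℝ) * (#X : ℝ) ^ 3 ≤ M * ((#X : ℝ) ^ 4 + p * (#X : ℝ) ^ 2) := by
    have h6 : ∑ _r : ZMod p, (#X : ℝ) ^ 3 ≤ ∑ r : ZMod p, M * EN X r :=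
      sum_le_sum fun r _ => h1 r
    rw [sum_const, card_univ, ZMod.card, nsmul_eq_mul, ← mul_sum] at h6
    refine h6.trans (mul_le_mul_of_nonneg_left ?_ hM0)
    have := en_upper X
    exact_mod_cast this
  have h7 : (p : ℝ) * #X ≤ M * ((#X : ℝ) ^ 2 + p) := by
    have h8 : (#X : ℝ) ^ 2 * (p * #X) ≤ (#X : ℝ) ^ 2 * (M * ((#X : ℝ) ^ 2 + p)) := by
      calc (#X : ℝ) ^ 2 * (p * #X) = (p : ℝ) * (#X : ℝ) ^ 3 := by ring
        _ ≤ _ := h5
        _ = _ := by ring
    exact le_of_mul_le_mul_left h8 (by positivity)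
  -- the two cases
  have hmono : M ≤ C * K ^ (2 * C) := by
    rw [hM]
    exact mul_le_mul_of_nonneg_left (pow_le_pow_right₀ hK (by omega)) (Nat.cast_nonneg _)
  have h2M : 2 * M ≤ ((2 * C : ℕ) : ℝ) * K ^ (2 * C) := by
    push_cast
    linarith
  rcases le_total ((#X : ℝ) ^ 2) p with h | h
  · left
    have h9 : (#X : ℝ) * p ≤ (2 * M) * p := by nlinarith
    exact (le_of_mul_le_mul_right h9 hp0).trans h2M
  · right
    have h9 : (p : ℝ) * #X ≤ (2 * M * #X) * #X := by nlinarith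
    have h10 := le_of_mul_le_mul_right h9 hX0
    exact h10.trans (mul_le_mul_of_nonneg_right h2M hX0.le)

end MPcb27.SP
end
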