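import Pool.Agent.Lib.MP_cb27ba_nt.SP.Spec

/-!
# MP_cb27ba_nt, SP: TRUNC (one level set for all dilations)
-/

set_option autoImplicit false

namespace MPcb27.SP

open Finset
open scoped Pointwise
open MPcb27.TU MPcb27.TW

namespace TRUNC

variable {p : ℕ} [Fact p.Prime]

/-- the four-linear form -/
noncomputable def F (l : ZMod p) (f₁ f₂ f₃ f₄ : ZMod p → ℝ) : ℝ :=
  ∑ a, ∑ b, ∑ b', f₁ a * f₂ (a - l * (b - b')) * f₃ b * f₄ b'

theorem F_swap (l : ZMod p) (f₁ f₂ f₃ f₄ : ZMod p → ℝ) :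
    F l f₁ f₂ f₃ f₄ = F l f₂ f₁ f₄ f₃ := by
  unfold F
  have h1 : ∑ a, ∑ b, ∑ b', f₁ a * f₂ (a - l * (b - b')) * f₃ b * f₄ b' =
      ∑ b, ∑ b', ∑ a, f₁ a * f₂ (a - l * (b - b')) * f₃ b * f₄ b' := by
    rw [sum_comm]
    exact sum_congr rfl fun b _ => sum_comm
  have h2 : ∑ a, ∑ b, ∑ b', f₂ a * f₁ (a - l * (b - b')) * f₄ b * f₃ b' =
      ∑ b', ∑ b, ∑ a, f₂ a * f₁ (a - l * (b - b')) * f₄ b * f₃ b' := by
    rw [sum_comm]
    rw [sum_congr rfl fun b _ => sum_comm]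
    exact sum_comm
  rw [h1, h2]
  refine sum_congr rfl fun b _ => sum_congr rfl fun b' _ => ?_
  refine Fintype.sum_equiv (Equiv.subRight (l * (b - b'))) _ _ fun a => ?_
  rw [Equiv.subRight_apply]
  have : a - l * (b - b') - l * (b' - b) = a := by ring
  rw [this]
  ring

theorem F_dual {l : ZMod p} (hl : l ≠ 0) (f₁ f₂ f₃ f₄ : ZMod p → ℝ) :
    F l f₁ f₂ f₃ f₄ = F l⁻¹ f₃ f₄ f₁ f₂ := by
  unfold F
  rw [sum_comm]
  refine sum_congr rfl fun b _ => sum_congr rfl fun a _ => ?_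
  -- `b' ↦ a' = a - l (b - b')`
  refine Fintype.sum_equiv ⟨fun b' => a - l * (b - b'), fun a' => b - l⁻¹ * (a - a'), ?_, ?_⟩
    _ _ fun b' => ?_
  · intro b'
    field_simp
    ring
  · intro a'
    field_simp
    ring
  · simp only [Equiv.coe_fn_mk]
    have : b - l⁻¹ * (a - (a - l * (b - b'))) = b' := by
      field_simp
      ring
    rw [this]
    ring

theorem F_mono (l : ZMod p) {f₁ f₂ f₃ f₄ g₁ g₂ g₃ g₄ : ZMod p → ℝ}
    (h1 : ∀ x, 0 ≤ f₁ x) (h2 : ∀ x, 0 ≤ f₂ x) (h3 : ∀ x, 0 ≤ f₃ x) (h4 : ∀ x, 0 ≤ f₄ x)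
    (k1 : ∀ x, f₁ x ≤ g₁ x) (k2 : ∀ x, f₂ x ≤ g₂ x) (k3 : ∀ x, f₃ x ≤ g₃ x)
    (k4 : ∀ x, f₄ x ≤ g₄ x) : F l f₁ f₂ f₃ f₄ ≤ F l g₁ g₂ g₃ g₄ := by
  unfold F
  refine sum_le_sum fun a _ => sum_le_sum fun b _ => sum_le_sum fun b' _ => ?_
  have e1 := (h1 a).trans (k1 a)
  have e2 := (h2 (a - l * (b - b'))).trans (k2 _)
  have e3 := (h3 b).trans (k3 b)
  refine mul_le_mul (mul_le_mul (mul_le_mul (k1 _) (k2 _) (h2 _) e1) (k3 _) (h3 _) ?_) (k4 _)
    (h4 _) ?_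
  · positivity
  · positivity

theorem F_add1 (l : ZMod p) (f g f₂ f₃ f₄ : ZMod p → ℝ) :
    F l (fun x => f x + g x) f₂ f₃ f₄ = F l f f₂ f₃ f₄ + F l g f₂ f₃ f₄ := by
  unfold F
  simp only [add_mul, sum_add_distrib]

/-- the first function is small -/
theorem F_small (l : ZMod p) {f₁ f₂ f₃ f₄ : ZMod p → ℝ} {t : ℝ}
    (h2 : ∀ x, 0 ≤ f₂ x) (h3 : ∀ x, 0 ≤ f₃ x) (h4 : ∀ x, 0 ≤ f₄ x) (ht : 0 ≤ t)
    (k1 : ∀ x, f₁ x ≤ t) (s2 : ∑ x, f₂ x ≤ 1) (s3 : ∑ x, f₃ x ≤ 1) (s4 : ∑ x, f₄ x ≤ 1) :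
    F l f₁ f₂ f₃ f₄ ≤ t := by
  have h0 : F l f₁ f₂ f₃ f₄ ≤ ∑ a, ∑ b, ∑ b', t * f₂ (a - l * (b - b')) * f₃ b * f₄ b' := by
    unfold F
    refine sum_le_sum fun a _ => sum_le_sum fun b _ => sum_le_sum fun b' _ => ?_
    exact mul_le_mul_of_nonneg_right (mul_le_mul_of_nonneg_right
      (mul_le_mul_of_nonneg_right (k1 a) (h2 _)) (h3 _)) (h4 _)
  refine h0.trans ?_
  have h1 : ∑ a, ∑ b, ∑ b', t * f₂ (a - l * (b - b')) * f₃ b * f₄ b' =
      t * (∑ x, f₂ x) * (∑ b, f₃ b) * ∑ b', f₄ b' := by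
    rw [sum_comm]
    rw [sum_congr rfl fun b _ => sum_comm]
    have e1 : ∀ b b' : ZMod p, ∑ a, t * f₂ (a - l * (b - b')) * f₃ b * f₄ b' =
        t * (∑ x, f₂ x) * (f₃ b * f₄ b') := by
      intro b b'
      rw [← Fintype.sum_equiv (Equiv.subRight (l * (b - b'))) (fun a => f₂ (a - l * (b - b')))
        f₂ (fun a => by rw [Equiv.subRight_apply]), mul_sum, sum_mul]
      exact sum_congr rfl fun a _ => by ring
    rw [sum_congr rfl fun b _ => sum_congr rfl fun b' _ => e1 b b']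
    simp only [← mul_sum, ← sum_mul]
    ring
  rw [h1]
  have n2 : 0 ≤ ∑ x, f₂ x := sum_nonneg fun x _ => h2 x
  have n3 : 0 ≤ ∑ x, f₃ x := sum_nonneg fun x _ => h3 x
  have n4 : 0 ≤ ∑ x, f₄ x := sum_nonneg fun x _ => h4 x
  calc t * (∑ x, f₂ x) * (∑ b, f₃ b) * ∑ b', f₄ b' ≤ t * 1 * 1 * 1 := by gcongr
    _ = t := by ring

/-- the first function has small mass -/
theorem F_mass {l : ZMod p} (hl : l ≠ 0) {f₁ f₂ f₃ f₄ : ZMod p → ℝ} {S : ℝ}
    (h1 : ∀ x, 0 ≤ f₁ x) (h4 : ∀ x, 0 ≤ f₄ x)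
    (q2 : ∑ x, f₂ x ^ 2 ≤ S) (q3 : ∑ x, f₃ x ^ 2 ≤ S) (s4 : ∑ x, f₄ x ≤ 1) :
    F l f₁ f₂ f₃ f₄ ≤ (∑ x, f₁ x) * S := by
  have hS : 0 ≤ S := (sum_nonneg fun x _ => sq_nonneg (f₂ x)).trans q2
  have key : ∀ a b' : ZMod p, ∑ b, f₂ (a - l * (b - b')) * f₃ b ≤ S := by
    intro a b'
    have e1 : ∑ b, f₂ (a - l * (b - b')) ^ 2 = ∑ x, f₂ x ^ 2 := by
      refine Fintype.sum_equiv ⟨fun b => a - l * (b - b'), fun x => b' + l⁻¹ * (a - x), ?_, ?_⟩
        _ _ fun b => rfl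
      · intro b
        field_simp
        ring
      · intro x
        field_simp
        ring
    have e2 : ∀ b, f₂ (a - l * (b - b')) * f₃ b ≤
        (f₂ (a - l * (b - b')) ^ 2 + f₃ b ^ 2) / 2 := by
      intro b
      nlinarith [sq_nonneg (f₂ (a - l * (b - b')) - f₃ b)]
    refine (sum_le_sum fun b _ => e2 b).trans ?_
    rw [← sum_div, sum_add_distrib, e1]
    linarith
  have h0 : F l f₁ f₂ f₃ f₄ = ∑ a, f₁ a * ∑ b', f₄ b' * ∑ b, f₂ (a - l * (b - b')) * f₃ b := by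
    unfold F
    refine sum_congr rfl fun a _ => ?_
    rw [mul_sum, sum_comm]
    refine sum_congr rfl fun b' _ => ?_
    rw [mul_sum, mul_sum]
    exact sum_congr rfl fun b _ => by ring
  rw [h0, sum_mul]
  refine sum_le_sum fun a _ => mul_le_mul_of_nonneg_left ?_ (h1 a)
  calc ∑ b', f₄ b' * ∑ b, f₂ (a - l * (b - b')) * f₃ b ≤ ∑ b', f₄ b' * S :=
        sum_le_sum fun b' _ => mul_le_mul_of_nonneg_left (key a b') (h4 b')
    _ = (∑ b', f₄ b') * S := by rw [sum_mul]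
    _ ≤ 1 * S := mul_le_mul_of_nonneg_right s4 hS
    _ = S := one_mul S

/-- the first function is the sum of a small one and of one of small mass -/
theorem F_rest {l : ZMod p} (hl : l ≠ 0) {lo hi f₂ f₃ f₄ : ZMod p → ℝ} {S t : ℝ}
    (hhi : ∀ x, 0 ≤ hi x) (klo : ∀ x, lo x ≤ t) (ht : 0 ≤ t) (hm : (∑ x, hi x) * S ≤ t)
    (h2 : ∀ x, 0 ≤ f₂ x) (h3 : ∀ x, 0 ≤ f₃ x) (h4 : ∀ x, 0 ≤ f₄ x)
    (s2 : ∑ x, f₂ x ≤ 1) (s3 : ∑ x, f₃ x ≤ 1) (s4 : ∑ x, f₄ x ≤ 1)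
    (q2 : ∑ x, f₂ x ^ 2 ≤ S) (q3 : ∑ x, f₃ x ^ 2 ≤ S) :
    F l (fun x => lo x + hi x) f₂ f₃ f₄ ≤ 2 * t := by
  rw [F_add1]
  have e1 := F_small l h2 h3 h4 ht klo s2 s3 s4
  have e2 := (F_mass hl hhi h4 q2 q3 s4).trans hm
  linarith

theorem telescope {l : ZMod p} (hl : l ≠ 0) {η mid lo hi : ZMod p → ℝ} {S t : ℝ}
    (hη : ∀ x, η x = mid x + (lo x + hi x))
    (hη0 : ∀ x, 0 ≤ η x) (hm0 : ∀ x, 0 ≤ mid x)
    (hmη : ∀ x, mid x ≤ η x) (s1 : ∑ x, η x ≤ 1) (q1 : ∑ x, η x ^ 2 ≤ S)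
    (hhi : ∀ x, 0 ≤ hi x) (klo : ∀ x, lo x ≤ t) (ht : 0 ≤ t) (hm : (∑ x, hi x) * S ≤ t) :
    F l η η η η ≤ F l mid mid mid mid + 8 * t := by
  have s1' : ∑ x, mid x ≤ 1 := (sum_le_sum fun x _ => hmη x).trans s1
  have q1' : ∑ x, mid x ^ 2 ≤ S :=
    (sum_le_sum fun x _ => pow_le_pow_left₀ (hm0 x) (hmη x) 2).trans q1
  have hη' : η = fun x => mid x + (lo x + hi x) := funext hη
  have hl' : l⁻¹ ≠ 0 := inv_ne_zero hl
  -- position 1
  have step1 : F l η η η η ≤ F l mid η η η + 2 * t := by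
    have e1 : F l η η η η = F l mid η η η + F l (fun x => lo x + hi x) η η η := by
      conv_lhs => rw [show F l η η η η = F l (fun x => mid x + (lo x + hi x)) η η η by
        rw [← hη']]
      exact F_add1 l _ _ _ _ _
    rw [e1]
    have := F_rest hl hhi klo ht hm hη0 hη0 hη0 s1 s1 s1 q1 q1
    linarith
  -- position 2
  have step2 : F l mid η η η ≤ F l mid mid η η + 2 * t := by
    rw [F_swap l mid η η η, F_swap l mid mid η η]
    have e1 : F l η mid η η = F l mid mid η η + F l (fun x => lo x + hi x) mid η η := by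
      conv_lhs => rw [show F l η mid η η = F l (fun x => mid x + (lo x + hi x)) mid η η by
        rw [← hη']]
      exact F_add1 l _ _ _ _ _
    rw [e1]
    have := F_rest hl hhi klo ht hm hm0 hη0 hη0 s1' s1 s1 q1' q1
    linarith
  -- position 3
  have step3 : F l mid mid η η ≤ F l mid mid mid η + 2 * t := by
    rw [F_dual hl mid mid η η, F_dual hl mid mid mid η]
    have e1 : F l⁻¹ η η mid mid = F l⁻¹ mid η mid mid +
        F l⁻¹ (fun x => lo x + hi x) η mid mid := by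
      conv_lhs => rw [show F l⁻¹ η η mid mid = F l⁻¹ (fun x => mid x + (lo x + hi x)) η mid mid by
        rw [← hη']]
      exact F_add1 l⁻¹ _ _ _ _ _
    rw [e1]
    have := F_rest hl' hhi klo ht hm hη0 hm0 hm0 s1 s1' s1' q1 q1'
    linarith
  -- position 4
  have step4 : F l mid mid mid η ≤ F l mid mid mid mid + 2 * t := by
    rw [F_dual hl mid mid mid η, F_swap l⁻¹ mid η mid mid, F_dual hl mid mid mid mid]
    have e1 : F l⁻¹ η mid mid mid = F l⁻¹ mid mid mid mid +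
        F l⁻¹ (fun x => lo x + hi x) mid mid mid := by
      conv_lhs => rw [show F l⁻¹ η mid mid mid =
        F l⁻¹ (fun x => mid x + (lo x + hi x)) mid mid mid by rw [← hη']]
      exact F_add1 l⁻¹ _ _ _ _ _
    rw [e1]
    have := F_rest hl' hhi klo ht hm hm0 hm0 hm0 s1' s1' s1' q1' q1'
    linarith
  linarith

theorem F_level (l : ZMod p) (X : Finset (ZMod p)) {mid : ZMod p → ℝ} {T : ℝ} (_hT : 0 ≤ T)
    (h0 : ∀ x, 0 ≤ mid x) (h1 : ∀ x ∉ X, mid x = 0) (h2 : ∀ x, mid x ≤ T) :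
    F l mid mid mid mid ≤ T ^ 4 * EN X l := by
  classical
  set ι : ZMod p → ℝ := fun x => if x ∈ X then 1 else 0 with hι
  have k : ∀ x, mid x ≤ T * ι x := by
    intro x
    rw [hι]
    simp only
    split_ifs with h
    · rw [mul_one]; exact h2 x
    · rw [mul_zero, h1 x h]
  have e1 := F_mono l h0 h0 h0 h0 k k k k
  refine e1.trans (le_of_eq ?_)
  have e2 : F l (fun x => T * ι x) (fun x => T * ι x) (fun x => T * ι x) (fun x => T * ι x) =
      T ^ 4 * F l ι ι ι ι := by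
    unfold F
    rw [mul_sum]
    refine sum_congr rfl fun a _ => ?_
    rw [mul_sum]
    refine sum_congr rfl fun b _ => ?_
    rw [mul_sum]
    exact sum_congr rfl fun b' _ => by ring
  rw [e2]
  congr 1
  -- `F ι ι ι ι` counts
  have e3 : F l ι ι ι ι = ∑ q : ZMod p × ZMod p × ZMod p,
      if q.1 ∈ X ∧ q.1 - l * (q.2.1 - q.2.2) ∈ X ∧ q.2.1 ∈ X ∧ q.2.2 ∈ X then (1 : ℝ) else 0 := by
    rw [Fintype.sum_prod_type]
    unfold F
    refine sum_congr rfl fun a _ => ?_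
    rw [Fintype.sum_prod_type]
    refine sum_congr rfl fun b _ => sum_congr rfl fun b' _ => ?_
    rw [hι]
    simp only
    by_cases c1 : a ∈ X
    · by_cases c2 : a - l * (b - b') ∈ X
      · by_cases c3 : b ∈ X
        · by_cases c4 : b' ∈ X
          · simp [c1, c2, c3, c4]
          · simp [c4]
        · simp [c3]
      · simp [c2]
    · simp [c1]
  rw [e3, sum_boole]
  unfold EN
  congr 1
  refine card_bij (fun q _ => ((q.1, q.1 - l * (q.2.1 - q.2.2)), (q.2.1, q.2.2))) ?_ ?_ ?_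
  · rintro ⟨a, b, b'⟩ hq
    simp only [mem_filter, mem_univ, true_and] at hq
    simp only [mem_filter, mem_product]
    refine ⟨⟨⟨hq.1, hq.2.1⟩, hq.2.2.1, hq.2.2.2⟩, ?_⟩
    ring
  · rintro ⟨a, b, b'⟩ _ ⟨c, d, d'⟩ _ h
    simp only [Prod.mk.injEq] at h ⊢
    exact ⟨h.1.1, h.2.1, h.2.2⟩
  · rintro ⟨⟨a, a'⟩, b, b'⟩ hq
    simp only [mem_filter, mem_product] at hq
    refine ⟨(a, b, b'), ?_, ?_⟩
    · simp only [mem_filter, mem_univ, true_and]
      have : a - l * (b - b') = a' := by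
        rw [← hq.2]; ring
      rw [this]
      exact ⟨hq.1.1.1, hq.1.1.2, hq.1.2.1, hq.1.2.2⟩
    · simp only [Prod.mk.injEq, true_and, and_true]
      rw [← hq.2]; ring

theorem EN_le (X : Finset (ZMod p)) (l : ZMod p) : (EN X l : ℝ) ≤ (#X : ℝ) ^ 3 := by
  have h : EN X l ≤ #(X ×ˢ X ×ˢ X) := by
    unfold EN
    refine card_le_card_of_injOn (fun q => (q.1.1, q.2.1, q.2.2)) ?_ ?_
    · rintro ⟨⟨a, a'⟩, b, b'⟩ hq
      simp only [coe_filter, Set.mem_ofPred_eq, mem_product] at hq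
      simp only [coe_product, Set.mem_prod, mem_coe]
      exact ⟨hq.1.1.1, hq.1.2.1, hq.1.2.2⟩
    · rintro ⟨⟨a, a'⟩, b, b'⟩ hq ⟨⟨c, c'⟩, d, d'⟩ hq' h
      simp only [coe_filter, Set.mem_ofPred_eq, mem_product] at hq hq'
      simp only [Prod.mk.injEq] at h ⊢
      obtain ⟨rfl, rfl, rfl⟩ := h
      refine ⟨⟨rfl, ?_⟩, rfl, rfl⟩
      have := hq.2.trans hq'.2.symm
      exact sub_right_injective this
  rw [card_product, card_product] at h
  calc (EN X l : ℝ) ≤ ((#X * (#X * #X) : ℕ) : ℝ) := by exact_mod_cast h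
    _ = _ := by push_cast; ring

end TRUNC

open TRUNC

theorem specTRUNC : SpecTRUNC := by
  classical
  intro p _ η K hK hη hη1
  set S : ℝ := ∑ x, η x ^ 2 with hS
  have hK0 : 0 < K := by linarith
  have hS0 : 0 < S := by
    have h0 : ∃ x, η x ≠ 0 := by
      by_contra hcon
      push Not at hcon
      rw [sum_eq_zero fun x _ => hcon x] at hη1
      exact zero_ne_one hη1
    obtain ⟨x, hx⟩ := h0
    exact sum_pos' (fun y _ => sq_nonneg _) ⟨x, mem_univ x, by positivity⟩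
  set t : ℝ := S / (32 * K) with ht
  set T : ℝ := 32 * K * S with hT
  have ht0 : 0 < t := by positivity
  have hT0 : 0 < T := by positivity
  set X : Finset (ZMod p) := univ.filter (fun x => t < η x ∧ η x ≤ T) with hX
  have hXS : (#X : ℝ) * S ≤ 32 * K := by
    have h1 : (#X : ℝ) * t ≤ 1 := by
      calc (#X : ℝ) * t = ∑ _x ∈ X, t := by rw [sum_const, nsmul_eq_mul]
        _ ≤ ∑ x ∈ X, η x := sum_le_sum fun x hx => (mem_filter.mp hx).2.1.le
        _ ≤ ∑ x, η x := sum_le_sum_of_subset_of_nonneg (subset_univ _) fun x _ _ => hη x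
        _ = 1 := hη1
    have h2 : (#X : ℝ) * S = (#X : ℝ) * t * (32 * K) := by
      rw [ht]
      field_simp
    rw [h2]
    calc (#X : ℝ) * t * (32 * K) ≤ 1 * (32 * K) := mul_le_mul_of_nonneg_right h1 (by positivity)
      _ = 32 * K := one_mul _
  refine ⟨X, hXS, fun l hl hE => ?_⟩
  set mid : ZMod p → ℝ := fun x => if t < η x ∧ η x ≤ T then η x else 0 with hmid
  set lo : ZMod p → ℝ := fun x => if η x ≤ t then η x else 0 with hlo
  set hi : ZMod p → ℝ := fun x => if t < η x ∧ T < η x then η x else 0 with hhi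
  have hsum : ∀ x, η x = mid x + (lo x + hi x) := by
    intro x
    simp only [hmid, hlo, hhi]
    rcases le_or_gt (η x) t with h1 | h1
    · rw [if_neg fun h => absurd h.1 (not_lt.mpr h1), if_pos h1,
        if_neg fun h => absurd h.1 (not_lt.mpr h1)]
      ring
    · rcases le_or_gt (η x) T with h2 | h2
      · rw [if_pos ⟨h1, h2⟩, if_neg (not_le.mpr h1), if_neg fun h => absurd h.2 (not_lt.mpr h2)]
        ring
      · rw [if_neg fun h => absurd h.2 (not_le.mpr h2), if_neg (not_le.mpr h1), if_pos ⟨h1, h2⟩]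
        ring
  have hm0 : ∀ x, 0 ≤ mid x := by
    intro x
    simp only [hmid]
    split_ifs
    · exact hη x
    · exact le_rfl
  have hmη : ∀ x, mid x ≤ η x := by
    intro x
    simp only [hmid]
    split_ifs
    · exact le_rfl
    · exact hη x
  have hhi0 : ∀ x, 0 ≤ hi x := by
    intro x
    simp only [hhi]
    split_ifs
    · exact hη x
    · exact le_rfl
  have hlot : ∀ x, lo x ≤ t := by
    intro x
    simp only [hlo]
    split_ifs with h
    · exact h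
    · exact ht0.le
  have hmass : (∑ x, hi x) * S ≤ t := by
    have h1 : T * ∑ x, hi x ≤ S := by
      rw [mul_sum]
      refine sum_le_sum fun x _ => ?_
      simp only [hhi]
      split_ifs with h
      · rw [sq]
        exact mul_le_mul_of_nonneg_right h.2.le (hη x)
      · rw [mul_zero]
        positivity
    have h2 : (∑ x, hi x) * S = (T * ∑ x, hi x) / (32 * K) := by
      rw [hT]
      field_simp
    rw [h2, ht]
    exact div_le_div_of_nonneg_right h1 (by positivity)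
  have htel := telescope hl hsum hη hm0 hmη hη1.le le_rfl hhi0 hlot ht0.le hmass
  have hENF : ENF η l = F l η η η η := rfl
  have hlev := F_level l X hT0.le hm0 (fun x hx => by
    simp only [hmid]
    rw [if_neg]
    intro hc
    exact hx (mem_filter.mpr ⟨mem_univ _, hc⟩)) (fun x => by
    simp only [hmid]
    split_ifs with h
    · exact h.2
    · exact hT0.le)
  -- lower bound for the energy
  have h1 : S / (4 * K) ≤ T ^ 4 * EN X l := by
    have h2 : S / (2 * K) ≤ ENF η l := by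
      rw [div_le_iff₀ (by positivity)]
      linarith
    rw [hENF] at h2
    have h3 : 8 * t = S / (4 * K) := by
      rw [ht]
      field_simp
      ring
    have h4 : S / (2 * K) = S / (4 * K) + S / (4 * K) := by
      field_simp
      ring
    linarith
  have h2 : 1 ≤ 2 ^ 22 * K ^ 5 * S ^ 3 * EN X l := by
    rw [div_le_iff₀ (by positivity)] at h1
    have h3 : T ^ 4 * EN X l * (4 * K) = S * (2 ^ 22 * K ^ 5 * S ^ 3 * EN X l) := by
      rw [hT]
      ring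
    rw [h3] at h1
    have h4 : S * 1 ≤ S * (2 ^ 22 * K ^ 5 * S ^ 3 * EN X l) := by linarith
    exact le_of_mul_le_mul_left h4 hS0
  have hX0 : (0 : ℝ) ≤ #X := Nat.cast_nonneg _
  have hEN0 : (0 : ℝ) ≤ EN X l := Nat.cast_nonneg _
  constructor
  · have h3 : ((#X : ℝ) * S) ^ 3 ≤ (32 * K) ^ 3 := pow_le_pow_left₀ (mul_nonneg hX0 hS0.le) hXS 3
    have h4 : (#X : ℝ) ^ 3 * 1 ≤ (#X : ℝ) ^ 3 * (2 ^ 22 * K ^ 5 * S ^ 3 * EN X l) :=
      mul_le_mul_of_nonneg_left h2 (pow_nonneg hX0 3)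
    calc (#X : ℝ) ^ 3 = (#X : ℝ) ^ 3 * 1 := (mul_one _).symm
      _ ≤ (#X : ℝ) ^ 3 * (2 ^ 22 * K ^ 5 * S ^ 3 * EN X l) := h4
      _ = ((#X : ℝ) * S) ^ 3 * (2 ^ 22 * K ^ 5 * EN X l) := by ring
      _ ≤ (32 * K) ^ 3 * (2 ^ 22 * K ^ 5 * EN X l) := mul_le_mul_of_nonneg_right h3 (by positivity)
      _ = 2 ^ 37 * K ^ 8 * EN X l := by ring
  · calc (1 : ℝ) ≤ 2 ^ 22 * K ^ 5 * S ^ 3 * EN X l := h2
      _ ≤ 2 ^ 22 * K ^ 5 * S ^ 3 * (#X : ℝ) ^ 3 :=
        mul_le_mul_of_nonneg_left (EN_le X l) (by positivity)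
      _ = 2 ^ 22 * K ^ 5 * (#X * S) ^ 3 := by ring

end MPcb27.SP
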