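import Pool.Agent.Lib.MP_cb27ba_nt.SP.Spec

/-!
# MP_cb27ba_nt, project SP: UNIF (one set for many multipliers)
-/

set_option autoImplicit false

namespace MPcb27.SP

open Finset
open scoped Pointwise

namespace UNIFM

lemma card_dil {p : ℕ} [Fact p.Prime] {l : ZMod p} (hl : l ≠ 0) (X : Finset (ZMod p)) :
    #(dil l X) = #X := by
  unfold dil
  exact card_image_of_injective _ fun a b h => mul_left_cancel₀ hl h

lemma dil_add {p : ℕ} (l : ZMod p) (X Y : Finset (ZMod p)) :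
    dil l (X + Y) = dil l X + dil l Y := by
  unfold dil
  ext z
  simp only [mem_image, mem_add]
  constructor
  · rintro ⟨_, ⟨a, ha, b, hb, rfl⟩, rfl⟩
    exact ⟨l * a, ⟨a, ha, rfl⟩, l * b, ⟨b, hb, rfl⟩, by ring⟩
  · rintro ⟨_, ⟨a, ha, rfl⟩, _, ⟨b, hb, rfl⟩, rfl⟩
    exact ⟨a + b, ⟨a, ha, b, hb, rfl⟩, by ring⟩

lemma dil_sub {p : ℕ} (l : ZMod p) (X Y : Finset (ZMod p)) :
    dil l (X - Y) = dil l X - dil l Y := by
  unfold dil
  ext z
  simp only [mem_image, mem_sub]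
  constructor
  · rintro ⟨_, ⟨a, ha, b, hb, rfl⟩, rfl⟩
    exact ⟨l * a, ⟨a, ha, rfl⟩, l * b, ⟨b, hb, rfl⟩, by ring⟩
  · rintro ⟨_, ⟨a, ha, rfl⟩, _, ⟨b, hb, rfl⟩, rfl⟩
    exact ⟨a - b, ⟨a, ha, b, hb, rfl⟩, by ring⟩

lemma dil_dil {p : ℕ} (l m : ZMod p) (X : Finset (ZMod p)) :
    dil l (dil m X) = dil (l * m) X := by
  unfold dil
  rw [image_image]
  refine image_congr fun x _ => ?_
  simp only [Function.comp]
  ring

lemma dil_mono {p : ℕ} (l : ZMod p) {X Y : Finset (ZMod p)} (h : X ⊆ Y) :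
    dil l X ⊆ dil l Y := image_subset_image h

/-- many pairs of large subsets meet in large sets -/
lemma popular {α ι : Type} [DecidableEq α] (D : Finset ι) (hD : D.Nonempty)
    (Y : Finset α) (S : ι → Finset α) (hS : ∀ d ∈ D, S d ⊆ Y) (K : ℝ) (hK : 1 ≤ K)
    (hc : ∀ d ∈ D, (#Y : ℝ) ≤ K * #(S d)) (hY : Y.Nonempty) :
    ∃ d₀ ∈ D, ∃ D' : Finset ι, D' ⊆ D ∧ (#D : ℝ) ≤ 2 * K ^ 2 * #D' ∧
      ∀ d ∈ D', (#Y : ℝ) ≤ 2 * K ^ 2 * #(S d ∩ S d₀) := by
  have hY0 : (0 : ℝ) < #Y := by exact_mod_cast hY.card_pos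
  have hD0 : (0 : ℝ) < #D := by exact_mod_cast hD.card_pos
  have hK0 : 0 < K := by linarith
  -- double counting
  have e1 : ∑ q ∈ Y, (∑ d ∈ D, if q ∈ S d then (1 : ℝ) else 0) = ∑ d ∈ D, (#(S d) : ℝ) := by
    rw [sum_comm]
    refine sum_congr rfl fun d hd => ?_
    rw [← sum_filter, sum_const, nsmul_eq_mul, mul_one]
    congr 2
    ext q
    simp only [mem_filter]
    exact ⟨fun h => h.2, fun h => ⟨hS d hd h, h⟩⟩
  have e2 : ∑ q ∈ Y, (∑ d ∈ D, if q ∈ S d then (1 : ℝ) else 0) ^ 2 =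
      ∑ d₀ ∈ D, ∑ d ∈ D, (#(S d ∩ S d₀) : ℝ) := by
    have : ∀ q : α, (∑ d ∈ D, if q ∈ S d then (1 : ℝ) else 0) ^ 2 =
        ∑ d₀ ∈ D, ∑ d ∈ D, if q ∈ S d ∩ S d₀ then (1 : ℝ) else 0 := by
      intro q
      rw [pow_two, sum_mul_sum]
      refine sum_congr rfl fun d₀ _ => sum_congr rfl fun d _ => ?_
      by_cases h1 : q ∈ S d₀ <;> by_cases h2 : q ∈ S d <;> simp [h1, h2]
    simp only [this]
    rw [sum_comm]
    refine sum_congr rfl fun d₀ hd₀ => ?_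
    rw [sum_comm]
    refine sum_congr rfl fun d hd => ?_
    rw [← sum_filter, sum_const, nsmul_eq_mul, mul_one]
    congr 2
    ext q
    simp only [mem_filter]
    exact ⟨fun h => h.2, fun h => ⟨hS d hd (mem_inter.1 h).1, h⟩⟩
  have e3 : (∑ d ∈ D, (#(S d) : ℝ)) ^ 2 ≤ #Y * ∑ d₀ ∈ D, ∑ d ∈ D, (#(S d ∩ S d₀) : ℝ) := by
    rw [← e1, ← e2]
    exact sq_sum_le_card_mul_sum_sq
  have e4 : (#D : ℝ) * #Y ≤ K * ∑ d ∈ D, (#(S d) : ℝ) := by
    rw [mul_sum]
    calc (#D : ℝ) * #Y = ∑ _d ∈ D, (#Y : ℝ) := by rw [sum_const, nsmul_eq_mul]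
      _ ≤ _ := sum_le_sum hc
  have e5 : ∑ _d₀ ∈ D, ((#D : ℝ) * #Y) ≤
      ∑ d₀ ∈ D, K ^ 2 * ∑ d ∈ D, (#(S d ∩ S d₀) : ℝ) := by
    rw [sum_const, nsmul_eq_mul, ← mul_sum]
    have h1 : ((#D : ℝ) * #Y) ^ 2 ≤ (K * ∑ d ∈ D, (#(S d) : ℝ)) ^ 2 :=
      pow_le_pow_left₀ (by positivity) e4 2
    have h2 : ((#D : ℝ) * #Y) ^ 2 ≤ #Y * (K ^ 2 * ∑ d₀ ∈ D, ∑ d ∈ D, (#(S d ∩ S d₀) : ℝ)) := by
      calc ((#D : ℝ) * #Y) ^ 2 ≤ (K * ∑ d ∈ D, (#(S d) : ℝ)) ^ 2 := h1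
        _ = K ^ 2 * (∑ d ∈ D, (#(S d) : ℝ)) ^ 2 := by ring
        _ ≤ K ^ 2 * (#Y * ∑ d₀ ∈ D, ∑ d ∈ D, (#(S d ∩ S d₀) : ℝ)) :=
          mul_le_mul_of_nonneg_left e3 (by positivity)
        _ = _ := by ring
    have h3 : ((#D : ℝ) * #Y) ^ 2 = #Y * (#D * (#D * #Y)) := by ring
    rw [h3] at h2
    exact le_of_mul_le_mul_left h2 hY0
  obtain ⟨d₀, hd₀, h⟩ := exists_le_of_sum_le hD e5
  refine ⟨d₀, hd₀, D.filter fun d => (#Y : ℝ) ≤ 2 * K ^ 2 * #(S d ∩ S d₀), filter_subset _ _, ?_,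
    fun d hd => (mem_filter.1 hd).2⟩
  set D' := D.filter fun d => (#Y : ℝ) ≤ 2 * K ^ 2 * #(S d ∩ S d₀) with hD'
  have h6 : ∑ d ∈ D, (#(S d ∩ S d₀) : ℝ) ≤ ∑ d ∈ D,
      ((if (#Y : ℝ) ≤ 2 * K ^ 2 * #(S d ∩ S d₀) then (#Y : ℝ) else 0) + #Y / (2 * K ^ 2)) := by
    refine sum_le_sum fun d hd => ?_
    split_ifs with hh
    · have : (#(S d ∩ S d₀) : ℝ) ≤ #Y := by
        exact_mod_cast card_le_card (inter_subset_left.trans (hS d hd))
      have : (0 : ℝ) ≤ #Y / (2 * K ^ 2) := by positivity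
      linarith
    · rw [zero_add, le_div_iff₀ (by positivity)]
      linarith
  rw [sum_add_distrib, ← sum_filter, sum_const, sum_const, nsmul_eq_mul, nsmul_eq_mul, ← hD'] at h6
  have h7 : (#D : ℝ) * #Y ≤ K ^ 2 * (#D' * #Y + #D * (#Y / (2 * K ^ 2))) :=
    h.trans (mul_le_mul_of_nonneg_left h6 (by positivity))
  have h8 : K ^ 2 * (#D' * #Y + #D * (#Y / (2 * K ^ 2))) = K ^ 2 * #D' * #Y + #D * #Y / 2 := by
    field_simp
  rw [h8] at h7
  have h9 : (#D : ℝ) * #Y ≤ (2 * K ^ 2 * #D') * #Y := by linarith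
  exact le_of_mul_le_mul_right h9 hY0

end UNIFM

open UNIFM in
/-- **UNIF** -/
theorem specUNIF : SpecUNIF := by
  intro p _ X D c K U V hK hc hX hD hD0 h
  have hK0 : 0 < K := by linarith
  set N : ℝ := (#X : ℝ) with hN
  have hN0 : 0 < N := by
    rw [hN]
    exact_mod_cast hX.card_pos
  obtain ⟨d₀, hd₀, D', hD', hcard, hpop⟩ := popular D hD (X ×ˢ X) (fun d => U d ×ˢ V d)
    (fun d hd => product_subset_product (h d hd).1 (h d hd).2.1) (K ^ 2) (one_le_pow₀ hK)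
    (by
      intro d hd
      obtain ⟨_, _, h3, h4, _⟩ := h d hd
      rw [card_product, card_product]
      push_cast
      calc (#X : ℝ) * #X ≤ (K * #(U d)) * (K * #(V d)) := by gcongr
        _ = K ^ 2 * (#(U d) * #(V d)) := by ring) (hX.product hX)
  refine ⟨d₀, hd₀, D', hD', by simpa [← pow_mul] using hcard, ?_⟩
  intro d hdD'
  have hd : d ∈ D := hD' hdD'
  obtain ⟨hU, hV, hUc, hVc, hUV⟩ := h d hd
  obtain ⟨hU0, hV0, hUc0, hVc0, hUV0⟩ := h d₀ hd₀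
  have hd0' : d₀ ≠ 0 := fun e => hD0 (e ▸ hd₀)
  have hd' : d ≠ 0 := fun e => hD0 (e ▸ hd)
  set P := U d ∩ U d₀ with hP
  set Q := V d ∩ V d₀ with hQ
  have hPX : (#P : ℝ) ≤ N := by
    rw [hN]
    exact_mod_cast card_le_card (inter_subset_left.trans hU)
  have hQX : (#Q : ℝ) ≤ N := by
    rw [hN]
    exact_mod_cast card_le_card (inter_subset_left.trans hV)
  have hPQ : N * N ≤ 2 * K ^ 4 * (#P * #Q) := by
    have := hpop d hdD'
    simp only [product_inter_product, card_product] at this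
    push_cast at this
    rw [← pow_mul] at this
    exact this
  have hP1 : N ≤ 2 * K ^ 4 * #P := by
    have h1 : N * N ≤ (2 * K ^ 4 * #P) * N := by
      calc N * N ≤ 2 * K ^ 4 * (#P * #Q) := hPQ
        _ ≤ 2 * K ^ 4 * (#P * N) := by gcongr
        _ = _ := by ring
    exact le_of_mul_le_mul_right h1 hN0
  have hQ1 : N ≤ 2 * K ^ 4 * #Q := by
    have h1 : N * N ≤ (2 * K ^ 4 * #Q) * N := by
      calc N * N ≤ 2 * K ^ 4 * (#P * #Q) := hPQ
        _ ≤ 2 * K ^ 4 * (N * #Q) := by gcongr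
        _ = _ := by ring
    exact le_of_mul_le_mul_right h1 hN0
  have hUp : (0 : ℝ) < #(U d₀) := by
    by_contra hcon
    have : (#(U d₀) : ℝ) = 0 := le_antisymm (not_lt.1 hcon) (by positivity)
    rw [this, mul_zero] at hUc0
    linarith
  have hVp : (0 : ℝ) < #(V d₀) := by
    by_contra hcon
    have : (#(V d₀) : ℝ) = 0 := le_antisymm (not_lt.1 hcon) (by positivity)
    rw [this, mul_zero] at hVc0
    linarith
  have hPp : (0 : ℝ) < #P := by
    by_contra hcon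
    have : (#P : ℝ) = 0 := le_antisymm (not_lt.1 hcon) (by positivity)
    rw [this, mul_zero] at hP1
    linarith
  have hQp : (0 : ℝ) < #Q := by
    by_contra hcon
    have : (#Q : ℝ) = 0 := le_antisymm (not_lt.1 hcon) (by positivity)
    rw [this, mul_zero] at hQ1
    linarith
  have hcd : c * d ≠ 0 := mul_ne_zero hc hd'
  have hcd0 : c * d₀ ≠ 0 := mul_ne_zero hc hd0'
  -- names
  set Z := U d₀ with hZ
  set W := V d₀ with hW
  -- step 1: `|P - Z| ≤ K^3 N`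
  have s1 : (#(P - Z) : ℝ) ≤ K ^ 3 * N := by
    have t := ruzsa_triangle_inequality_sub_add_add P (dil (c * d₀) W) Z
    rw [card_dil hcd0] at t
    have t' : (#(P - Z) : ℝ) * #W ≤ #(P + dil (c * d₀) W) * #(Z + dil (c * d₀) W) := by
      exact_mod_cast t
    have u1 : (#(P + dil (c * d₀) W) : ℝ) ≤ K * N := by
      refine le_trans ?_ hUV0
      exact_mod_cast card_le_card (add_subset_add_right inter_subset_right)
    have u2 : (#(P - Z) : ℝ) * #W ≤ (K * N) * (K * N) := t'.trans (by gcongr)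
    have u3 : (#(P - Z) : ℝ) * N ≤ (K ^ 3 * N) * N := by
      calc (#(P - Z) : ℝ) * N ≤ #(P - Z) * (K * #W) := by gcongr
        _ = K * (#(P - Z) * #W) := by ring
        _ ≤ K * ((K * N) * (K * N)) := by gcongr
        _ = _ := by ring
    exact le_of_mul_le_mul_right u3 hN0
  -- step 2: `|Z + c d Q| ≤ 2 K^8 N`
  have s2 : (#(Z + dil (c * d) Q) : ℝ) ≤ 2 * K ^ 8 * N := by
    have t := ruzsa_triangle_inequality_add_sub_add Z P (dil (c * d) Q)
    have t' : (#P : ℝ) * #(Z + dil (c * d) Q) ≤ #(P - Z) * #(P + dil (c * d) Q) := by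
      exact_mod_cast t
    have u1 : (#(P + dil (c * d) Q) : ℝ) ≤ K * N := by
      refine le_trans ?_ hUV
      exact_mod_cast card_le_card (add_subset_add inter_subset_left
        (dil_mono _ inter_subset_left))
    have u3 : (#(Z + dil (c * d) Q) : ℝ) * N ≤ (2 * K ^ 8 * N) * N := by
      calc (#(Z + dil (c * d) Q) : ℝ) * N ≤ #(Z + dil (c * d) Q) * (2 * K ^ 4 * #P) := by gcongr
        _ = 2 * K ^ 4 * (#P * #(Z + dil (c * d) Q)) := by ring
        _ ≤ 2 * K ^ 4 * ((K ^ 3 * N) * (K * N)) :=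
          mul_le_mul_of_nonneg_left (t'.trans (by gcongr)) (by positivity)
        _ = _ := by ring
    exact le_of_mul_le_mul_right u3 hN0
  -- step 3: `|Q - W| ≤ K^3 N`
  have s3 : (#(dil (c * d) Q - dil (c * d) W) : ℝ) ≤ K ^ 3 * N := by
    have e1 : #(dil (c * d) Q - dil (c * d) W) = #(dil (c * d₀) Q - dil (c * d₀) W) := by
      rw [← dil_sub, ← dil_sub, card_dil hcd, card_dil hcd0]
    rw [e1]
    have t := ruzsa_triangle_inequality_sub_add_add (dil (c * d₀) Q) Z (dil (c * d₀) W)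
    have t' : (#(dil (c * d₀) Q - dil (c * d₀) W) : ℝ) * #Z ≤
        #(dil (c * d₀) Q + Z) * #(dil (c * d₀) W + Z) := by
      exact_mod_cast t
    have u1 : (#(dil (c * d₀) Q + Z) : ℝ) ≤ K * N := by
      refine le_trans ?_ hUV0
      rw [add_comm]
      exact_mod_cast card_le_card (add_subset_add_left (dil_mono _ inter_subset_right))
    have u2 : (#(dil (c * d₀) W + Z) : ℝ) ≤ K * N := by
      rw [add_comm]
      exact hUV0
    have u3 : (#(dil (c * d₀) Q - dil (c * d₀) W) : ℝ) * N ≤ (K ^ 3 * N) * N := by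
      calc (#(dil (c * d₀) Q - dil (c * d₀) W) : ℝ) * N ≤
            #(dil (c * d₀) Q - dil (c * d₀) W) * (K * #Z) := by gcongr
        _ = K * (#(dil (c * d₀) Q - dil (c * d₀) W) * #Z) := by ring
        _ ≤ K * ((K * N) * (K * N)) :=
          mul_le_mul_of_nonneg_left (t'.trans (by gcongr)) (by positivity)
        _ = _ := by ring
    exact le_of_mul_le_mul_right u3 hN0
  -- step 4: `|Z + c d W| ≤ 4 K^15 N`
  have s4 : (#(Z + dil (c * d) W) : ℝ) ≤ 4 * K ^ 15 * N := by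
    have t := ruzsa_triangle_inequality_add_sub_add (dil (c * d) W) (dil (c * d) Q) Z
    rw [card_dil hcd] at t
    have t' : (#Q : ℝ) * #(dil (c * d) W + Z) ≤
        #(dil (c * d) Q - dil (c * d) W) * #(dil (c * d) Q + Z) := by
      exact_mod_cast t
    have u1 : (#(dil (c * d) Q + Z) : ℝ) ≤ 2 * K ^ 8 * N := by
      rw [add_comm]
      exact s2
    rw [add_comm Z]
    have u3 : (#(dil (c * d) W + Z) : ℝ) * N ≤ (4 * K ^ 15 * N) * N := by
      calc (#(dil (c * d) W + Z) : ℝ) * N ≤ #(dil (c * d) W + Z) * (2 * K ^ 4 * #Q) := by gcongr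
        _ = 2 * K ^ 4 * (#Q * #(dil (c * d) W + Z)) := by ring
        _ ≤ 2 * K ^ 4 * ((K ^ 3 * N) * (2 * K ^ 8 * N)) :=
          mul_le_mul_of_nonneg_left (t'.trans (by gcongr)) (by positivity)
        _ = _ := by ring
    exact le_of_mul_le_mul_right u3 hN0
  -- step 5
  have s5 : (#(Z - dil (d / d₀) Z) : ℝ) * N ≤ (4 * K ^ 17 * N) * N := by
    have t := ruzsa_triangle_inequality_sub_add_add Z (dil (c * d) W) (dil (d / d₀) Z)
    rw [card_dil hcd] at t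
    have t' : (#(Z - dil (d / d₀) Z) : ℝ) * #W ≤
        #(Z + dil (c * d) W) * #(dil (d / d₀) Z + dil (c * d) W) := by
      exact_mod_cast t
    have u1 : (#(dil (d / d₀) Z + dil (c * d) W) : ℝ) ≤ K * N := by
      have e : dil (c * d) W = dil (d / d₀) (dil (c * d₀) W) := by
        rw [dil_dil]
        congr 1
        field_simp
      rw [e, ← dil_add, card_dil (div_ne_zero hd' hd0')]
      exact hUV0
    calc (#(Z - dil (d / d₀) Z) : ℝ) * N ≤ #(Z - dil (d / d₀) Z) * (K * #W) := by gcongr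
      _ = K * (#(Z - dil (d / d₀) Z) * #W) := by ring
      _ ≤ K * ((4 * K ^ 15 * N) * (K * N)) :=
        mul_le_mul_of_nonneg_left (t'.trans (by gcongr)) (by positivity)
      _ = _ := by ring
  have s6 : (#(Z - dil (d / d₀) Z) : ℝ) ≤ 4 * K ^ 17 * N := le_of_mul_le_mul_right s5 hN0
  calc (#(Z - dil (d / d₀) Z) : ℝ) ≤ 4 * K ^ 17 * N := s6
    _ ≤ 4 * K ^ 17 * (K * #Z) := by gcongr
    _ = 4 * K ^ 18 * #Z := by ring

end MPcb27.SP
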