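import Pool.Agent.Lib.MP_cb27ba_nt.SP.Spec

/-!
# MP_cb27ba_nt, project SP: the modules WT and MEAS (helper50)
-/

set_option autoImplicit false

namespace MPcb27.SP

open Finset
open scoped Pointwise
open MPcb27.TU MPcb27.TW

namespace WTM

/-- the step of the law -/
noncomputable def st {p : ℕ} [Fact p.Prime] (D : Finset (ZMod p)) (w : ZMod p → ℝ) (μ : ZMod p) : ℝ :=
  (∑ d ∈ D, ∑ d' ∈ D, w (μ * (d * d'⁻¹))) / (#D : ℝ) ^ 2

theorem sum_scale {p : ℕ} [Fact p.Prime] {M : Type*} [AddCommMonoid M] (w : ZMod p → M) (c : ZMod p)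
    (hc : c ≠ 0) : ∑ x, w (x * c) = ∑ x, w x :=
  Fintype.sum_equiv (Equiv.mulRight₀ c hc) _ _ fun _ => rfl

end WTM

open WTM in
theorem specWT : SpecWT := by
  intro p _ D n hD h0
  have hD0 : (0 : ℝ) < #D := by exact_mod_cast hD.card_pos
  have hne : ∀ d ∈ D, d ≠ 0 := fun d hd h => h0 (h ▸ hd)
  induction n with
  | zero =>
    refine ⟨fun x => if x = 1 then 1 else 0, fun x => by dsimp only; split_ifs <;> norm_num, ?_, ?_, ?_,
      fun h => absurd h (by norm_num), ?_⟩
    · simp
    · simp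
    · intro x
      have : x⁻¹ = 1 ↔ x = 1 := inv_eq_one
      simp only [this]
    · intro h x
      rw [Finset.sum_eq_single (1 : ZMod p)]
      · simp
      · intro m _ hm
        simp [hm]
      · intro hm
        exact absurd (Finset.mem_univ _) hm
  | succ n ih =>
    obtain ⟨w, hw0, hw1, hwz, hwi, -, hw⟩ := ih
    have hsum : ∀ d ∈ D, ∀ d' ∈ D, ∑ μ, w (μ * (d * d'⁻¹)) = 1 := by
      intro d hd d' hd'
      rw [sum_scale w _ (mul_ne_zero (hne d hd) (inv_ne_zero (hne d' hd'))), hw1]
    refine ⟨st D w, ?_, ?_, ?_, ?_, ?_, ?_⟩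
    · intro x
      exact div_nonneg (sum_nonneg fun d _ => sum_nonneg fun d' _ => hw0 _) (by positivity)
    · unfold st
      rw [← Finset.sum_div, Finset.sum_comm]
      have h1 : ∀ d ∈ D, ∑ x, ∑ d' ∈ D, w (x * (d * d'⁻¹)) = #D := by
        intro d hd
        rw [Finset.sum_comm, Finset.sum_congr rfl (hsum d hd)]
        simp
      rw [Finset.sum_congr rfl h1]
      simp only [sum_const, nsmul_eq_mul]
      field_simp
    · unfold st
      simp [hwz]
    · intro x
      unfold st
      congr 1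
      rw [Finset.sum_comm]
      refine Finset.sum_congr rfl fun d' hd' => Finset.sum_congr rfl fun d hd => ?_
      rw [← hwi]
      congr 1
      rw [mul_inv_rev, inv_inv, mul_inv_rev, inv_inv, mul_comm x]
    · intro _ x
      unfold st
      rw [div_le_div_iff₀ (by positivity) hD0, one_mul]
      have h1 : ∑ d ∈ D, ∑ d' ∈ D, w (x * (d * d'⁻¹)) ≤ ∑ _d ∈ D, (1 : ℝ) := by
        refine Finset.sum_le_sum fun d hd => ?_
        by_cases hx : x = 0
        · subst hx
          simp [hwz]
        · have hinj : Set.InjOn (fun d' : ZMod p => x * (d * d'⁻¹)) D := by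
            intro a _ b _ hab
            simp only at hab
            have h2 := mul_left_cancel₀ hx hab
            have h3 := mul_left_cancel₀ (hne d hd) h2
            exact inv_injective h3
          rw [← Finset.sum_image (f := w) hinj, ← hw1]
          exact Finset.sum_le_sum_of_subset_of_nonneg (Finset.subset_univ _) fun y _ _ => hw0 y
      simp only [sum_const, nsmul_eq_mul, mul_one] at h1
      nlinarith
    · intro h x
      rw [Function.iterate_succ, Function.comp_apply, hw]
      unfold QA st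
      have h1 : ∀ m : ZMod p, (w m : ℂ) * ((∑ d ∈ D, ∑ d' ∈ D, h (d' * d⁻¹ * (m * x))) / (#D : ℂ) ^ 2) =
          (∑ d ∈ D, ∑ d' ∈ D, (w m : ℂ) * h (d' * d⁻¹ * (m * x))) / (#D : ℂ) ^ 2 := by
        intro m
        rw [← mul_div_assoc, Finset.mul_sum]
        congr 1
        refine Finset.sum_congr rfl fun d _ => ?_
        rw [Finset.mul_sum]
      have h2 : ∀ m : ZMod p, (((∑ d ∈ D, ∑ d' ∈ D, w (m * (d * d'⁻¹))) / (#D : ℝ) ^ 2 : ℝ) : ℂ) * h (m * x) =
          (∑ d ∈ D, ∑ d' ∈ D, (w (m * (d * d'⁻¹)) : ℂ) * h (m * x)) / (#D : ℂ) ^ 2 := by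
        intro m
        push_cast
        rw [div_mul_eq_mul_div, Finset.sum_mul]
        congr 1
        refine Finset.sum_congr rfl fun d _ => ?_
        rw [Finset.sum_mul]
      rw [Finset.sum_congr rfl fun m _ => h1 m, Finset.sum_congr rfl fun m _ => h2 m, ← Finset.sum_div,
        ← Finset.sum_div]
      congr 1
      rw [Finset.sum_comm]
      conv_rhs => rw [Finset.sum_comm]
      refine Finset.sum_congr rfl fun d hd => ?_
      rw [Finset.sum_comm]
      conv_rhs => rw [Finset.sum_comm]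
      refine Finset.sum_congr rfl fun d' hd' => ?_
      have hd0 := hne d hd
      have hd0' := hne d' hd'
      have h3 := sum_scale (fun m : ZMod p => (w (m * (d * d'⁻¹)) : ℂ) * h (m * x)) (d' * d⁻¹)
        (mul_ne_zero hd0' (inv_ne_zero hd0))
      rw [← h3]
      refine Finset.sum_congr rfl fun m _ => ?_
      have e1 : m * (d' * d⁻¹) * (d * d'⁻¹) = m := by
        field_simp
      have e2 : m * (d' * d⁻¹) * x = d' * d⁻¹ * (m * x) := by ring
      rw [e1, e2]

theorem specMEAS (hWT : SpecWT) : SpecMEAS := by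
  intro p _ D n k hD h0 hn hk
  obtain ⟨w, hw0, hw1, -, -, hwm, hw⟩ := hWT p D n hD h0
  have hwm' := hwm hn
  have hGN : ∀ x, ∑ a, (w a : ℂ) * ZMod.stdAddChar (a * x) = GN D n x := by
    intro x
    unfold GN
    rw [hw]
  obtain ⟨k, rfl⟩ : ∃ j, k = j + 1 := ⟨k - 1, by omega⟩
  clear hk
  induction k with
  | zero =>
    refine ⟨w, hw0, hw1, hwm', fun x => ?_⟩
    rw [hGN, zero_add, pow_one]
  | succ k ih =>
    obtain ⟨η, hη0, hη1, hηm, hη⟩ := ih
    refine ⟨fun a => ∑ b, η b * w (a - b), ?_, ?_, ?_, ?_⟩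
    · intro x
      exact sum_nonneg fun b _ => mul_nonneg (hη0 _) (hw0 _)
    · rw [Finset.sum_comm]
      have h1 : ∀ b : ZMod p, ∑ a, η b * w (a - b) = η b := by
        intro b
        rw [← Finset.mul_sum, Fintype.sum_equiv (Equiv.subRight b) (fun a => w (a - b)) w (fun _ => rfl),
          hw1, mul_one]
      rw [Finset.sum_congr rfl fun b _ => h1 b, hη1]
    · intro x
      calc ∑ b, η b * w (x - b) ≤ ∑ b, η b * (1 / #D) :=
            Finset.sum_le_sum fun b _ => mul_le_mul_of_nonneg_left (hwm' _) (hη0 b)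
        _ = 1 / #D := by rw [← Finset.sum_mul, hη1, one_mul]
    · intro x
      have h1 : ∀ a : ZMod p, ((∑ b, η b * w (a - b) : ℝ) : ℂ) * ZMod.stdAddChar (a * x) =
          ∑ b, (η b : ℂ) * ZMod.stdAddChar (b * x) * ((w (a - b) : ℂ) * ZMod.stdAddChar ((a - b) * x)) := by
        intro a
        push_cast
        rw [Finset.sum_mul]
        refine Finset.sum_congr rfl fun b _ => ?_
        have e : a * x = b * x + (a - b) * x := by ring
        rw [e, AddChar.map_add_eq_mul]
        ring
      rw [Finset.sum_congr rfl fun a _ => h1 a, Finset.sum_comm]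
      have h2 : ∀ b : ZMod p, ∑ a, (η b : ℂ) * ZMod.stdAddChar (b * x) *
          ((w (a - b) : ℂ) * ZMod.stdAddChar ((a - b) * x)) =
          (η b : ℂ) * ZMod.stdAddChar (b * x) * GN D n x := by
        intro b
        rw [← Finset.mul_sum, Fintype.sum_equiv (Equiv.subRight b)
          (fun a => (w (a - b) : ℂ) * ZMod.stdAddChar ((a - b) * x))
          (fun a => (w a : ℂ) * ZMod.stdAddChar (a * x)) (fun _ => rfl), hGN]
      rw [Finset.sum_congr rfl fun b _ => h2 b, ← Finset.sum_mul, hη, ← pow_succ]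

end MPcb27.SP
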