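import Pool.Agent.Lib.MP_cb27ba_nt.TW.Spec3

/-!
# MP_cb27ba_nt, project SP (sets covered by `C * D + E`, `B` arbitrary): statements of the modules

`C`, `D`, `E` are ARBITRARY sets of at least `p ^ δ` elements, `B` is an arbitrary set with at least
`p ^ (1/2 - c)` elements. Theorem A (`TW.FinalA`) for the maps `x ↦ d x + e`, and the sum-product
bound `SpecSPM`, which is proved here from scratch: flattening of the law of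
`∑ ± ∏ d'_ij / d_ij` (`SpecFL`), via Balog-Szemerédi-Gowers, Ruzsa, Plünnecke, and the pivot argument.
Paper proof: idea row of helper17.
-/

set_option autoImplicit false

namespace MPcb27.SP

open Finset
open scoped Pointwise
open MPcb27.TU MPcb27.TW

/-- the average over the quotients `d' / d` -/
noncomputable def QA {p : ℕ} [Fact p.Prime] (D : Finset (ZMod p)) (h : ZMod p → ℂ) : ZMod p → ℂ :=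
  fun x => (∑ d ∈ D, ∑ d' ∈ D, h (d' * d⁻¹ * x)) / (#D : ℂ) ^ 2

/-- `GN D n x` is the mean of `e (x ∏_{i ≤ n} d'_i / d_i / p)` -/
noncomputable def GN {p : ℕ} [Fact p.Prime] (D : Finset (ZMod p)) (n : ℕ) : ZMod p → ℂ :=
  (QA D)^[n] fun x => ZMod.stdAddChar x

/-- the dilate `l X` -/
def dil {p : ℕ} (l : ZMod p) (X : Finset (ZMod p)) : Finset (ZMod p) := X.image fun x => l * x

/-- number of quadruples with `a - a' = l (b - b')` -/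
def EN {p : ℕ} (X : Finset (ZMod p)) (l : ZMod p) : ℕ :=
  #(((X ×ˢ X) ×ˢ (X ×ˢ X)).filter fun q => q.1.1 - q.1.2 = l * (q.2.1 - q.2.2))

/-- the same with weights -/
noncomputable def ENF {p : ℕ} [Fact p.Prime] (η : ZMod p → ℝ) (l : ZMod p) : ℝ :=
  ∑ a, ∑ b, ∑ b', η a * η (a - l * (b - b')) * η b * η b'

/-- WT: the powers of `QA` are averages over a symmetric probability measure (law of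
`∏ d'_i / d_i`); induction, `w_{n+1} μ = |D|⁻² ∑_{d,d'} w_n (μ d / d')`. -/
def SpecWT : Prop :=
  ∀ (p : ℕ) [Fact p.Prime] (D : Finset (ZMod p)) (n : ℕ), D.Nonempty → 0 ∉ D →
    ∃ w : ZMod p → ℝ, (∀ x, 0 ≤ w x) ∧ ∑ x, w x = 1 ∧ w 0 = 0 ∧ (∀ x, w x⁻¹ = w x) ∧
      (1 ≤ n → ∀ x, w x ≤ 1 / #D) ∧
      ∀ (h : ZMod p → ℂ) (x : ZMod p), (QA D)^[n] h x = ∑ m, (w m : ℂ) * h (m * x)

/-- MEAS: `GN ^ k` is the transform of a probability measure with small maximum (`k`-fold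
convolution of the measure of WT). -/
def SpecMEAS : Prop :=
  ∀ (p : ℕ) [Fact p.Prime] (D : Finset (ZMod p)) (n k : ℕ), D.Nonempty → 0 ∉ D → 1 ≤ n → 1 ≤ k →
    ∃ η : ZMod p → ℝ, (∀ x, 0 ≤ η x) ∧ ∑ x, η x = 1 ∧ (∀ x, η x ≤ 1 / #D) ∧
      ∀ x, ∑ a, (η a : ℂ) * ZMod.stdAddChar (a * x) = GN D n x ^ k

/-- FID: two identities of Fourier analysis -/
def SpecFID : Prop :=
  ∀ (p : ℕ) [Fact p.Prime] (η : ZMod p → ℝ) (l : ZMod p),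
    ∑ x, ‖∑ a, (η a : ℂ) * ZMod.stdAddChar (a * x)‖ ^ 2 *
        ‖∑ a, (η a : ℂ) * ZMod.stdAddChar (a * (l * x))‖ ^ 2 = p * ENF η l ∧
    ∑ x, ‖∑ a, (η a : ℂ) * ZMod.stdAddChar (a * x)‖ ^ 2 = p * ∑ a, η a ^ 2

/-- HF: one step, with `W n = ∑_x ‖GN D n x‖ ^ 2 ^ (n+1)`: `|GN (n+1)| ^ 4k ≤ (E_λ |GN n (λ x)| ^ 2k) ^ 2`
(`k = 2 ^ n`), open the square, substitute `x → λ₁⁻¹ x`, `λ₂ / λ₁ = d₂' (d₁ / (d₂ d₁'))`, choose the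
best `c = d₁ / (d₂ d₁')`. -/
def SpecHF : Prop :=
  ∀ (p : ℕ) [Fact p.Prime] (D : Finset (ZMod p)) (n : ℕ), D.Nonempty → 0 ∉ D →
    (∃ c : ZMod p, c ≠ 0 ∧ (#D : ℝ) * ∑ x, ‖GN D (n + 1) x‖ ^ 2 ^ (n + 2) ≤
      ∑ d ∈ D, ∑ x, ‖GN D n x‖ ^ 2 ^ (n + 1) * ‖GN D n (c * d * x)‖ ^ 2 ^ (n + 1)) ∧
    ∑ x, ‖GN D (n + 1) x‖ ^ 2 ^ (n + 2) ≤ ∑ x, ‖GN D n x‖ ^ 2 ^ (n + 1) ∧
    1 ≤ ∑ x, ‖GN D n x‖ ^ 2 ^ (n + 1) ∧ ∑ x, ‖GN D n x‖ ^ 2 ^ (n + 1) ≤ p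

/-- TRUNC: one level set for all `l`. `S = ∑ η²`, `t = S / (32 K)`, `T = 32 K S`,
`X = {t < η ≤ T}`. In the four-linear form `ENF`, one factor replaced by `η 1_{η ≤ t}` gives at
most `t`; one factor replaced by `η 1_{η > T}` gives at most `‖η 1_{η > T}‖₁ S ≤ S² / T`. So
`ENF (η 1_X) ≥ S/(2K) - 4t - 4S²/T = S/(4K)`, and `ENF (η 1_X) ≤ T⁴ EN X l`. -/
def SpecTRUNC : Prop :=
  ∀ (p : ℕ) [Fact p.Prime] (η : ZMod p → ℝ) (K : ℝ), 1 ≤ K → (∀ x, 0 ≤ η x) → ∑ x, η x = 1 →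
    ∃ X : Finset (ZMod p), (#X : ℝ) * ∑ x, η x ^ 2 ≤ 32 * K ∧
      ∀ l : ZMod p, l ≠ 0 → ∑ x, η x ^ 2 ≤ 2 * K * ENF η l →
        (#X : ℝ) ^ 3 ≤ 2 ^ 37 * K ^ 8 * EN X l ∧ 1 ≤ 2 ^ 22 * K ^ 5 * (#X * ∑ x, η x ^ 2) ^ 3

/-- GR: the graph lemma of Gowers (paths of length three). -/
def SpecGR : Prop :=
  ∃ c : ℕ, ∀ (α β : Type) [DecidableEq α] [DecidableEq β] (A : Finset α) (B : Finset β)
    (G : Finset (α × β)) (K : ℝ), 1 ≤ K → G ⊆ A ×ˢ B → (#A : ℝ) * #B ≤ K * #G →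
    ∃ (A' : Finset α) (B' : Finset β), A' ⊆ A ∧ B' ⊆ B ∧ (#A : ℝ) ≤ c * K * #A' ∧
      (#B : ℝ) ≤ c * K * #B' ∧ ∀ a ∈ A', ∀ b ∈ B',
        (#A : ℝ) * #B ≤ c * K ^ 5 * #((A ×ˢ B).filter fun q =>
          (a, q.2) ∈ G ∧ (q.1, q.2) ∈ G ∧ (q.1, b) ∈ G)

/-- BSG: from GR. -/
def SpecBSG : Prop :=
  ∃ c : ℕ, ∀ (p : ℕ) [Fact p.Prime] (X Y : Finset (ZMod p)) (K : ℝ), 1 ≤ K → X.Nonempty →
    #X = #Y →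
    (#X : ℝ) ^ 3 ≤ K * #(((X ×ˢ X) ×ˢ (Y ×ˢ Y)).filter fun q => q.1.1 - q.1.2 = q.2.1 - q.2.2) →
    ∃ X' Y' : Finset (ZMod p), X' ⊆ X ∧ Y' ⊆ Y ∧ (#X : ℝ) ≤ c * K ^ c * #X' ∧
      (#Y : ℝ) ≤ c * K ^ c * #Y' ∧ (#(X' + Y') : ℝ) ≤ c * K ^ c * #X

/-- UNIF: one set for many multipliers (Cauchy-Schwarz over pairs, five times Ruzsa's triangle
inequality). -/
def SpecUNIF : Prop :=
  ∀ (p : ℕ) [Fact p.Prime] (X D : Finset (ZMod p)) (c : ZMod p) (K : ℝ)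
    (U V : ZMod p → Finset (ZMod p)), 1 ≤ K → c ≠ 0 → X.Nonempty → D.Nonempty → 0 ∉ D →
    (∀ d ∈ D, U d ⊆ X ∧ V d ⊆ X ∧ (#X : ℝ) ≤ K * #(U d) ∧ (#X : ℝ) ≤ K * #(V d) ∧
      (#(U d + dil (c * d) (V d)) : ℝ) ≤ K * #X) →
    ∃ d₀ ∈ D, ∃ D' : Finset (ZMod p), D' ⊆ D ∧ (#D : ℝ) ≤ 2 * K ^ 4 * #D' ∧
      ∀ d ∈ D', (#(U d₀ - dil (d / d₀) (U d₀)) : ℝ) ≤ 4 * K ^ 18 * #(U d₀)

/-- PACK: from BSG and UNIF. -/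
def SpecPACK : Prop :=
  ∃ C : ℕ, ∀ (p : ℕ) [Fact p.Prime] (X D : Finset (ZMod p)) (c : ZMod p) (K : ℝ), 1 ≤ K →
    c ≠ 0 → X.Nonempty → D.Nonempty → 0 ∉ D → (∀ d ∈ D, (#X : ℝ) ^ 3 ≤ K * EN X (c * d)) →
    ∃ X₀ L : Finset (ZMod p), X₀ ⊆ X ∧ (#X : ℝ) ≤ C * K ^ C * #X₀ ∧
      (#D : ℝ) ≤ C * K ^ C * #L ∧ ∀ l ∈ L, (#(X₀ - dil l X₀) : ℝ) ≤ C * K ^ C * #X₀

/-- PIV: the pivot argument. With `R (K) = {l : #(X - l X) ≤ K #X}`: sums and products of a bounded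
number of elements of `R (K)`, and quotients of differences, are in `R (C K ^ C)`
(`pluennecke_ruzsa` for `X ∪ ⋃ l_i X`). If `(A-A)/(A-A)` is not everything, `A ⊆ R (K)`, there is
`A' ⊆ R (C K ^ C)` with `#A' = #A ^ 2`. In the end all `l` are in `R`, and
`∑_l EN X l ≤ #X ^ 4 + p #X ^ 2`. -/
def SpecPIV : Prop :=
  ∀ m : ℕ, ∃ C : ℕ, ∀ (p : ℕ) [Fact p.Prime] (X L : Finset (ZMod p)) (K : ℝ), 1 ≤ K →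
    X.Nonempty → 2 ≤ #L → (∀ l ∈ L, (#(X - dil l X) : ℝ) ≤ K * #X) → p < #L ^ 2 ^ m →
    (#X : ℝ) ≤ C * K ^ C ∨ (p : ℝ) ≤ C * K ^ C * #X

/-- FL: flattening. From WT, MEAS, FID, HF, TRUNC, PACK, PIV. -/
def SpecFL : Prop :=
  ∀ δ γ : ℝ, 0 < δ → 0 < γ → ∃ s k : ℕ, 1 ≤ k ∧ ∃ P : ℕ, ∀ (p : ℕ) [Fact p.Prime], P ≤ p →
    ∀ D : Finset (ZMod p), 0 ∉ D → (p : ℝ) ^ δ ≤ #D →
      ∑ x, ‖GN D (2 ^ s) x‖ ^ (2 * k) ≤ (p : ℝ) ^ γ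

/-- the number of solutions of `(b - e) / d = (b₁ - e₁) / d₁` -/
def MM {p : ℕ} (D E B : Finset (ZMod p)) : ℕ :=
  #(((D ×ˢ E ×ˢ B) ×ˢ (D ×ˢ E ×ˢ B)).filter fun q =>
    q.2.1 * (q.1.2.2 - q.1.2.1) = q.1.1 * (q.2.2.2 - q.2.2.1))

/-- OP: iterated Cauchy-Schwarz for the self-adjoint operator `QA D` on functions on `ZMod p` without
`0`. `MM = p⁻¹ ∑_ξ |∑_d h (ξ / d)|²`, `h (t) = B^(t) E^(t)`; term `ξ = 0`: `#D² #E² #B² / p`; the rest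
is `#D² p⁻¹ ⟨Q h, h⟩`, `⟨Q h, h⟩^n ≤ ⟨Q^n h, h⟩ ‖h‖^(2(n-1))`, `n = 2 ^ s`, `‖h‖² ≤ #E² p #B`,
`⟨Q^n h, h⟩ ≤ #E p #B sup_t Q^n |E^| (t)` (symmetry of the measure of WT),
`(Q^n |E^| (t))² ≤ Q^n |E^|² (t) = ∑_{e,e'} GN D n (t (e - e'))`. -/
def SpecOP : Prop :=
  ∀ (p : ℕ) [Fact p.Prime] (D E B : Finset (ZMod p)) (s : ℕ) (g : ℝ), D.Nonempty → 0 ∉ D →
    0 ≤ g →
    (∀ t : ZMod p, t ≠ 0 →
      ‖∑ e ∈ E, ∑ e' ∈ E, GN D (2 ^ s) (t * (e - e'))‖ ≤ g ^ 2 * (#E : ℝ) ^ 2) →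
    ((MM D E B : ℝ) - (#D : ℝ) ^ 2 * (#E : ℝ) ^ 2 * (#B : ℝ) ^ 2 / p) ^ 2 ^ s ≤
      g * ((#D : ℝ) ^ 2 * (#E : ℝ) ^ 2 * #B) ^ 2 ^ s

/-- SPM: the sum-product bound. From FL (`γ = δ/2`) and OP. -/
def SpecSPM : Prop :=
  ∀ δ : ℝ, 0 < δ → ∃ κ : ℝ, 0 < κ ∧ ∃ P : ℕ, ∀ (p : ℕ) [Fact p.Prime], P ≤ p →
    ∀ D E B : Finset (ZMod p), 0 ∉ D → (p : ℝ) ^ δ ≤ #D → (p : ℝ) ^ δ ≤ #E →
      (#B : ℝ) ≤ (p : ℝ) ^ (1 - δ) →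
      (MM D E B : ℝ) ≤ (p : ℝ) ^ (-κ) * ((#D : ℝ) ^ 2 * (#E : ℝ) ^ 2 * #B)

/-- FINSP: from `TW.FinalA` (`Φ = D ×ˢ E`, `NA ≤ #B MM`), SPM with `δ/2`, and the trivial bound
`√p` for `#B > p ^ (1 - δ/2)` (`#C #D #E / m ≥ #E`). -/
def FinalSP : Prop :=
  ∀ δ : ℝ, 0 < δ → ∃ τ : ℝ, 0 < τ ∧ ∃ P : ℕ, ∀ (p : ℕ) [Fact p.Prime], P ≤ p →
    ∀ (B : Finset (ZMod p))
      (F : Finset (Finset (ZMod p) × Finset (ZMod p) × Finset (ZMod p) × ℕ)),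
      (p : ℝ) ^ (1 / 2 - τ) ≤ #B →
      (∀ q ∈ F, (p : ℝ) ^ δ ≤ #q.1 ∧ (p : ℝ) ^ δ ≤ #q.2.1 ∧ 0 ∉ q.2.1 ∧ (p : ℝ) ^ δ ≤ #q.2.2.1 ∧
        1 ≤ q.2.2.2) →
      ∀ A : Finset (ZMod p),
        (∀ a ∈ A, ∃ q ∈ F, q.2.2.2 ≤ #((q.1 ×ˢ q.2.1 ×ˢ q.2.2.1).filter fun x =>
          x.1 * x.2.1 + x.2.2 = a)) →
        ∀ χ : MulChar (ZMod p) ℂ, χ ≠ 1 →
          NB χ A B ((p : ℝ) ^ (-τ) *
            Real.sqrt ((∑ q ∈ F, (#q.1 : ℝ) * #q.2.1 * #q.2.2.1 / q.2.2.2) * #B))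

end MPcb27.SP
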