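import Pool.Agent.Lib.MP_cb27ba_nt.SP.Spec
import Pool.Agent.Lib.MP_cb27ba_nt.Bound

/-!
# MP_cb27ba_nt, SP: FINSP (the final theorem, from theorem A and SPM)
-/

set_option autoImplicit false

namespace MPcb27.SP

open Finset
open scoped Pointwise
open MPcb27.TU MPcb27.TW

namespace FINSP

/-- the classical bound for the norm -/
theorem nb_sqrt {p : ℕ} [Fact p.Prime] (χ : MulChar (ZMod p) ℂ) (hχ : χ ≠ 1)
    (A B : Finset (ZMod p)) : NB χ A B (Real.sqrt p) := by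
  classical
  intro α β
  set S : ZMod p → ℂ := fun x => ∑ b ∈ B, β b * χ (x - b) with hS
  have h1 : ((∑ x, ‖S x‖ ^ 2 : ℝ) : ℂ) = (p : ℂ) * ((∑ b ∈ B, ‖β b‖ ^ 2 : ℝ) : ℂ) -
      ((‖∑ b ∈ B, β b‖ ^ 2 : ℝ) : ℂ) := by
    push_cast
    have h2 : ∀ x : ZMod p, ((‖S x‖ : ℝ) : ℂ) ^ 2 =
        ∑ b ∈ B, ∑ b' ∈ B, (β b * (starRingEnd ℂ) (β b')) *
          (χ (x - b) * (starRingEnd ℂ) (χ (x - b'))) := by
      intro x
      rw [← Complex.mul_conj', map_sum, Finset.sum_mul_sum]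
      refine sum_congr rfl fun b _ => sum_congr rfl fun b' _ => ?_
      rw [map_mul]
      ring
    simp only [h2]
    rw [Finset.sum_comm]
    have h3 : ∀ b ∈ B, ∑ x, ∑ b' ∈ B, (β b * (starRingEnd ℂ) (β b')) *
          (χ (x - b) * (starRingEnd ℂ) (χ (x - b'))) =
        (p : ℂ) * ((‖β b‖ : ℝ) : ℂ) ^ 2 - β b * (starRingEnd ℂ) (∑ b' ∈ B, β b') := by
      intro b hb
      rw [Finset.sum_comm]
      simp only [← Finset.mul_sum]
      have h4 : ∀ b' ∈ B, (β b * (starRingEnd ℂ) (β b')) *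
          ∑ x, χ (x - b) * (starRingEnd ℂ) (χ (x - b')) =
          (if b' = b then (p : ℂ) * (β b * (starRingEnd ℂ) (β b)) else 0) -
            β b * (starRingEnd ℂ) (β b') := by
        intro b' _
        by_cases h : b' = b
        · subst h
          rw [if_pos rfl, Pool.Agent.Lib.MPcb27ba.sum_char_mul_conj_self]
          ring
        · rw [if_neg h, Pool.Agent.Lib.MPcb27ba.sum_char_mul_conj χ (Ne.symm h) hχ]
          ring
      rw [Finset.sum_congr rfl h4, Finset.sum_sub_distrib, Finset.sum_ite_eq' B b, if_pos hb,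
        Complex.mul_conj', map_sum, Finset.mul_sum]
    rw [Finset.sum_congr rfl h3, Finset.sum_sub_distrib, ← Finset.mul_sum, ← Finset.sum_mul,
      Complex.mul_conj']
  have h5 : ∑ x, ‖S x‖ ^ 2 ≤ (p : ℝ) * ∑ b ∈ B, ‖β b‖ ^ 2 := by
    have h6 : ∑ x, ‖S x‖ ^ 2 = (p : ℝ) * ∑ b ∈ B, ‖β b‖ ^ 2 - ‖∑ b ∈ B, β b‖ ^ 2 := by
      exact_mod_cast h1
    rw [h6]
    have := sq_nonneg ‖∑ b ∈ B, β b‖
    linarith
  have h7 : ∑ a ∈ A, ∑ b ∈ B, α a * β b * χ (a - b) = ∑ a ∈ A, α a * S a := by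
    refine sum_congr rfl fun a _ => ?_
    rw [hS, Finset.mul_sum]
    exact sum_congr rfl fun b _ => by ring
  have h8 : ∑ a ∈ A, ‖S a‖ ^ 2 ≤ (p : ℝ) * ∑ b ∈ B, ‖β b‖ ^ 2 :=
    (sum_le_sum_of_subset_of_nonneg (subset_univ _) fun _ _ _ => by positivity).trans h5
  calc ‖∑ a ∈ A, ∑ b ∈ B, α a * β b * χ (a - b)‖ = ‖∑ a ∈ A, α a * S a‖ := by rw [h7]
    _ ≤ ∑ a ∈ A, ‖α a‖ * ‖S a‖ := (norm_sum_le _ _).trans (sum_le_sum fun a _ => (norm_mul _ _).le)
    _ ≤ Real.sqrt (∑ a ∈ A, ‖α a‖ ^ 2) * Real.sqrt (∑ a ∈ A, ‖S a‖ ^ 2) :=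
        Real.sum_mul_le_sqrt_mul_sqrt _ _ _
    _ ≤ Real.sqrt (∑ a ∈ A, ‖α a‖ ^ 2) * (Real.sqrt p * Real.sqrt (∑ b ∈ B, ‖β b‖ ^ 2)) := by
        refine mul_le_mul_of_nonneg_left ?_ (Real.sqrt_nonneg _)
        rw [← Real.sqrt_mul (Nat.cast_nonneg p)]
        exact Real.sqrt_le_sqrt h8
    _ = _ := by ring

theorem nb_mono {p : ℕ} (χ : MulChar (ZMod p) ℂ) (A B : Finset (ZMod p)) {M M' : ℝ}
    (h : M ≤ M') (hN : NB χ A B M) : NB χ A B M' := fun α β =>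
  (hN α β).trans (mul_le_mul_of_nonneg_right h (by positivity))

/-- the count of theorem A for `Φ = D × E` -/
theorem na_le {p : ℕ} [Fact p.Prime] (D E B : Finset (ZMod p)) (hD : (0 : ZMod p) ∉ D) :
    NA (D ×ˢ E) B ≤ #B * MM D E B := by
  classical
  unfold NA MM
  rw [← card_product]
  refine card_le_card_of_injOn
    (fun q => (q.1.2.2, ((q.1.1.1, q.1.1.2, q.1.2.1), (q.2.1.1, q.2.1.2, q.2.2.1)))) ?_ ?_
  · intro q hq
    simp only [coe_filter, mem_product, Set.mem_ofPred_eq] at hq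
    simp only [coe_product, Set.mem_prod, mem_coe, mem_filter, mem_product]
    tauto
  · rintro ⟨⟨⟨d, e⟩, b, b'⟩, ⟨d1, e1⟩, b1, b1'⟩ hq ⟨⟨⟨d2, e2⟩, b2, b2'⟩, ⟨d3, e3⟩, b3, b3'⟩ hq' h
    simp only [coe_filter, mem_product, Set.mem_ofPred_eq] at hq hq'
    simp only [Prod.mk.injEq] at h
    obtain ⟨rfl, ⟨rfl, rfl, rfl⟩, rfl, rfl, rfl⟩ := h
    have hd : d ≠ 0 := fun h0 => hD (h0 ▸ hq.1.1.1.1)
    have h1 : d * (b1' - e1) = d * (b3' - e1) := by rw [← hq.2.2, ← hq'.2.2]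
    have h2 := sub_left_injective (mul_left_cancel₀ hd h1)
    exact h2 ▸ rfl

/-- the representations -/
theorem rep_eq {p : ℕ} [Fact p.Prime] (C D E : Finset (ZMod p)) (a : ZMod p) :
    #(((D ×ˢ E) ×ˢ C).filter fun x => x.1.1 * x.2 + x.1.2 = a) =
      #((C ×ˢ D ×ˢ E).filter fun x => x.1 * x.2.1 + x.2.2 = a) := by
  classical
  refine card_bij (fun x _ => (x.2, x.1.1, x.1.2)) ?_ ?_ ?_
  · intro x hx
    simp only [mem_filter, mem_product] at hx ⊢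
    refine ⟨⟨hx.1.2, hx.1.1.1, hx.1.1.2⟩, ?_⟩
    rw [mul_comm]
    exact hx.2
  · rintro ⟨⟨a, b⟩, c⟩ _ ⟨⟨a', b'⟩, c'⟩ _ h
    simp only [Prod.mk.injEq] at h
    obtain ⟨rfl, rfl, rfl⟩ := h
    rfl
  · rintro ⟨c, d, e⟩ hx
    simp only [mem_filter, mem_product] at hx
    refine ⟨((d, e), c), ?_, rfl⟩
    simp only [mem_filter, mem_product]
    refine ⟨⟨⟨hx.1.2.1, hx.1.2.2⟩, hx.1.1⟩, ?_⟩
    rw [mul_comm]
    exact hx.2

/-- there are at most `#C #D` representations -/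
theorem rep_le {p : ℕ} [Fact p.Prime] (C D E : Finset (ZMod p)) (a : ZMod p) :
    #((C ×ˢ D ×ˢ E).filter fun x => x.1 * x.2.1 + x.2.2 = a) ≤ #C * #D := by
  classical
  rw [← card_product]
  refine card_le_card_of_injOn (fun x => (x.1, x.2.1)) ?_ ?_
  · intro x hx
    simp only [coe_filter, mem_product, Set.mem_ofPred_eq] at hx
    simp only [coe_product, Set.mem_prod, mem_coe]
    exact ⟨hx.1.1, hx.1.2.1⟩
  · rintro ⟨c, d, e⟩ hx ⟨c', d', e'⟩ hx' h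
    simp only [coe_filter, mem_product, Set.mem_ofPred_eq] at hx hx'
    simp only [Prod.mk.injEq] at h
    obtain ⟨rfl, rfl⟩ := h
    have h1 : c * d + e = c * d + e' := by rw [hx.2, hx'.2]
    rw [add_left_cancel h1]

end FINSP

open FINSP

theorem finalSP (hA : FinalA) (hS : SpecSPM) : FinalSP := by
  classical
  intro δ hδ
  obtain ⟨κ, hκ, P₁, hP₁⟩ := hS (δ / 2) (by positivity)
  set δ' : ℝ := min δ (κ / 2) with hδ'
  have hδ'0 : 0 < δ' := lt_min hδ (by positivity)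
  have hδ'δ : δ' ≤ δ := min_le_left _ _
  have hδ'κ : δ' ≤ κ / 2 := min_le_right _ _
  obtain ⟨τ, hτ, P₂, hP₂⟩ := hA δ' hδ'0
  set τ' : ℝ := min τ (min (κ / 4) (δ / 4)) with hτ'
  have hτ'0 : 0 < τ' := lt_min hτ (lt_min (by positivity) (by positivity))
  have hτ'τ : τ' ≤ τ := min_le_left _ _
  have hτ'κ : τ' ≤ κ / 4 := (min_le_right _ _).trans (min_le_left _ _)
  have hτ'δ : τ' ≤ δ / 4 := (min_le_right _ _).trans (min_le_right _ _)
  refine ⟨τ', hτ'0, max P₁ P₂, ?_⟩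
  intro p _ hp B F hB hF A hAF χ hχ
  have hpr : p.Prime := Fact.out
  have hp1 : (1 : ℝ) ≤ p := by exact_mod_cast hpr.one_lt.le
  have hp0 : (0 : ℝ) < p := by linarith
  have hpP₁ : P₁ ≤ p := (le_max_left _ _).trans hp
  have hpP₂ : P₂ ≤ p := (le_max_right _ _).trans hp
  set S₀ : ℝ := ∑ q ∈ F, (#q.1 : ℝ) * #q.2.1 * #q.2.2.1 / q.2.2.2 with hS₀
  rcases A.eq_empty_or_nonempty with rfl | hAne
  · intro α β
    simp only [sum_empty, norm_zero, Real.sqrt_zero, zero_mul, mul_zero, le_refl]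
  rcases le_or_gt (#B : ℝ) ((p : ℝ) ^ (1 - δ / 2)) with hBs | hBl
  · -- theorem A
    set F' : Finset (Finset (ZMod p × ZMod p) × Finset (ZMod p) × ℕ) :=
      F.image fun q => (q.2.1 ×ˢ q.2.2.1, q.1, q.2.2.2) with hF'
    have hB0 : (0 : ℝ) < #B := lt_of_lt_of_le (Real.rpow_pos_of_pos hp0 _) hB
    have h1 := hP₂ p hpP₂ B F' (by
      intro q' hq'
      obtain ⟨q, hq, rfl⟩ := mem_image.1 hq'
      obtain ⟨hC, hD, h0, hE, hm⟩ := hF q hq
      refine ⟨?_, ?_, hm, ?_⟩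
      · rintro ⟨d, e⟩ hde
        rw [mem_product] at hde
        exact fun h => h0 (h ▸ hde.1)
      · exact (Real.rpow_le_rpow_of_exponent_le hp1 hδ'δ).trans hC
      · have h2 : (NA (q.2.1 ×ˢ q.2.2.1) B : ℝ) ≤ #B * MM q.2.1 q.2.2.1 B := by
          exact_mod_cast na_le q.2.1 q.2.2.1 B h0
        have hlow : ∀ x : ℝ, (p : ℝ) ^ δ ≤ x → (p : ℝ) ^ (δ / 2) ≤ x := fun x hx =>
          (Real.rpow_le_rpow_of_exponent_le hp1 (by linarith)).trans hx
        have h3 := hP₁ p hpP₁ q.2.1 q.2.2.1 B h0 (hlow _ hD) (hlow _ hE) hBs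
        have h4 : (p : ℝ) ^ (1 + δ') * (p : ℝ) ^ (-κ) ≤ (#B : ℝ) ^ 2 := by
          calc (p : ℝ) ^ (1 + δ') * (p : ℝ) ^ (-κ) = (p : ℝ) ^ (1 + δ' - κ) := by
                rw [← Real.rpow_add hp0]
                congr 1
            _ ≤ (p : ℝ) ^ ((1 / 2 - τ') * 2) :=
                Real.rpow_le_rpow_of_exponent_le hp1 (by linarith)
            _ = ((p : ℝ) ^ (1 / 2 - τ')) ^ 2 := by
                rw [Real.rpow_mul hp0.le, Real.rpow_two]
            _ ≤ _ := pow_le_pow_left₀ (by positivity) hB 2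
        have hcard : (#(q.2.1 ×ˢ q.2.2.1) : ℝ) = (#q.2.1 : ℝ) * #q.2.2.1 := by
          rw [card_product, Nat.cast_mul]
        rw [hcard]
        calc (p : ℝ) ^ (1 + δ') * NA (q.2.1 ×ˢ q.2.2.1) B
            ≤ (p : ℝ) ^ (1 + δ') * (#B * ((p : ℝ) ^ (-κ) *
                ((#q.2.1 : ℝ) ^ 2 * (#q.2.2.1 : ℝ) ^ 2 * #B))) := by
              refine mul_le_mul_of_nonneg_left (h2.trans ?_) (by positivity)
              exact mul_le_mul_of_nonneg_left h3 (by positivity)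
          _ = ((p : ℝ) ^ (1 + δ') * (p : ℝ) ^ (-κ)) *
                ((#q.2.1 : ℝ) ^ 2 * (#q.2.2.1 : ℝ) ^ 2 * (#B : ℝ) ^ 2) := by ring
          _ ≤ (#B : ℝ) ^ 2 * ((#q.2.1 : ℝ) ^ 2 * (#q.2.2.1 : ℝ) ^ 2 * (#B : ℝ) ^ 2) :=
              mul_le_mul_of_nonneg_right h4 (by positivity)
          _ = _ := by ring) A (by
      intro a ha
      obtain ⟨q, hq, hqa⟩ := hAF a ha
      refine ⟨_, mem_image_of_mem _ hq, ?_⟩
      simp only
      rw [rep_eq]
      exact hqa) χ hχ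
    refine nb_mono χ A B ?_ h1
    refine mul_le_mul (Real.rpow_le_rpow_of_exponent_le hp1 (by linarith)) ?_
      (Real.sqrt_nonneg _) (by positivity)
    refine Real.sqrt_le_sqrt (mul_le_mul_of_nonneg_right ?_ (by positivity))
    rw [hF', hS₀]
    refine (sum_image_le_of_nonneg (fun _ _ => by positivity)).trans ?_
    refine sum_le_sum fun q _ => ?_
    simp only
    rw [card_product, Nat.cast_mul]
    refine le_of_eq ?_
    ring
  · -- the trivial bound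
    refine nb_mono χ A B ?_ (nb_sqrt χ hχ A B)
    obtain ⟨a, ha⟩ := hAne
    obtain ⟨q, hq, hqa⟩ := hAF a ha
    obtain ⟨hC, hD, h0, hE, hm⟩ := hF q hq
    have h1 : (q.2.2.2 : ℝ) ≤ (#q.1 : ℝ) * #q.2.1 := by
      exact_mod_cast hqa.trans (rep_le q.1 q.2.1 q.2.2.1 a)
    have hm0 : (0 : ℝ) < q.2.2.2 := by exact_mod_cast hm
    have h2 : (p : ℝ) ^ δ ≤ (#q.1 : ℝ) * #q.2.1 * #q.2.2.1 / q.2.2.2 := by
      refine hE.trans ?_
      rw [le_div_iff₀ hm0]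
      calc (#q.2.2.1 : ℝ) * q.2.2.2 ≤ #q.2.2.1 * ((#q.1 : ℝ) * #q.2.1) :=
            mul_le_mul_of_nonneg_left h1 (by positivity)
        _ = _ := by ring
    have h3 : (p : ℝ) ^ δ ≤ S₀ := by
      refine h2.trans ?_
      exact single_le_sum (f := fun q : Finset (ZMod p) × Finset (ZMod p) × Finset (ZMod p) × ℕ =>
        (#q.1 : ℝ) * #q.2.1 * #q.2.2.1 / q.2.2.2) (fun _ _ => by positivity) hq
    have h4 : (p : ℝ) ≤ (p : ℝ) ^ (-(2 * τ')) * (S₀ * #B) := by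
      calc (p : ℝ) = (p : ℝ) ^ (1 : ℝ) := (Real.rpow_one _).symm
        _ ≤ (p : ℝ) ^ (-(2 * τ') + (δ + (1 - δ / 2))) :=
            Real.rpow_le_rpow_of_exponent_le hp1 (by linarith)
        _ = (p : ℝ) ^ (-(2 * τ')) * ((p : ℝ) ^ δ * (p : ℝ) ^ (1 - δ / 2)) := by
            rw [Real.rpow_add hp0, Real.rpow_add hp0 δ]
        _ ≤ _ := by
            refine mul_le_mul_of_nonneg_left ?_ (by positivity)
            exact mul_le_mul h3 hBl.le (by positivity) (le_trans (by positivity) h3)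
    calc Real.sqrt p ≤ Real.sqrt ((p : ℝ) ^ (-(2 * τ')) * (S₀ * #B)) := Real.sqrt_le_sqrt h4
      _ = (p : ℝ) ^ (-τ') * Real.sqrt (S₀ * #B) := by
          rw [Real.sqrt_mul (by positivity)]
          congr 1
          rw [show (p : ℝ) ^ (-(2 * τ')) = ((p : ℝ) ^ (-τ')) ^ 2 by
            rw [← Real.rpow_natCast, ← Real.rpow_mul hp0.le]
            congr 1
            push_cast
            ring]
          exact Real.sqrt_sq (by positivity)

end MPcb27.SP
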