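import Pool.Agent.Lib.MP_cb27ba_nt.SP.Spec

/-!
# MP_cb27ba_nt, project SP: module HF, one Hoelder step
-/

set_option autoImplicit false

namespace MPcb27.SP

open Finset

namespace HF

variable {p : ℕ} [Fact p.Prime]

theorem norm_GN_le (D : Finset (ZMod p)) (n : ℕ) (x : ZMod p) : ‖GN D n x‖ ≤ 1 := by
  induction n generalizing x with
  | zero =>
    unfold GN
    simp
  | succ n ih =>
    have h1 : GN D (n + 1) x = (∑ d ∈ D, ∑ d' ∈ D, GN D n (d' * d⁻¹ * x)) / (#D : ℂ) ^ 2 := by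
      unfold GN
      rw [Function.iterate_succ_apply']
      rfl
    rw [h1, norm_div, norm_pow, Complex.norm_natCast]
    rcases D.eq_empty_or_nonempty with hD | hD
    · subst hD
      simp
    have hD0 : (0 : ℝ) < #D := by exact_mod_cast hD.card_pos
    rw [div_le_one (by positivity)]
    calc ‖∑ d ∈ D, ∑ d' ∈ D, GN D n (d' * d⁻¹ * x)‖
        ≤ ∑ d ∈ D, ∑ d' ∈ D, ‖GN D n (d' * d⁻¹ * x)‖ :=
          (norm_sum_le _ _).trans (sum_le_sum fun d _ => norm_sum_le _ _)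
      _ ≤ ∑ d ∈ D, ∑ d' ∈ D, (1 : ℝ) := sum_le_sum fun d _ => sum_le_sum fun d' _ => ih _
      _ = (#D : ℝ) ^ 2 := by
          simp only [sum_const, nsmul_eq_mul, mul_one]
          ring

theorem GN_succ (D : Finset (ZMod p)) (n : ℕ) (x : ZMod p) :
    GN D (n + 1) x = (∑ d ∈ D, ∑ d' ∈ D, GN D n (d' * d⁻¹ * x)) / (#D : ℂ) ^ 2 := by
  unfold GN
  rw [Function.iterate_succ_apply']
  rfl

theorem GN_zero_arg (D : Finset (ZMod p)) (hD : D.Nonempty) (n : ℕ) : GN D n 0 = 1 := by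
  induction n with
  | zero =>
    unfold GN
    simp
  | succ n ih =>
    rw [GN_succ]
    have hD0 : (#D : ℂ) ≠ 0 := by exact_mod_cast hD.card_pos.ne'
    simp only [mul_zero, ih, sum_const, nsmul_eq_mul, mul_one]
    field_simp

omit [Fact p.Prime] in
/-- the mean over `D × D` -/
theorem jensen (D : Finset (ZMod p)) (hD : D.Nonempty) (f : ZMod p → ZMod p → ℝ)
    (hf : ∀ d d', 0 ≤ f d d') (m : ℕ) :
    ((∑ d ∈ D, ∑ d' ∈ D, f d d') / (#D : ℝ) ^ 2) ^ m ≤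
      (∑ d ∈ D, ∑ d' ∈ D, f d d' ^ m) / (#D : ℝ) ^ 2 := by
  have hD0 : (0 : ℝ) < #D := by exact_mod_cast hD.card_pos
  rcases Nat.eq_zero_or_pos m with rfl | hm
  · simp only [pow_zero, sum_const, nsmul_eq_mul, mul_one]
    rw [show (#D : ℝ) * #D = (#D : ℝ) ^ 2 by ring, div_self (by positivity)]
  obtain ⟨n, rfl⟩ : ∃ n, m = n + 1 := ⟨m - 1, by omega⟩
  have h1 := pow_sum_div_card_le_sum_pow (s := D ×ˢ D) (f := fun q => f q.1 q.2)
    (fun q _ => hf _ _) n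
  rw [card_product, sum_product, sum_product] at h1
  push_cast at h1
  rw [div_pow]
  rw [div_le_div_iff₀ (by positivity) (by positivity)]
  rw [div_le_iff₀ (by positivity)] at h1
  have h2 : ((#D : ℝ) ^ 2) ^ (n + 1) = ((#D : ℝ) * #D) ^ n * (#D : ℝ) ^ 2 := by ring
  rw [h2]
  have h3 := mul_le_mul_of_nonneg_right h1 (by positivity : (0 : ℝ) ≤ (#D : ℝ) ^ 2)
  refine h3.trans (le_of_eq ?_)
  ring

end HF

open HF in
/-- **HF** -/
theorem specHF : SpecHF := by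
  intro p _ D n hD hD0
  have hDc : (0 : ℝ) < #D := by exact_mod_cast hD.card_pos
  have hne : ∀ d ∈ D, d ≠ 0 := fun d hd h => hD0 (h ▸ hd)
  set f : ZMod p → ℝ := fun x => ‖GN D n x‖ ^ 2 ^ (n + 1) with hf
  have hf0 : ∀ x, 0 ≤ f x := fun x => by positivity
  have hf1 : ∀ x, f x ≤ 1 := fun x => pow_le_one₀ (norm_nonneg _) (norm_GN_le D n x)
  set W : ℝ := ∑ x, ‖GN D (n + 1) x‖ ^ 2 ^ (n + 2) with hW
  set T : ZMod p → ZMod p → ZMod p → ℝ := fun d₁ d₁' d₂ =>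
    ∑ d ∈ D, ∑ x, f x * f (d₂⁻¹ * d₁ * d₁'⁻¹ * d * x) with hT
  -- pointwise
  have h1 : ∀ x, ‖GN D (n + 1) x‖ ^ 2 ^ (n + 2) ≤
      ((∑ d ∈ D, ∑ d' ∈ D, f (d' * d⁻¹ * x)) / (#D : ℝ) ^ 2) ^ 2 := by
    intro x
    have e : (2 : ℕ) ^ (n + 2) = 2 ^ (n + 1) * 2 := by ring
    rw [e, pow_mul]
    refine pow_le_pow_left₀ (by positivity) ?_ 2
    have h2 : ‖GN D (n + 1) x‖ ≤
        (∑ d ∈ D, ∑ d' ∈ D, ‖GN D n (d' * d⁻¹ * x)‖) / (#D : ℝ) ^ 2 := by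
      rw [GN_succ, norm_div, norm_pow, Complex.norm_natCast]
      exact div_le_div_of_nonneg_right
        ((norm_sum_le _ _).trans (sum_le_sum fun d _ => norm_sum_le _ _)) (by positivity)
    refine (pow_le_pow_left₀ (norm_nonneg _) h2 _).trans ?_
    exact jensen D hD (fun d d' => ‖GN D n (d' * d⁻¹ * x)‖) (fun _ _ => norm_nonneg _) _
  -- opening the square
  have h2 : W * (#D : ℝ) ^ 4 ≤ ∑ d₁ ∈ D, ∑ d₁' ∈ D, ∑ d₂ ∈ D, T d₁ d₁' d₂ := by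
    have h3 : W ≤ (∑ x, (∑ d ∈ D, ∑ d' ∈ D, f (d' * d⁻¹ * x)) ^ 2) / (#D : ℝ) ^ 4 := by
      rw [sum_div]
      refine sum_le_sum fun x _ => (h1 x).trans (le_of_eq ?_)
      rw [div_pow]
      congr 1
      ring
    rw [le_div_iff₀ (by positivity)] at h3
    refine h3.trans (le_of_eq ?_)
    have h4 : ∀ x, (∑ d ∈ D, ∑ d' ∈ D, f (d' * d⁻¹ * x)) ^ 2 =
        ∑ d₁ ∈ D, ∑ d₁' ∈ D, ∑ d₂ ∈ D, ∑ d ∈ D,
          f (d₁' * d₁⁻¹ * x) * f (d * d₂⁻¹ * x) := by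
      intro x
      rw [sq, sum_mul]
      refine sum_congr rfl fun d₁ _ => ?_
      rw [sum_mul]
      refine sum_congr rfl fun d₁' _ => ?_
      rw [mul_sum]
      refine sum_congr rfl fun d₂ _ => ?_
      rw [mul_sum]
    simp only [h4]
    rw [sum_comm]
    refine sum_congr rfl fun d₁ hd₁ => ?_
    rw [sum_comm]
    refine sum_congr rfl fun d₁' hd₁' => ?_
    rw [sum_comm]
    refine sum_congr rfl fun d₂ hd₂ => ?_
    rw [sum_comm]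
    refine sum_congr rfl fun d hd => ?_
    have n1 := hne d₁ hd₁
    have n2 := hne d₁' hd₁'
    have n3 := hne d₂ hd₂
    have hbij : Function.Bijective (fun x : ZMod p => d₁ * d₁'⁻¹ * x) := by
      have hu : d₁ * d₁'⁻¹ ≠ 0 := mul_ne_zero n1 (inv_ne_zero n2)
      exact ⟨mul_right_injective₀ hu, fun y => ⟨(d₁ * d₁'⁻¹)⁻¹ * y, by
        show d₁ * d₁'⁻¹ * ((d₁ * d₁'⁻¹)⁻¹ * y) = y
        rw [mul_inv_cancel_left₀ hu]⟩⟩
    rw [← hbij.sum_comp]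
    refine sum_congr rfl fun x _ => ?_
    congr 1
    · congr 1
      field_simp
    · congr 1
      ring
  -- the best choice
  obtain ⟨q, hq, hmax⟩ := exists_max_image (D ×ˢ D ×ˢ D) (fun q => T q.1 q.2.1 q.2.2)
    (hD.product (hD.product hD))
  simp only [mem_product] at hq
  have h3 : ∑ d₁ ∈ D, ∑ d₁' ∈ D, ∑ d₂ ∈ D, T d₁ d₁' d₂ ≤ (#D : ℝ) ^ 3 * T q.1 q.2.1 q.2.2 := by
    calc ∑ d₁ ∈ D, ∑ d₁' ∈ D, ∑ d₂ ∈ D, T d₁ d₁' d₂
        ≤ ∑ d₁ ∈ D, ∑ d₁' ∈ D, ∑ d₂ ∈ D, T q.1 q.2.1 q.2.2 :=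
          sum_le_sum fun d₁ h₁ => sum_le_sum fun d₁' h₂ => sum_le_sum fun d₂ h₃ =>
            hmax (d₁, d₁', d₂) (by simp only [mem_product]; exact ⟨h₁, h₂, h₃⟩)
      _ = (#D : ℝ) ^ 3 * T q.1 q.2.1 q.2.2 := by
          simp only [sum_const, nsmul_eq_mul]
          ring
  have h4 : (#D : ℝ) * W ≤ T q.1 q.2.1 q.2.2 := by
    have h5 := h2.trans h3
    have h6 : (#D : ℝ) ^ 3 * (#D * W) ≤ (#D : ℝ) ^ 3 * T q.1 q.2.1 q.2.2 := by
      refine le_trans (le_of_eq ?_) h5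
      ring
    exact le_of_mul_le_mul_left h6 (by positivity)
  have hc : q.2.2⁻¹ * q.1 * q.2.1⁻¹ ≠ 0 :=
    mul_ne_zero (mul_ne_zero (inv_ne_zero (hne _ hq.2.2)) (hne _ hq.1)) (inv_ne_zero (hne _ hq.2.1))
  refine ⟨⟨_, hc, h4⟩, ?_, ?_, ?_⟩
  · have h5 : T q.1 q.2.1 q.2.2 ≤ #D * ∑ x, f x := by
      rw [hT]
      simp only
      calc ∑ d ∈ D, ∑ x, f x * f (q.2.2⁻¹ * q.1 * q.2.1⁻¹ * d * x)
          ≤ ∑ d ∈ D, ∑ x, f x * 1 :=
            sum_le_sum fun d _ => sum_le_sum fun x _ => mul_le_mul_of_nonneg_left (hf1 _) (hf0 x)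
        _ = #D * ∑ x, f x := by
            simp only [mul_one, sum_const, nsmul_eq_mul]
    exact le_of_mul_le_mul_left (h4.trans h5) hDc
  · have h5 := single_le_sum (f := f) (fun x _ => hf0 x) (mem_univ (0 : ZMod p))
    refine le_trans (le_of_eq ?_) h5
    rw [hf]
    simp only
    rw [GN_zero_arg D hD, norm_one, one_pow]
  · calc ∑ x, ‖GN D n x‖ ^ 2 ^ (n + 1) ≤ ∑ _x : ZMod p, (1 : ℝ) := sum_le_sum fun x _ => hf1 x
      _ = p := by simp [ZMod.card]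

end MPcb27.SP
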