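import Pool.Agent.Lib.MP_cb27ba_nt.SP.UNIF

/-!
# MP_cb27ba_nt, project SP: PACK (one set and many multipliers, from BSG and UNIF)
-/

set_option autoImplicit false

namespace MPcb27.SP

open Finset
open scoped Pointwise

namespace PACKM

open UNIFM

/-- the energy of `X` and `l X` -/
lemma en_le {p : ℕ} [Fact p.Prime] (X : Finset (ZMod p)) {l : ZMod p} (hl : l ≠ 0) :
    EN X l ≤ #(((X ×ˢ X) ×ˢ (dil l X ×ˢ dil l X)).filter fun q =>
      q.1.1 - q.1.2 = q.2.1 - q.2.2) := by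
  unfold EN
  refine card_le_card_of_injOn (fun q => (q.1, (l * q.2.1, l * q.2.2))) ?_ ?_
  · intro q hq
    rw [mem_coe, mem_filter, mem_product, mem_product, mem_product] at hq ⊢
    refine ⟨⟨hq.1.1, mem_image_of_mem _ hq.1.2.1, mem_image_of_mem _ hq.1.2.2⟩, ?_⟩
    rw [hq.2]
    ring
  · intro q _ q' _ h
    simp only [Prod.mk.injEq] at h
    obtain ⟨h1, h2, h3⟩ := h
    refine Prod.ext h1 (Prod.ext (mul_left_cancel₀ hl h2) (mul_left_cancel₀ hl h3))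

end PACKM

open PACKM UNIFM in
/-- **PACK** -/
theorem specPACK (hB : SpecBSG) (hU : SpecUNIF) : SpecPACK := by
  obtain ⟨c₀, hc₀⟩ := hB
  refine ⟨4 * c₀ ^ 18 + 18 * c₀, ?_⟩
  intro p _ X D c K hK hc hX hD hD0 h
  set K₁ : ℝ := c₀ * K ^ c₀ with hK₁
  have hX0 : (0 : ℝ) < #X := by exact_mod_cast hX.card_pos
  -- the pairs
  have key : ∀ d ∈ D, ∃ U V : Finset (ZMod p), U ⊆ X ∧ V ⊆ X ∧ (#X : ℝ) ≤ K₁ * #U ∧
      (#X : ℝ) ≤ K₁ * #V ∧ (#(U + dil (c * d) V) : ℝ) ≤ K₁ * #X := by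
    intro d hd
    have hd' : d ≠ 0 := fun e => hD0 (e ▸ hd)
    have hl : c * d ≠ 0 := mul_ne_zero hc hd'
    obtain ⟨X', Y', hX', hY', h1, h2, h3⟩ := hc₀ p X (dil (c * d) X) K hK hX
      (card_dil hl X).symm (by
        refine (h d hd).trans (mul_le_mul_of_nonneg_left ?_ (by linarith))
        exact_mod_cast en_le X hl)
    have hdil : dil (c * d) (X.filter fun x => c * d * x ∈ Y') = Y' := by
      ext y
      simp only [dil, mem_image, mem_filter]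
      constructor
      · rintro ⟨x, ⟨_, hx⟩, rfl⟩
        exact hx
      · intro hy
        obtain ⟨x, hx, rfl⟩ := mem_image.1 (hY' hy)
        exact ⟨x, ⟨hx, hy⟩, rfl⟩
    refine ⟨X', X.filter fun x => c * d * x ∈ Y', hX', filter_subset _ _, h1, ?_, ?_⟩
    · have : #(X.filter fun x => c * d * x ∈ Y') = #Y' := by
        rw [← card_dil hl (X.filter fun x => c * d * x ∈ Y'), hdil]
      rw [this, ← card_dil hl X]
      exact h2
    · rw [hdil]
      exact h3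
  choose! U V hUV using key
  obtain ⟨d₁, hd₁⟩ := hD
  have hK₁1 : 1 ≤ K₁ := by
    obtain ⟨h1, _, h3, _, _⟩ := hUV d₁ hd₁
    have h4 : (#(U d₁) : ℝ) ≤ #X := by exact_mod_cast card_le_card h1
    by_contra hcon
    have h5 : K₁ * #(U d₁) ≤ K₁ * #X := by
      have : 0 ≤ K₁ := by positivity
      gcongr
    have h6 : K₁ * #X < 1 * #X := by
      have := not_le.1 hcon
      gcongr
    linarith
  obtain ⟨d₀, hd₀, D', hD', hcard, hfin⟩ := hU p X D c K₁ U V hK₁1 hc hX ⟨d₁, hd₁⟩ hD0 hUV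
  have hd0' : d₀ ≠ 0 := fun e => hD0 (e ▸ hd₀)
  -- constants
  have hC : 4 * K₁ ^ 18 ≤ ((4 * c₀ ^ 18 + 18 * c₀ : ℕ) : ℝ) *
      K ^ (4 * c₀ ^ 18 + 18 * c₀) := by
    rw [hK₁, mul_pow, ← pow_mul, ← mul_assoc]
    have h1 : (4 * (c₀ : ℝ) ^ 18) ≤ ((4 * c₀ ^ 18 + 18 * c₀ : ℕ) : ℝ) := by
      push_cast
      have : (0 : ℝ) ≤ 18 * c₀ := by positivity
      linarith
    have h2 : K ^ (c₀ * 18) ≤ K ^ (4 * c₀ ^ 18 + 18 * c₀) := by
      refine pow_le_pow_right₀ hK ?_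
      nlinarith [Nat.zero_le (4 * c₀ ^ 18)]
    have h0 : (0 : ℝ) ≤ K := by linarith
    exact mul_le_mul h1 h2 (by positivity) (by positivity)
  have hC1 : K₁ ≤ 4 * K₁ ^ 18 := by
    have h1 : K₁ ^ 1 ≤ K₁ ^ 18 := pow_le_pow_right₀ hK₁1 (by norm_num)
    have h2 : (0 : ℝ) ≤ K₁ ^ 18 := by positivity
    rw [pow_one] at h1
    linarith
  have hC2 : 2 * K₁ ^ 4 ≤ 4 * K₁ ^ 18 := by
    have h1 : K₁ ^ 4 ≤ K₁ ^ 18 := pow_le_pow_right₀ hK₁1 (by norm_num)
    have h2 : (0 : ℝ) ≤ K₁ ^ 18 := by positivity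
    linarith
  refine ⟨U d₀, D'.image fun d => d / d₀, (hUV d₀ hd₀).1, ?_, ?_, ?_⟩
  · exact (hUV d₀ hd₀).2.2.1.trans (mul_le_mul_of_nonneg_right (hC1.trans hC) (by positivity))
  · rw [card_image_of_injective _ fun a b hab => by
      have : a / d₀ = b / d₀ := hab
      field_simp at this
      exact this]
    exact hcard.trans (mul_le_mul_of_nonneg_right (hC2.trans hC) (by positivity))
  · intro l hl
    obtain ⟨d, hd, rfl⟩ := mem_image.1 hl
    exact (hfin d hd).trans (mul_le_mul_of_nonneg_right hC (by positivity))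

end MPcb27.SP
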